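import Pool.Agent.Lib.MP_c86c76_al.Tg.St
import Pool.Agent.Lib.MP_c86c76_al.An.All

/-!
The energy theorem for the braids that keep the first point.
-/

set_option autoImplicit false

namespace Pool.Agent.MH

open Pool.Agent.MB Pool.Agent.MG Pool.Agent.MA Pool.Agent.MW
open FreeGroup hiding map_mul map_inv map_one

theorem br1_letter {ι : Type} {i j : ι} (h : IsConj (of i) (of j)) : i = j := by
  classical
  have := (lift fun k => if k = i then Multiplicative.ofAdd (1 : ℤ) else 1).map_isConj h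
  rw [isConj_iff_eq, lift_apply_of, lift_apply_of, if_pos rfl] at this
  by_contra e
  rw [if_neg (Ne.symm e)] at this
  exact absurd this (by decide)

theorem br1_top (m : ℕ) (x : FN (m + 1)) : x ∈ EA (m + 1) 1 (m + 1) := by
  induction x using FreeGroup.induction_on with
  | C1 => exact one_mem _
  | of j =>
    have e : io (m + 1) j = of j := dif_pos j.2
    refine Subgroup.subset_closure ?_
    rcases Nat.eq_zero_or_pos j with h | h
    · refine Or.inl ?_
      rw [bl_succ _ le_rfl, bl_self, one_mul, ← e, h]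
    · exact Or.inr ⟨j, h, j.2, e.symm⟩
  | inv_of j h => exact inv_mem h
  | mul x y a b => exact mul_mem a b

theorem br1_loc0 {m : ℕ} (β : BL (m + 1)) (h : IsConj (of 0) (β.1 (of 0))) :
    ∃ u, Loc0 (m + 1) 1 (m + 1) β.1 u := by
  obtain ⟨u, hu⟩ := isConj_iff.1 h
  obtain ⟨π, hπ⟩ := β.2.2
  have h0 : π 0 = 0 := br1_letter ((hπ 0).trans h.symm)
  refine ⟨u, br1_top m u, fun p hp => ?_, fun p a b => ?_, fun p hp => ?_⟩
  · obtain rfl : p = 0 := by omega
    exact hu.symm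
  · obtain ⟨w, hw⟩ := isConj_iff.1 (hπ ⟨p, b⟩)
    refine ⟨π ⟨p, b⟩, w, Nat.pos_of_ne_zero fun e => ?_, (π _).2, br1_top m w, ?_⟩
    · have := π.injective ((Fin.ext e : π ⟨p, b⟩ = 0).trans h0.symm)
      have := congrArg Fin.val this
      simp at this
      omega
    · rw [io, dif_pos b, ← hw, io, dif_pos (π _).2]
  · rw [io, dif_neg (by omega), map_one]

/-- A braid that keeps the first point lies in the group of the annulus. -/
theorem br1_mem {m : ℕ} (β : BL (m + 1)) (h : IsConj (of 0) (β.1 (of 0))) :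
    β ∈ Loc (m + 1) 1 (m + 1) := by
  refine ⟨br1_loc0 β h, br1_loc0 β⁻¹ ?_⟩
  have := (β.1⁻¹ : MulAut _).toMonoidHom.map_isConj h
  simpa using this.symm

section Gauge

variable {n : ℕ}

theorem br1_AA {ρ s : List (Option (Fin (n + 1)))} (h : Ful ρ) (h' : Ful s)
    (a : Option (Fin (n + 1))) :
    IsConj (of ((brq h).symm a)) ((AA ρ s).1 (of ((brq h').symm a))) := by
  have e := (brP h).symm.toMonoidHom.map_isConj (brH_conj a s ρ)
  have e1 : (brP h).symm (of a) = of ((brq h).symm a) := by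
    rw [MulEquiv.symm_apply_eq, brP_of, Equiv.apply_symm_apply]
  have e2 : (brP h).symm (brH ρ s (of a)) = (AA ρ s).1 (of ((brq h').symm a)) := by
    rw [MulEquiv.symm_apply_eq, AA_apply h h', brP_of, Equiv.apply_symm_apply]
  rwa [MulEquiv.coe_toMonoidHom, e1, e2] at e

theorem br1_pos {ρ : List (Option (Fin (n + 1)))} (h : Ful ρ) (e : ρ.head? = some (some 0)) :
    (brq h).symm (some 0) = 0 := by
  rw [Equiv.symm_apply_eq]
  cases ρ with
  | nil => simp at e
  | cons a l =>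
    obtain rfl : a = some 0 := by simpa using e
    rfl

theorem br1_head {π : Equiv.Perm (Fin (n + 1))} (h : π 0 = 0) :
    (od π ++ [none]).head? = some (some 0) := by
  simp [od, List.ofFn_succ, h]

open Classical in
/-- A braid that brings the first point to its place in the order `ρ`. -/
noncomputable def br1g (ρ : List (Option (Fin (n + 1)))) : BL (n + 1 + 1) :=
  if ρ.head? = some (some 0) then 1 else AA ρ (od 1 ++ [none])

theorem br1_g {ρ : List (Option (Fin (n + 1)))} (h : Ful ρ) :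
    IsConj (of ((brq h).symm (some 0))) ((br1g ρ).1 (of 0)) := by
  rw [br1g]
  split_ifs with e
  · rw [br1_pos h e]
    exact IsConj.refl _
  · have := br1_AA h (ful_last 1) (some 0)
    rwa [br1_pos _ (br1_head rfl)] at this

theorem br1_A {ρ s : List (Option (Fin (n + 1)))} (h : Ful ρ) (h' : Ful s) :
    (br1g ρ)⁻¹ * AA ρ s * br1g s ∈ Loc (n + 1 + 1) 1 (n + 1 + 1) := by
  refine br1_mem _ ?_
  have a := (br1_AA h h' (some 0)).trans ((AA ρ s).1.toMonoidHom.map_isConj (br1_g h'))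
  have b := ((br1g ρ).1⁻¹ : MulAut _).toMonoidHom.map_isConj ((br1_g h).symm.trans a)
  simpa using b

theorem br1_gg {π : Equiv.Perm (Fin (n + 1))} (h : π 0 = 0) (k : ℕ) :
    (br1g (none :: od π))⁻¹ * AA (none :: od π) (odk π k) * br1g (odk π k) *
      ((br1g (od π ++ [none]))⁻¹ * AA (od π ++ [none]) (odk π k) * br1g (odk π k))⁻¹ =
      (br1g (none :: od π))⁻¹ * gg π k := by
  have : br1g (od π ++ [none]) = 1 := if_pos (br1_head h)
  rw [this, gg]
  group

theorem br1_ggm {π : Equiv.Perm (Fin (n + 1))} (h : π 0 = 0) (k : ℕ) :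
    (br1g (none :: od π))⁻¹ * gg π k ∈ Loc (n + 1 + 1) 1 (n + 1 + 1) := by
  rw [← br1_gg h]
  exact mul_mem (br1_A (ful_first π) (ful_odk π k)) (inv_mem (br1_A (ful_last π) (ful_odk π k)))

end Gauge

theorem mm_loc' (N k : ℕ) : MM N k ∈ Loc (N + 1) 1 (N + 1) := by
  cases N with
  | zero => exact br1_mem _ (by
      obtain ⟨π, hπ⟩ := (MM 0 k).2.2
      have := hπ 0
      rwa [Subsingleton.elim (α := Fin 1) (π 0) 0] at this)
  | succ n =>
    have := mul_mem (inv_mem (br1_ggm (n := n) (π := 1) rfl (n + 1))) (br1_ggm (π := 1) rfl k)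
    rwa [mul_inv_rev, inv_inv, mul_assoc, mul_inv_cancel_left] at this

theorem mm_loc {N k : ℕ} (_hk : k ≤ N) : MM N k ∈ Loc (N + 1) 1 (N + 1) := mm_loc' N k

/-- A transport from an action of the group of the annulus. -/
theorem br1_tr {G : Type} [Group G] {n : ℕ} (α : Loc (n + 1 + 1) 1 (n + 1 + 1) →* G)
    (M : ℕ → Loc (n + 1 + 1) 1 (n + 1 + 1)) (hM : ∀ k, k ≤ n + 1 → (M k).1 = MM (n + 1) k) :
    ∃ τ : Tr (n + 1) G, ∀ π : Equiv.Perm (Fin (n + 1)), π 0 = 0 →
      ∃ c : G, ∀ k, k ≤ n + 1 → τ.ga π k = c * α (M k) := by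
  classical
  let f : BL (n + 1 + 1) → G := fun β => if h : β ∈ Loc _ 1 (n + 1 + 1) then α ⟨β, h⟩ else 1
  have fm : ∀ β γ, β ∈ Loc _ 1 (n + 1 + 1) → γ ∈ Loc _ 1 (n + 1 + 1) → f (β * γ) = f β * f γ :=
    fun β γ a b => by
      simp only [f, dif_pos a, dif_pos b, dif_pos (mul_mem a b), ← map_mul]
      rfl
  obtain ⟨τ, hτ⟩ := trSt (n + 1) G (fun ρ s => f ((br1g ρ)⁻¹ * AA ρ s * br1g s))
    fun l1 l2 i j h => by
      obtain ⟨c, hc⟩ := AA_swp l1 l2 i j h
      have h' : Ful (l1 ++ j :: i :: l2) := h.of_perm ((List.Perm.swap ..).append_left _)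
      refine ⟨f ((br1g (l1 ++ j :: i :: l2))⁻¹ * c * br1g (l1 ++ i :: j :: l2)), fun s a b => ?_⟩
      have e : (br1g (l1 ++ j :: i :: l2))⁻¹ * AA (l1 ++ j :: i :: l2) s * br1g s =
          (br1g (l1 ++ j :: i :: l2))⁻¹ * c * br1g (l1 ++ i :: j :: l2) *
            ((br1g (l1 ++ i :: j :: l2))⁻¹ * AA (l1 ++ i :: j :: l2) s * br1g s) := by
        rw [hc s a b]
        group
      have m1 := br1_A h' a
      have m2 := br1_A h a
      rw [e] at m1
      show f _ = _ * f _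
      rw [e, fm _ _ ((Subgroup.mul_mem_cancel_right _ m2).1 m1) m2]
  refine ⟨τ, fun π h => ⟨f ((br1g (none :: od π))⁻¹ * gg π (n + 1)), fun k hk => ?_⟩⟩
  have e : f (MM (n + 1) k) = α (M k) := by
    simp only [f, dif_pos (mm_loc' (n + 1) k)]
    exact congrArg α (Subtype.ext (hM k hk).symm)
  rw [hτ π k hk, mul_inv_eq_iff_eq_mul, ← e, ← fm _ _ (br1_ggm h _) (mm_loc' _ k),
    mul_assoc _ (gg π (n + 1)), ← gg_eq π hk,
    ← fm _ _ (br1_ggm h k) (br1_A (ful_last π) (ful_odk π k)), ← br1_gg h k, inv_mul_cancel_right]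

/-- The energy theorem for actions of the group of the annulus. -/
theorem br1' {H : Type} [NormedAddCommGroup H] [InnerProductSpace ℂ H]
    [CompleteSpace H] {N : ℕ} (hN : 2 ≤ N) (α : Loc (N + 1) 1 (N + 1) →* (H ≃ᵃⁱ[ℂ] H))
    (M : ℕ → Loc (N + 1) 1 (N + 1)) (hM : ∀ k, k ≤ N → (M k).1 = MM N k)
    (h1 : ∀ k, k < N → ∃ x, α (M k) x = α (M (k + 1)) x)
    (h2 : ∀ k, k + 2 ≤ N → ∃ x, α (M k) x = α (M (k + 2)) x)
    (h3 : ∃ x, α (M 0) x = α (M (N - 1)) x) (h4 : ∃ x, α (M 0) x = x)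
    (h5 : ∀ k, 1 ≤ k → k < N → ∃ x, α (M 0) x = α (M k) x ∧ α (M 0) x = α (M (k + 1)) x)
    (ε : ℝ) (hε : 0 < ε) : ∃ x, ∀ k, k ≤ N → ‖α (M k) x - x‖ < ε := by
  obtain ⟨n, rfl⟩ : ∃ n, N = n + 1 := ⟨N - 1, by omega⟩
  obtain ⟨τ, hτ⟩ := br1_tr α M hM
  have top : M (n + 1) = 1 := Subtype.ext ((hM _ le_rfl).trans MM_top)
  have el : ∀ π : Equiv.Perm (Fin (n + 1)), π 0 = 0 → ∀ k l, k ≤ n + 1 → l ≤ n + 1 →
      (∃ x, α (M k) x = α (M l) x) → El τ π k l := fun π h k l hk hl ⟨x, hx⟩ => by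
    obtain ⟨c, hc⟩ := hτ π h
    refine ⟨x, ?_⟩
    rw [hc k hk, hc l hl]
    exact congrArg c hx
  obtain ⟨c, hc⟩ := hτ 1 rfl
  have e : ∀ k, k ≤ n + 1 → ∀ x, τ.ga 1 k x = c (α (M k) x) := fun k hk x => by
    rw [hc k hk]
    rfl
  obtain ⟨x, hx⟩ := mainA H n τ (by omega) (fun π h =>
    ⟨fun k hk => el π h _ _ (by omega) (by omega) (h1 k (by omega)),
      fun k hk => el π h _ _ (by omega) (by omega) (h2 k (by omega)),
      el π h _ _ (by omega) (by omega) h3,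
      el π h _ _ (by omega) le_rfl (by simpa [top] using h4)⟩)
    (fun k k1 k2 => by
      obtain ⟨x, a, b⟩ := h5 k k1 (by omega)
      exact ⟨x, by rw [e _ (by omega), e _ (by omega), a],
        by rw [e _ (by omega), e _ (by omega), b]⟩) (ε / 2) (by positivity)
  have d : ∀ k, k ≤ n + 1 → ‖α (M k) x - α (M 0) x‖ < ε / 2 := by
    intro k hk
    have := hx k hk
    rwa [e _ hk, e _ (by omega), ← dist_eq_norm, AffineIsometryEquiv.dist_map,
      dist_eq_norm] at this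
  refine ⟨x, fun k hk => ?_⟩
  have a := d k hk
  have b := d (n + 1) le_rfl
  rw [top, map_one] at b
  calc _ = ‖(α (M k) x - α (M 0) x) - (x - α (M 0) x)‖ := by
        congr 1; abel
    _ ≤ _ := norm_sub_le _ _
    _ < ε / 2 + ε / 2 := add_lt_add a b
    _ = ε := by ring

/-- The energy theorem for actions of the group of the annulus. -/
theorem br1 {H : Type} [NormedAddCommGroup H] [InnerProductSpace ℂ H]
    [CompleteSpace H] {N : ℕ} (hN : 2 ≤ N) (α : Loc (N + 1) 1 (N + 1) →* (H ≃ᵃⁱ[ℂ] H))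
    (M : ℕ → Loc (N + 1) 1 (N + 1)) (hM : ∀ k, (M k).1 = MM N k)
    (h1 : ∀ k, k < N → ∃ x, α (M k) x = α (M (k + 1)) x)
    (h2 : ∀ k, k + 2 ≤ N → ∃ x, α (M k) x = α (M (k + 2)) x)
    (h3 : ∃ x, α (M 0) x = α (M (N - 1)) x) (h4 : ∃ x, α (M 0) x = x)
    (h5 : ∀ k, 1 ≤ k → k < N → ∃ x, α (M 0) x = α (M k) x ∧ α (M 0) x = α (M (k + 1)) x)
    (ε : ℝ) (hε : 0 < ε) : ∃ x, ∀ k, k ≤ N → ‖α (M k) x - x‖ < ε :=
  br1' hN α M (fun k _ => hM k) h1 h2 h3 h4 h5 ε hε

end Pool.Agent.MH
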