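import Pool.Agent.Lib.MP_c86c76_al.Th.St
import Pool.Agent.Lib.MP_c86c76_al.Th.Br1
import Pool.Agent.Lib.MP_c86c76_al.Tg.Lcb

/-!
The energy theorem for the annulus around the first three points.
-/

set_option autoImplicit false

namespace Pool.Agent.MH

open Pool.Agent.MB Pool.Agent.MG Pool.Agent.MA Pool.Agent.MT
open Pool.Agent.MW hiding FH AFP
open FreeGroup hiding map_mul map_inv map_one

theorem br_lcb {N k : ℕ} (hk : k ≤ N) (η : BL (N + 1))
    (f1 : ∀ p, p < k → η.1 (io _ p) = io _ p)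
    (f2 : η.1 (io _ k) = bl _ k N * io _ N * (bl _ k N)⁻¹)
    (f3 : ∀ p, k ≤ p → p < N → η.1 (io _ (p + 1)) = io _ p) (l : ℕ) (h1 : k ≤ l) (h2 : l ≤ N) :
    η⁻¹ * ((MM N 0)⁻¹ * MM N l) * η ∈ Loc (N + 1) k (l + 1) := by
  obtain ⟨w, hw⟩ : ∃ w, w = bl (N + 1) 0 N * io _ N * (bl _ 0 N)⁻¹ := ⟨_, rfl⟩
  obtain ⟨u, hu⟩ : ∃ u, u = bl (N + 1) 0 k * io _ k * (bl _ 0 k)⁻¹ := ⟨_, rfl⟩
  have eu : η.1 u = w := by
    have := lcb_bl η.1 1 0 0 k.zero_le fun p _ b => by simpa using f1 p b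
    simp only [add_zero, one_mul, inv_one, mul_one] at this
    rw [hu, map_mul, map_mul, map_inv, this, f2, hw, lcb_split _ k.zero_le hk]
    group
  have ew : (MM N 0).1 w = io _ N := hw ▸ lcb_M N.zero_le
  have key : ∀ l, k ≤ l → l ≤ N → ∀ E : BL (N + 1), E = η⁻¹ * ((MM N 0)⁻¹ * MM N l) * η →
      (∀ p, p ≤ l → p ≠ k → E.1 (io _ p) = u * io _ p * u⁻¹) ∧
      E.1 (io _ k) = u * bl _ (k + 1) (l + 1) * u * (u * bl _ (k + 1) (l + 1))⁻¹ ∧
      ∀ p, l < p → E.1 (io _ p) = io _ p := fun l h1 h2 E hE => by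
    have a : ∀ x y, (MM N l).1 (η.1 x) = (MM N 0).1 (η.1 y) → E.1 x = y := fun x y h => by
      simp only [hE, Subgroup.coe_mul, Subgroup.coe_inv, MulAut.mul_apply, h,
        MulAut.inv_apply_self]
    have b : ∀ p, p < l → (MM N l).1 (io _ p) = (MM N 0).1 (w * io _ p * w⁻¹) := fun p h => by
      rw [map_mul, map_mul, map_inv, ew, (MM_isM h2).1 p h,
        (MM_isM N.zero_le).2.1 p p.zero_le (by omega)]
      group
    refine ⟨fun p c d => a _ _ ?_, a _ _ ?_, fun p c => ?_⟩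
    · rw [map_mul η.1, map_mul η.1, map_inv, eu]
      rcases d.lt_or_gt with d | d
      · rw [f1 p d, b p (by omega)]
      · obtain ⟨q, rfl⟩ : ∃ q, p = q + 1 := ⟨p - 1, by omega⟩
        rw [f3 q (by omega) (by omega), b q c]
    · have c1 := lcb_bl η.1 1 1 0 h1 fun p c d => by simpa using f3 p c (by omega)
      have c2 := lcb_bl (MM N l).1 1 0 0 h1 fun p _ d => by simpa using (MM_isM h2).1 p d
      have c3 := lcb_bl (MM N 0).1 (io _ N)⁻¹ 0 0 h1 fun p _ d => by
        simpa using (MM_isM N.zero_le).2.1 p p.zero_le (by omega)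
      simp only [add_zero, one_mul, inv_one, mul_one] at c1 c2 c3
      rw [f2, lcb_split _ h1 h2, show bl _ k l * bl _ l N * io _ N * (bl _ k l * bl _ l N)⁻¹ =
        bl _ k l * (bl _ l N * io (N + 1) N * (bl _ l N)⁻¹) * (bl _ k l)⁻¹ by group, map_mul,
        map_mul, lcb_M h2]
      simp only [map_mul, map_inv, eu, ew, c1, c2, c3]
      group
    · rcases lt_or_ge N p with d | d
      · rw [io, dif_neg (by omega), map_one]
      · obtain ⟨q, rfl⟩ : ∃ q, p = q + 1 := ⟨p - 1, by omega⟩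
        refine a _ _ ?_
        rw [f3 q (by omega) d, (MM_isM h2).2.1 q (by omega) d,
          (MM_isM N.zero_le).2.1 q q.zero_le d]
  obtain ⟨a, b, c⟩ := key l h1 h2 _ rfl
  exact lcb_loc h1 hu a b c

theorem br_eta {N k i : ℕ} (hi : i ≤ k) (hk : k ≤ N) (η : BL (N + 1))
    (f1 : ∀ p, p < k → η.1 (io _ p) = io _ p)
    (f2 : η.1 (io _ k) = bl _ k N * io _ N * (bl _ k N)⁻¹)
    (f3 : ∀ p, k ≤ p → p < N → η.1 (io _ (p + 1)) = io _ p) : η ∈ Loc (N + 1) i (N + 1) := by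
  have i0 : ∀ x y, η.1 y = x → η.1⁻¹ x = y := fun x y h => by rw [← h, MulAut.inv_apply_self]
  have f4 : η.1 (bl _ (k + 1) (N + 1)) = bl _ k N := by
    simpa using lcb_bl η.1 1 1 0 hk fun p a b => by simpa using f3 p a b
  have z : ∀ p, N + 1 ≤ p → io (N + 1) p = 1 := fun p h => dif_neg (by omega)
  refine ⟨⟨1, one_mem _, fun p h => by simpa using f1 p (by omega), fun p a b => ?_,
    fun p h => by rw [z p h, map_one]⟩, 1, one_mem _,
    fun p h => i0 _ _ (by simpa using f1 p (by omega)), fun p a b => ?_,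
    fun p h => by rw [z p h, map_one]⟩
  · rcases lt_trichotomy p k with c | c | c
    · exact ⟨p, 1, a, b, one_mem _, by simpa using f1 p c⟩
    · exact ⟨N, _, by omega, by omega, lcb_mem _ hi hk (by omega), c ▸ f2⟩
    · obtain ⟨q, rfl⟩ : ∃ q, p = q + 1 := ⟨p - 1, by omega⟩
      exact ⟨q, 1, by omega, by omega, one_mem _, by simpa using f3 q (by omega) (by omega)⟩
  · rcases lt_or_ge p k with c | c
    · exact ⟨p, 1, a, b, one_mem _, i0 _ _ (by simpa using f1 p c)⟩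
    rcases (Nat.le_of_lt_succ b).lt_or_eq with d | d
    · exact ⟨p + 1, 1, by omega, by omega, one_mem _, i0 _ _ (by simpa using f3 p c d)⟩
    · refine ⟨k, (bl _ (k + 1) (N + 1))⁻¹, hi, by omega,
        inv_mem (lcb_mem _ (by omega) (by omega) le_rfl), i0 _ _ ?_⟩
      rw [d, inv_inv, map_mul, map_mul, map_inv, f2, f4]
      group

theorem brSt (hC : CabSt) : BrSt := by
  intro N j hN hj
  subst hj
  obtain ⟨n, rfl⟩ : ∃ n, N = n + 2 := ⟨N - 2, by omega⟩
  obtain ⟨c, hc⟩ := hC n (by omega)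
  let M' : ℕ → Loc (n + 1) 1 (n + 1) := fun k => ⟨MM n k, mm_loc' n k⟩
  have c0 : (c (M' 0)).1 = MM (n + 2) 0 := hc _ 0 n.zero_le rfl
  have c1 : ∀ k, 1 ≤ k → k ≤ n → (c (M' k)).1 = MM (n + 2) (k + 2) := fun k a b =>
    (hc _ k b rfl).trans (by rw [if_neg (by omega)])
  refine ⟨fun k a b => ?_, fun k a b => ?_, fun H _ _ _ a M hM key ε hε => ?_⟩
  · rcases a with rfl | a
    · exact c0 ▸ (c (M' 0)).2
    · obtain ⟨q, rfl⟩ : ∃ q, k = q + 2 := ⟨k - 2, by omega⟩
      exact c1 q (by omega) (by omega) ▸ (c (M' q)).2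
  · obtain ⟨η, f1, f2, f3⟩ := lcb_eta b
    exact ⟨η, br_eta a b η f1 f2 f3, br_lcb b η f1 f2 f3⟩
  · have e0 : (a.comp c) (M' 0) = a (M 0) :=
      congrArg a (Subtype.ext (c0.trans (hM 0 (Or.inl rfl) (by omega)).symm))
    have e1 : ∀ k, 1 ≤ k → k ≤ n → (a.comp c) (M' k) = a (M (k + 2)) := fun k k1 k2 =>
      congrArg a (Subtype.ext ((c1 k k1 k2).trans (hM _ (Or.inr (by omega)) (by omega)).symm))
    obtain ⟨x, hx⟩ := br1' (N := n) (by omega) (a.comp c) M' (fun _ _ => rfl)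
      (fun k hk => by
        rw [e1 (k + 1) (by omega) (by omega)]
        rcases Nat.eq_zero_or_pos k with rfl | k0
        · obtain ⟨x, hx⟩ := key 3 le_rfl (by omega)
          exact ⟨x, e0 ▸ hx 3 le_rfl (by omega) (by omega)⟩
        · obtain ⟨x, hx⟩ := key (k + 2) (by omega) (by omega)
          rw [e1 k k0 hk.le]
          exact ⟨x, (hx _ le_rfl (by omega) (by omega)).symm.trans
            (hx _ (by omega) (by omega) (by omega))⟩)
      (fun k hk => by
        rw [e1 (k + 2) (by omega) (by omega)]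
        rcases Nat.eq_zero_or_pos k with rfl | k0
        · obtain ⟨x, hx⟩ := key 3 le_rfl (by omega)
          exact ⟨x, e0 ▸ hx 4 (by omega) (by omega) (by omega)⟩
        · obtain ⟨x, hx⟩ := key (k + 2) (by omega) (by omega)
          rw [e1 k k0 (by omega)]
          exact ⟨x, (hx _ le_rfl (by omega) (by omega)).symm.trans
            (hx _ (by omega) (by omega) (by omega))⟩)
      (by
        obtain ⟨x, hx⟩ := key (n - 1 + 2) (by omega) (by omega)
        rw [e0, e1 (n - 1) (by omega) (by omega)]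
        exact ⟨x, hx _ le_rfl (by omega) (by omega)⟩)
      (by
        obtain ⟨x, hx⟩ := key (n + 2) (by omega) le_rfl
        have top : M (n + 2) = 1 :=
          Subtype.ext ((hM _ (Or.inr (by omega)) le_rfl).trans MM_top)
        rw [e0]
        exact ⟨x, by simpa [top] using hx _ le_rfl le_rfl (by omega)⟩)
      (fun k k1 k2 => by
        obtain ⟨x, hx⟩ := key (k + 2) (by omega) (by omega)
        rw [e0, e1 k k1 k2.le, e1 (k + 1) (by omega) (by omega)]
        exact ⟨x, hx _ le_rfl (by omega) (by omega), hx _ (by omega) (by omega) (by omega)⟩) ε hε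
    refine ⟨x, fun k k1 k2 => ?_⟩
    rcases k1 with rfl | k1
    · exact e0 ▸ hx 0 n.zero_le
    · obtain ⟨q, rfl⟩ : ∃ q, k = q + 2 := ⟨k - 2, by omega⟩
      exact e1 q (by omega) (by omega) ▸ hx q (by omega)

end Pool.Agent.MH
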