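import Pool.Agent.Lib.MP_c86c76_al.Th.St
import Pool.Agent.Lib.MP_c86c76_al.Tk.Wi

/-!
The first point is replaced by three points.
-/

set_option autoImplicit false

namespace Pool.Agent.MH

open Pool.Agent.MB Pool.Agent.MG Pool.Agent.MA Pool.Agent.MT
open Pool.Agent.MW hiding FH AFP
open FreeGroup hiding map_mul map_inv map_one

variable {N : ℕ}

theorem cab_io {n : ℕ} (j : Fin n) : io n j = of j := dif_pos j.2

/-- The group of the annulus. -/
def cabI (N : ℕ) : FN (N + 1) →* FN (N + 2 + 1) :=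
  lift fun j => if (j : ℕ) = 0 then bl _ 0 3 else io _ (j + 2)

/-- The winding number. -/
def cabD (N : ℕ) : FN (N + 1) →* Multiplicative ℤ :=
  lift fun j => if (j : ℕ) = 0 then Multiplicative.ofAdd 1 else 1

theorem cabI_zero : cabI N (io _ 0) = bl _ 0 3 := by
  rw [io, dif_pos (Nat.succ_pos N), cabI, lift_apply_of, if_pos rfl]

theorem cabI_pos {p : ℕ} (hp : 1 ≤ p) : cabI N (io _ p) = io _ (p + 2) := by
  by_cases h : p < N + 1
  · rw [io, dif_pos h, cabI, lift_apply_of, if_neg (by simp; omega)]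
  · rw [io, dif_neg h, io, dif_neg (by omega), map_one]

theorem cabD_zero : cabD N (io _ 0) = Multiplicative.ofAdd 1 := by
  rw [io, dif_pos (Nat.succ_pos N), cabD, lift_apply_of, if_pos rfl]

theorem cabD_pos {p : ℕ} (hp : 1 ≤ p) : cabD N (io _ p) = 1 := by
  by_cases h : p < N + 1
  · rw [io, dif_pos h, cabD, lift_apply_of, if_neg (by simp; omega)]
  · rw [io, dif_neg h, map_one]

theorem cabI_bl0 {l : ℕ} (hl : 1 ≤ l) : cabI N (bl _ 0 l) = bl _ 0 (l + 2) := by
  induction l, hl using Nat.le_induction with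
  | base => rw [bl_succ _ le_rfl, bl_self, one_mul, cabI_zero]
  | succ l hl ih =>
    rw [bl_succ _ (Nat.zero_le _), map_mul, ih, cabI_pos hl, show l + 1 + 2 = l + 2 + 1 by omega,
      bl_succ _ (Nat.zero_le (l + 2))]

theorem cabI_bl {k l : ℕ} (hk : 1 ≤ k) (hl : k ≤ l) :
    cabI N (bl _ k l) = bl _ (k + 2) (l + 2) := by
  induction l, hl using Nat.le_induction with
  | base => rw [bl_self, bl_self, map_one]
  | succ l hl ih =>
    rw [bl_succ _ hl, map_mul, ih, cabI_pos (by omega), show l + 1 + 2 = l + 2 + 1 by omega,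
      bl_succ _ (show k + 2 ≤ l + 2 by omega)]

theorem cabI_mem (x : FN (N + 1)) : cabI N x ∈ EA (N + 2 + 1) 3 (N + 2 + 1) := by
  induction x using FreeGroup.induction_on with
  | C1 => rw [map_one]; exact one_mem _
  | of j =>
    rw [← cab_io]
    refine Subgroup.subset_closure ?_
    rcases Nat.eq_zero_or_pos j with h | h
    · rw [h, cabI_zero]
      exact Or.inl rfl
    · rw [cabI_pos h]
      exact Or.inr ⟨j + 2, by omega, by omega, rfl⟩
  | inv_of j h => rw [map_inv]; exact inv_mem h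
  | mul x y a b => rw [map_mul]; exact mul_mem a b

/-- The witness without winding. -/
def CabW (β : MulAut (FN (N + 1))) (u : FN (N + 1)) : Prop :=
  β (io _ 0) = u * io _ 0 * u⁻¹ ∧ cabD N u = 1

theorem cab_uniq {β : MulAut (FN (N + 1))} {u v : FN (N + 1)} (h : CabW β u) (h' : CabW β v) :
    u = v := by
  have c : Commute (u⁻¹ * v) (of 0) := by
    have e := h.1.symm.trans h'.1
    rw [show io (N + 1) 0 = of 0 from cab_io 0] at e
    show u⁻¹ * v * of 0 = of 0 * (u⁻¹ * v)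
    calc _ = u⁻¹ * (v * of 0 * v⁻¹) * v := by group
      _ = _ := by rw [← e]; group
  obtain ⟨n, hn⟩ := cen_of _ _ c
  have e := congrArg (cabD N) hn
  simp only at e
  rw [map_zpow, map_mul, map_inv, h.2, h'.2, ← show io (N + 1) 0 = of 0 from cab_io 0,
    cabD_zero] at e
  have : n = 0 := by simpa using congrArg Multiplicative.toAdd e
  subst this
  exact inv_mul_eq_one.1 (by simpa using hn.symm)

theorem cab_ex (β : Loc (N + 1) 1 (N + 1)) : ∃ u, CabW β.1.1 u := by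
  obtain ⟨u, hu⟩ := β.2.1
  refine ⟨u * io _ 0 ^ (-Multiplicative.toAdd (cabD N u)), ?_, ?_⟩
  · rw [hu.2.1 0 one_pos]
    group
  · rw [map_mul, map_zpow, cabD_zero]
    apply Multiplicative.toAdd.injective
    simp

theorem cab_let (β : Loc (N + 1) 1 (N + 1)) {p : ℕ} (h : 1 ≤ p) (h' : p < N + 1) :
    ∃ q w, 1 ≤ q ∧ q < N + 1 ∧ β.1.1 (io _ p) = w * io _ q * w⁻¹ := by
  obtain ⟨u, hu⟩ := β.2.1
  obtain ⟨q, w, a, b, -, e⟩ := hu.2.2.1 p h h'
  exact ⟨q, w, a, b, e⟩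

theorem cab_deg (β : Loc (N + 1) 1 (N + 1)) (x : FN (N + 1)) : cabD N (β.1.1 x) = cabD N x := by
  refine DFunLike.congr_fun (?_ : (cabD N).comp β.1.1.toMonoidHom = cabD N) x
  refine FreeGroup.ext_hom _ _ fun j => ?_
  show cabD N (β.1.1 (of j)) = _
  rw [← cab_io]
  rcases Nat.eq_zero_or_pos j with h | h
  · obtain ⟨u, hu⟩ := cab_ex β
    rw [h, hu.1, map_mul, map_mul, map_inv, hu.2]
    simp
  · obtain ⟨q, w, a, -, e⟩ := cab_let β h j.2
    rw [e, map_mul, map_mul, map_inv, cabD_pos a, cabD_pos h]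
    simp

/-- The chosen witness. -/
noncomputable def cabU (β : Loc (N + 1) 1 (N + 1)) : FN (N + 1) := (cab_ex β).choose

theorem cabU_spec (β : Loc (N + 1) 1 (N + 1)) : CabW β.1.1 (cabU β) := (cab_ex β).choose_spec

theorem cabU_one : cabU (1 : Loc (N + 1) 1 (N + 1)) = 1 :=
  cab_uniq (cabU_spec 1) ⟨by simp, map_one _⟩

theorem cabU_mul (β γ : Loc (N + 1) 1 (N + 1)) : cabU (β * γ) = β.1.1 (cabU γ) * cabU β := by
  refine cab_uniq (cabU_spec _) ⟨?_, ?_⟩
  · show β.1.1 (γ.1.1 _) = _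
    rw [(cabU_spec γ).1, map_mul, map_mul, map_inv, (cabU_spec β).1]
    group
  · rw [map_mul, cab_deg, (cabU_spec β).2, (cabU_spec γ).2, mul_one]

/-- The cabled braid as an endomorphism. -/
noncomputable def cabE (β : Loc (N + 1) 1 (N + 1)) : FN (N + 2 + 1) →* FN (N + 2 + 1) :=
  lift fun j => if (j : ℕ) < 3 then cabI N (cabU β) * of j * (cabI N (cabU β))⁻¹
    else cabI N (β.1.1 (io _ (j - 2)))

theorem cabE_lo (β : Loc (N + 1) 1 (N + 1)) {p : ℕ} (hp : p < 3) :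
    cabE β (io _ p) = cabI N (cabU β) * io _ p * (cabI N (cabU β))⁻¹ := by
  rw [io, dif_pos (show p < N + 2 + 1 by omega), cabE, lift_apply_of, if_pos hp]

theorem cabE_hi (β : Loc (N + 1) 1 (N + 1)) {p : ℕ} (hp : 1 ≤ p) :
    cabE β (io _ (p + 2)) = cabI N (β.1.1 (io _ p)) := by
  by_cases h : p + 2 < N + 2 + 1
  · rw [io, dif_pos h, cabE, lift_apply_of, if_neg (by simp; omega)]
    rfl
  · rw [io, dif_neg h, io, dif_neg (by omega), map_one, map_one, map_one]

theorem cabE_I (β : Loc (N + 1) 1 (N + 1)) (x : FN (N + 1)) :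
    cabE β (cabI N x) = cabI N (β.1.1 x) := by
  refine DFunLike.congr_fun
    (?_ : (cabE β).comp (cabI N) = (cabI N).comp β.1.1.toMonoidHom) x
  refine FreeGroup.ext_hom _ _ fun j => ?_
  show cabE β (cabI N (of j)) = cabI N (β.1.1 (of j))
  rw [← cab_io]
  rcases Nat.eq_zero_or_pos j with h | h
  · rw [h, cabI_zero, (cabU_spec β).1, map_mul, map_mul, map_inv, cabI_zero]
    exact bl_conj (cabE β) (MonoidHom.id _) _ fun p hp => cabE_lo β hp
  · rw [cabI_pos h, cabE_hi β h]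

theorem cab_ext {G : Type} [Group G] {f f' : FN (N + 2 + 1) →* G}
    (h : ∀ p, p < 3 → f (io _ p) = f' (io _ p))
    (h' : ∀ p, 1 ≤ p → p ≤ N → f (io _ (p + 2)) = f' (io _ (p + 2))) : f = f' := by
  refine FreeGroup.ext_hom _ _ fun j => ?_
  rw [← cab_io]
  by_cases hj : (j : ℕ) < 3
  · exact h j hj
  · have := h' (j - 2) (by omega) (by omega)
    rwa [show (j : ℕ) - 2 + 2 = j by omega] at this

theorem cabE_one : cabE (1 : Loc (N + 1) 1 (N + 1)) = MonoidHom.id _ :=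
  cab_ext (fun p hp => by rw [cabE_lo _ hp, cabU_one]; simp)
    fun p hp _ => by rw [cabE_hi _ hp]; exact cabI_pos hp

theorem cabE_mul (β γ : Loc (N + 1) 1 (N + 1)) : cabE (β * γ) = (cabE β).comp (cabE γ) :=
  cab_ext (fun p hp => by
      rw [MonoidHom.comp_apply, cabE_lo _ hp, cabE_lo _ hp, cabU_mul, map_mul, map_mul, map_mul,
        map_inv, cabE_I, cabE_lo _ hp]
      group)
    fun p hp _ => by
      rw [MonoidHom.comp_apply, cabE_hi _ hp, cabE_hi _ hp, cabE_I]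
      rfl

/-- The cabled braid as an automorphism. -/
noncomputable def cabA (β : Loc (N + 1) 1 (N + 1)) : MulAut (FN (N + 2 + 1)) :=
  MonoidHom.toMulEquiv (cabE β) (cabE β⁻¹) (by rw [← cabE_mul, inv_mul_cancel, cabE_one])
    (by rw [← cabE_mul, mul_inv_cancel, cabE_one])

theorem cabA_apply (β : Loc (N + 1) 1 (N + 1)) (x : FN (N + 2 + 1)) : cabA β x = cabE β x := rfl

theorem cabA_mul (β γ : Loc (N + 1) 1 (N + 1)) : cabA (β * γ) = cabA β * cabA γ :=
  MulEquiv.ext fun x => DFunLike.congr_fun (cabE_mul β γ) x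

theorem cabA_loc (β : Loc (N + 1) 1 (N + 1)) :
    Loc0 _ 3 (N + 2 + 1) (cabA β) (cabI N (cabU β)) := by
  refine ⟨cabI_mem _, fun p hp => cabE_lo β hp, fun p a b => ?_, fun p hp => ?_⟩
  · obtain ⟨p, rfl⟩ : ∃ q, p = q + 2 := ⟨p - 2, by omega⟩
    obtain ⟨q, w, c, d, e⟩ := cab_let β (p := p) (by omega) (by omega)
    refine ⟨q + 2, cabI N w, by omega, by omega, cabI_mem w, ?_⟩
    rw [cabA_apply, cabE_hi β (by omega), e, map_mul, map_mul, map_inv, cabI_pos c]
  · rw [io, dif_neg (by omega), map_one]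

theorem cabA_bl (β : Loc (N + 1) 1 (N + 1)) : cabA β ∈ BL (N + 2 + 1) := by
  refine ⟨?_, MK.rs_perm _ fun j => ?_⟩
  · have e : bl (N + 2 + 1) 0 (N + 2 + 1) = cabI N (bl _ 0 (N + 1)) :=
      (cabI_bl0 (Nat.le_add_left 1 N)).symm
    rw [e, cabA_apply, cabE_I, β.1.2.1]
  · rw [← cab_io]
    by_cases hj : (j : ℕ) < 3
    · exact ⟨j, isConj_iff.2 ⟨_, by rw [(cabA_loc β).2.1 j hj, cab_io]⟩⟩
    · obtain ⟨q, w, -, b, -, e⟩ := (cabA_loc β).2.2.1 j (by omega) j.2
      exact ⟨⟨q, b⟩, isConj_iff.2 ⟨w, by rw [e, io, dif_pos b]⟩⟩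

theorem cabSt : CabSt := by
  intro N hN
  have one : cabA (1 : Loc (N + 1) 1 (N + 1)) = 1 :=
    MulEquiv.ext fun x => DFunLike.congr_fun cabE_one x
  have inv : ∀ β : Loc (N + 1) 1 (N + 1), (cabA β)⁻¹ = cabA β⁻¹ := fun β =>
    inv_eq_of_mul_eq_one_right (by rw [← cabA_mul, mul_inv_cancel, one])
  refine ⟨MonoidHom.mk' (fun β => ⟨⟨cabA β, cabA_bl β⟩, ⟨_, cabA_loc β⟩,
    ⟨_, by rw [inv]; exact cabA_loc β⁻¹⟩⟩)
    fun β γ => Subtype.ext (Subtype.ext (cabA_mul β γ)), fun β k hk e => Subtype.ext ?_⟩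
  have hM : IsM N k β.1.1 := e ▸ MM_isM hk
  refine IsM.unique (k := if k = 0 then 0 else k + 2) ?_ (MM_isM (by split_ifs <;> omega))
  show IsM _ _ (cabA β)
  have hi : ∀ p, 1 ≤ p → k ≤ p → p < N → cabA β (io _ (p + 2)) =
      (io _ (N + 2))⁻¹ * io _ (p + 2) * io _ (N + 2) := fun p a b c => by
    rw [cabA_apply, cabE_hi β a, hM.2.1 p b c, map_mul, map_mul, map_inv, cabI_pos hN, cabI_pos a]
  have top : cabA β (io _ (N + 2)) = (io _ (N + 2))⁻¹ * (cabI N (bl _ k N))⁻¹ * io _ (N + 2) *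
      cabI N (bl _ k N) * io _ (N + 2) := by
    rw [cabA_apply, cabE_hi β hN, hM.2.2]
    simp only [map_mul, map_inv, cabI_pos hN]
  split_ifs with h0
  · subst h0
    have u : cabU β = (io _ N)⁻¹ := cab_uniq (cabU_spec β)
      ⟨by rw [hM.2.1 0 le_rfl hN, inv_inv], by rw [map_inv, cabD_pos hN, inv_one]⟩
    refine ⟨fun i h => absurd h (by omega), fun i _ b => ?_, by rw [top, cabI_bl0 hN]⟩
    by_cases h3 : i < 3
    · rw [cabA_apply, cabE_lo β h3, u, map_inv, cabI_pos hN, inv_inv]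
    · obtain ⟨p, rfl⟩ : ∃ p, i = p + 2 := ⟨i - 2, by omega⟩
      exact hi p (by omega) (by omega) (by omega)
  · have u : cabU β = 1 := cab_uniq (cabU_spec β)
      ⟨by rw [hM.1 0 (by omega)]; simp, map_one _⟩
    refine ⟨fun i h => ?_, fun i a b => ?_, by rw [top, cabI_bl (by omega) hk]⟩
    · by_cases h3 : i < 3
      · rw [cabA_apply, cabE_lo β h3, u]
        simp
      · obtain ⟨p, rfl⟩ : ∃ p, i = p + 2 := ⟨i - 2, by omega⟩
        rw [cabA_apply, cabE_hi β (by omega), hM.1 p (by omega), cabI_pos (by omega)]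
    · obtain ⟨p, rfl⟩ : ∃ p, i = p + 2 := ⟨i - 2, by omega⟩
      exact hi p (by omega) (by omega) (by omega)

end Pool.Agent.MH
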