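import Pool.Agent.Lib.MP_c86c76_al.Th.St
import Pool.Agent.Lib.MP_c86c76_al.Tg.Wl

/-!
Capping: an element that moves the last handles rigidly agrees, on the closed surface, with an
element that fixes them.
-/

set_option autoImplicit false

namespace Pool.Agent.MH

open Pool.Agent.MB Pool.Agent.MG Pool.Agent.MA Pool.Agent.MT
open Pool.Agent.MW hiding FH AFP
open Pool.Agent.MK (Fx Iot HL)
open Pool.Agent.ML (IsT inS)
open FreeGroup hiding map_mul map_inv map_one

theorem cap_top {N : ℕ} (S : Subgroup (FN N)) {n k : ℕ} (hk : n ≤ k)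
    (h : ∀ p, 2 * n ≤ p → p < 2 * k → io N p ∈ S) : ev N (rW k) * (ev N (rW n))⁻¹ ∈ S := by
  induction k, hk using Nat.le_induction with
  | base => rw [mul_inv_cancel]; exact one_mem _
  | succ k hk ih =>
    have h1 := h (2 * k) (by omega) (by omega)
    have h2 := h (2 * k + 1) (by omega) (by omega)
    rw [Wl_rW, mul_assoc]
    exact mul_mem (mul_mem (mul_mem (mul_mem h1 h2) (inv_mem h1)) (inv_mem h2))
      (ih fun p a b => h p a (by omega))

theorem cap_low {N : ℕ} (S : Subgroup (FN N)) (k : ℕ) (h : ∀ p, p < 2 * k → io N p ∈ S) :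
    ev N (rW k) ∈ S := by
  induction k with
  | zero =>
    have : ev N (rW 0) = 1 := by simp [rW, ev, gw, lift_mk]
    rw [this]; exact one_mem _
  | succ k ih =>
    have h1 := h (2 * k) (by omega)
    have h2 := h (2 * k + 1) (by omega)
    rw [Wl_rW]
    exact mul_mem (mul_mem (mul_mem (mul_mem h1 h2) (inv_mem h1)) (inv_mem h2))
      (ih fun p a => h p (by omega))

theorem cap_lift {N : ℕ} {G : Type} [Group G] (v : ℕ → G) {p : ℕ} (h : p < N) :
    (lift fun j : Fin N => v j) (io N p) = v p := by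
  rw [io, dif_pos h, lift_apply_of]

theorem cap_kap (g n : ℕ) (h : n < g) : ∃ κ : FN (2 * g) → FN (2 * g),
    (∀ x, ∀ y ∈ Ec g n, κ (x * y) = κ x * κ y) ∧ (∀ p, p < 2 * n → κ (io _ p) = io _ p) ∧
    κ (ev _ (rW g) * (ev _ (rW n))⁻¹) = (ev _ (rW n))⁻¹ := by
  obtain ⟨m, rfl⟩ : ∃ m, g = m + 1 := ⟨g - 1, by omega⟩
  let v : ℕ → Wr (FN (2 * (m + 1))) := fun p =>
    if p < 2 * n then ⟨1, fun s => if s = 1 then io _ p else 1⟩
    else if p = 2 * m then ⟨1, fun s => if s = 1 then (ev _ (rW n))⁻¹ else 1⟩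
    else if p = 2 * m + 1 then ⟨tau 0, fun _ => 1⟩ else 1
  let μ : FN (2 * (m + 1)) →* Wr (FN (2 * (m + 1))) := lift fun j : Fin (2 * (m + 1)) => v j
  have h0 : ∀ p, p < 2 * n → μ (io _ p) = ⟨1, fun s => if s = 1 then io _ p else 1⟩ :=
    fun p hp => (cap_lift v (by omega)).trans (if_pos hp)
  have h1 : μ (io _ (2 * m)) = ⟨1, fun s => if s = 1 then (ev _ (rW n))⁻¹ else 1⟩ :=
    (cap_lift v (by omega)).trans ((if_neg (by omega)).trans (if_pos rfl))
  have h2 : μ (io _ (2 * m + 1)) = ⟨tau 0, fun _ => 1⟩ :=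
    (cap_lift v (by omega)).trans
      ((if_neg (by omega)).trans ((if_neg (by omega)).trans (if_pos rfl)))
  have h3 : μ (ev _ (rW m) * (ev _ (rW n))⁻¹) = 1 :=
    cap_top μ.ker (by omega) fun p a b => (cap_lift v (by omega)).trans
      ((if_neg (by omega)).trans ((if_neg (by omega)).trans (if_neg (by omega))))
  have h4 : μ (ev _ (rW (m + 1)) * (ev _ (rW n))⁻¹) =
      μ (io _ (2 * m)) * μ (io _ (2 * m + 1)) * (μ (io _ (2 * m)))⁻¹ *
        (μ (io _ (2 * m + 1)))⁻¹ := by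
    rw [Wl_rW, mul_assoc, map_mul, h3, mul_one, map_mul, map_mul, map_mul, map_inv, map_inv]
  have ht : (tau 0)⁻¹ 1 = 2 := by decide
  have ht2 : tau 0 2 = 1 := by decide
  have hp : Ec (m + 1) n ≤ (Wr.pH.comp μ).ker := by
    refine (Subgroup.closure_le _).2 ?_
    rintro _ (rfl | ⟨p, hp, rfl⟩)
    · change (μ _).p = 1
      rw [h4, h1, h2]
      simp
    · change (μ _).p = 1
      rw [h0 p hp]
  refine ⟨fun y => (μ y).l 1, fun x y hy => ?_, fun p hp => ?_, ?_⟩
  · have : (μ y).p = 1 := hp hy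
    simp only [map_mul, Wr.mul_l, this, Equiv.Perm.coe_one, id]
  · simp only [h0 p hp, if_true]
  · simp only [h4, h1, h2]
    simp [ht, ht2]

theorem capSt (hA : AutSt) : CapSt := by
  rintro g n hn φ ⟨U, hU, hlo, hhi⟩
  obtain ⟨κ, k1, k2, k3⟩ := cap_kap g n hn
  have kone : κ 1 = 1 := by
    have := k1 1 1 (one_mem _)
    rw [mul_one] at this
    exact left_eq_mul.1 this
  have kinv : ∀ y ∈ Ec g n, κ y⁻¹ = (κ y)⁻¹ := fun y hy => by
    have := k1 y⁻¹ y hy
    rw [inv_mul_cancel, kone] at this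
    exact eq_inv_of_mul_eq_one_left this.symm
  have hI : ev _ (rW g) * (ev _ (rW n))⁻¹ ∈ Ec g n := Subgroup.subset_closure (Or.inl rfl)
  have hx : ∀ p, p < 2 * n → io (2 * g) p ∈ Ec g n := fun p hp =>
    Subgroup.subset_closure (Or.inr ⟨p, hp, rfl⟩)
  have hr : ev _ (rW n) ∈ Ec g n := cap_low _ n hx
  have kr : κ (ev _ (rW n)) = ev _ (rW n) :=
    (cap_low
      { carrier := {y | y ∈ Ec g n ∧ κ y = y}
        one_mem' := ⟨one_mem _, kone⟩
        mul_mem' := fun {a b} ha hb => ⟨mul_mem ha.1 hb.1, by rw [k1 a b hb.1, ha.2, hb.2]⟩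
        inv_mem' := fun {a} ha => ⟨inv_mem ha.1, by rw [kinv a ha.1, ha.2]⟩ }
      n fun p hp => ⟨hx p hp, k2 p hp⟩).2
  let π : FN (2 * g) →* OneRel (ev (2 * g) (rW g)) := QuotientGroup.mk' _
  have πr : π (ev _ (rW g)) = 1 :=
    (QuotientGroup.eq_one_iff _).2 (Subgroup.subset_normalClosure rfl)
  have kπ : ∀ y ∈ Ec g n, π (κ y) = π y := fun y hy => by
    induction hy using Subgroup.closure_induction with
    | mem y hy =>
      rcases hy with rfl | ⟨p, hp, rfl⟩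
      · rw [k3, map_mul, πr, one_mul]
      · rw [k2 p hp]
    | one => rw [kone]
    | mul a b ha hb iha ihb => rw [k1 a b hb, map_mul, map_mul, iha, ihb]
    | inv a ha iha => rw [kinv a ha, map_inv, map_inv, iha]
  let v : ℕ → FN (2 * g) := fun p =>
    if p < 2 * n then κ (U⁻¹ * φ.1 (io _ p) * U) else io _ p
  let f : FN (2 * g) →* FN (2 * g) := lift fun j : Fin (2 * g) => v j
  have f1 : ∀ p, p < 2 * n → f (io _ p) = κ (U⁻¹ * φ.1 (io _ p) * U) :=
    fun p hp => (cap_lift v (by omega)).trans (if_pos hp)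
  have f2 : ∀ p, 2 * n ≤ p → f (io _ p) = io _ p := fun p hp => by
    by_cases h : p < 2 * g
    · exact (cap_lift v h).trans (if_neg (by omega))
    · rw [io, dif_neg h, map_one]
  have cm : ∀ y ∈ Ec g n, U⁻¹ * y * U ∈ Ec g n := fun y hy =>
    mul_mem (mul_mem (inv_mem hU) hy) hU
  have f3 : f (ev _ (rW n)) = κ (U⁻¹ * φ.1 (ev _ (rW n)) * U) :=
    (cap_low
      { carrier := {y | φ.1 y ∈ Ec g n ∧ f y = κ (U⁻¹ * φ.1 y * U)}
        one_mem' := ⟨by rw [map_one]; exact one_mem _, by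
          rw [map_one, map_one, mul_one, inv_mul_cancel, kone]⟩
        mul_mem' := fun {a b} ha hb => ⟨by rw [map_mul]; exact mul_mem ha.1 hb.1, by
          rw [map_mul, map_mul, ha.2, hb.2, ← k1 _ _ (cm _ hb.1)]
          congr 1
          group⟩
        inv_mem' := fun {a} ha => ⟨by rw [map_inv]; exact inv_mem ha.1, by
          rw [map_inv, map_inv, ha.2, ← kinv _ (cm _ ha.1)]
          congr 1
          group⟩ }
      n fun p hp => ⟨hlo p hp, f1 p hp⟩).2
  have φI : φ.1 (ev _ (rW g) * (ev _ (rW n))⁻¹) = U * (ev _ (rW g) * (ev _ (rW n))⁻¹) * U⁻¹ :=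
    cap_top (φ.1.toMonoidHom.eqLocus (MulAut.conj U).toMonoidHom) hn.le fun p a _ => hhi p a
  have fI : f (ev _ (rW g) * (ev _ (rW n))⁻¹) = ev _ (rW g) * (ev _ (rW n))⁻¹ :=
    cap_top (f.eqLocus (MonoidHom.id _)) hn.le fun p a _ => f2 p a
  have φr : φ.1 (ev _ (rW g)) = ev _ (rW g) := φ.2
  have f4 : f (ev _ (rW n)) = ev _ (rW n) := by
    have e : U⁻¹ * φ.1 (ev _ (rW n)) * U = (ev _ (rW g) * (ev _ (rW n))⁻¹)⁻¹ *
        (U⁻¹ * ((ev _ (rW g) * (ev _ (rW n))⁻¹) * (ev _ (rW n) * U))) := by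
      rw [map_mul, map_inv, φr] at φI
      have : φ.1 (ev _ (rW n)) =
          (U * (ev _ (rW g) * (ev _ (rW n))⁻¹) * U⁻¹)⁻¹ * ev _ (rW g) := by
        rw [← φI]; group
      rw [this]; group
    have m1 := mul_mem hr hU
    have m2 := mul_mem hI m1
    have m3 := mul_mem (inv_mem hU) m2
    rw [f3, e, k1 _ _ m3, k1 _ _ m2, k1 _ _ m1, k1 _ _ hU, kinv _ hI, kinv _ hU, k3, kr]
    group
  have f5 : f (ev _ (rW g)) = ev _ (rW g) := by
    rw [map_mul, map_inv, f4] at fI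
    exact mul_right_cancel fI
  obtain ⟨θ, hθ⟩ := (hA g).1 f f5
  refine ⟨θ, ?_, ?_⟩
  · rintro _ ⟨p, hp, rfl⟩
    rw [hθ, f2 p hp]
  · have key : π.comp f = (MulAut.conj (π U)⁻¹).toMonoidHom.comp (π.comp φ.1.toMonoidHom) := by
      refine FreeGroup.ext_hom _ _ fun j => ?_
      have hj : of j = io (2 * g) j := by rw [io, dif_pos j.2]
      change π (f (of j)) = (π U)⁻¹ * π (φ.1 (of j)) * (π U)⁻¹⁻¹
      rw [hj]
      by_cases h : (j : ℕ) < 2 * n
      · rw [f1 _ h, kπ _ (cm _ (hlo _ h)), map_mul, map_mul, map_inv, inv_inv]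
      · rw [f2 _ (by omega), hhi _ (by omega), map_mul, map_mul, map_inv]
        group
    refine cls_eq (surfI g (π U)⁻¹) fun q => ?_
    obtain ⟨q, rfl⟩ := (surfI g).surjective q
    obtain ⟨w, rfl⟩ := QuotientGroup.mk_surjective q
    have e : ∀ ψ : St g, ((MulAut.congr (surfI g)).toMonoidHom.comp (ind (ev (2 * g) (rW g)))) ψ
        (surfI g (QuotientGroup.mk w)) = surfI g (π (ψ.1 w)) := fun ψ =>
      congrArg (fun z => surfI g (ind (ev (2 * g) (rW g)) ψ z))
        ((surfI g).symm_apply_apply (QuotientGroup.mk w))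
    rw [e, e, ← map_inv (surfI g), ← map_mul (surfI g), ← map_mul (surfI g), hθ]
    exact congrArg (surfI g) (DFunLike.congr_fun key w)

end Pool.Agent.MH
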