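import Pool.Agent.Lib.MP_c86c76_al.Th.St
import Pool.Agent.Lib.MP_c86c76_al.Tk.Wi

/-! The braid that puts the window in its place. -/

set_option autoImplicit false

namespace Pool.Agent.MH

open Pool.Agent.MB Pool.Agent.MG Pool.Agent.MA Pool.Agent.MT
open Pool.Agent.MW hiding FH AFP
open FreeGroup hiding map_mul map_inv map_one

theorem del_add (m : ℕ) {i j k : ℕ} (h1 : i ≤ j) (h2 : j ≤ k) : bl m i j * bl m j k = bl m i k := by
  induction k, h2 using Nat.le_induction with
  | base => rw [bl_self, mul_one]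
  | succ k hk ih => rw [bl_succ m hk, bl_succ m (h1.trans hk), ← mul_assoc, ih]

theorem del_map {m : ℕ} (f : FN m →* FN m) (u : FN m) {i i' j j' : ℕ} (t : ℕ) (hj : j = i + t)
    (hj' : j' = i' + t) (h : ∀ q, q < t → f (io m (i + q)) = u * io m (i' + q) * u⁻¹) :
    f (bl m i j) = u * bl m i' j' * u⁻¹ := by
  subst hj hj'
  induction t with
  | zero => simp [bl_self]
  | succ t ih =>
    rw [← add_assoc, ← add_assoc, bl_succ m (Nat.le_add_right _ _),
      bl_succ m (Nat.le_add_right _ _), map_mul, ih fun q hq => h q (by omega), h t (by omega)]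
    group

theorem del_mem {m i j k l : ℕ} (h1 : i ≤ k) (h2 : k ≤ l) (h3 : l ≤ j) : bl m k l ∈ EA m i j := by
  induction l, h2 using Nat.le_induction with
  | base => rw [bl_self]; exact one_mem _
  | succ l hl ih =>
    rw [bl_succ m hl]
    exact mul_mem (ih (by omega)) (Subgroup.subset_closure (Or.inr ⟨l, by omega, by omega, rfl⟩))

theorem del_mem0 {m i j l : ℕ} (h2 : i ≤ l) (h3 : l ≤ j) : bl m 0 l ∈ EA m i j := by
  rw [← del_add m (Nat.zero_le i) h2]
  exact mul_mem (Subgroup.subset_closure (Or.inl rfl)) (del_mem le_rfl h2 h3)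

theorem del_ext {m : ℕ} {f : FN m →* FN m} (h : ∀ p, p < m → f (io m p) = io m p) :
    f = MonoidHom.id _ :=
  FreeGroup.ext_hom _ _ fun j => by rw [lift_of, h j j.2, MonoidHom.id_apply]

theorem del_ex (m n k j : ℕ) (hn : 3 ≤ n) (hm : m = n + k) (hj : j = m) : ∃ δ ∈ Loc m 3 j,
    (∀ p, p < 3 → δ.1 (io m p) = (bl m 3 (3 + k))⁻¹ * io m p * bl m 3 (3 + k)) ∧
    (∀ p, 3 ≤ p → p < n → δ.1 (io m p) = io m (k + p)) ∧
    ∀ q, q < k → δ.1 (io m (n + q)) = (bl m 0 m)⁻¹ * bl m 3 (3 + k) * io m (3 + q) *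
      (bl m 3 (3 + k))⁻¹ * bl m 0 m := by
  subst j
  have eD : bl m 0 3 * bl m 3 (3 + k) * bl m (3 + k) m = bl m 0 m := by
    rw [del_add m (by omega) (by omega), del_add m (by omega) (by omega)]
  have eX : bl m 0 3 * bl m 3 n = bl m 0 n := del_add m (by omega) hn
  have eW : bl m 0 n * bl m n m = bl m 0 m := del_add m (by omega) (by omega)
  have mY : bl m 3 (3 + k) ∈ EA m 3 m := del_mem le_rfl (by omega) (by omega)
  have mW : bl m n m ∈ EA m 3 m := del_mem hn (by omega) le_rfl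
  have mD : bl m 0 m ∈ EA m 3 m := del_mem0 (by omega) le_rfl
  have mX : bl m 0 n ∈ EA m 3 m := del_mem0 hn (by omega)
  obtain ⟨F, F1, F2, F3⟩ : ∃ F : FN m →* FN m,
      (∀ p, p < 3 → F (io m p) = (bl m 3 (3 + k))⁻¹ * io m p * (bl m 3 (3 + k))⁻¹⁻¹) ∧
      (∀ p, 3 ≤ p → p < n → F (io m p) = io m (k + p)) ∧
      ∀ q, q < k → F (io m (n + q)) = (bl m 0 m)⁻¹ * bl m 3 (3 + k) * io m (3 + q) *
        ((bl m 0 m)⁻¹ * bl m 3 (3 + k))⁻¹ := by
    refine ⟨lift fun j => if (j : ℕ) < 3 then (bl m 3 (3 + k))⁻¹ * io m j * (bl m 3 (3 + k))⁻¹⁻¹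
      else if (j : ℕ) < n then io m (k + j) else (bl m 0 m)⁻¹ * bl m 3 (3 + k) *
        io m (3 + (j - n)) * ((bl m 0 m)⁻¹ * bl m 3 (3 + k))⁻¹,
      fun p hp => ?_, fun p h1 h2 => ?_, fun q hq => ?_⟩
    · rw [lift_io _ (by omega), if_pos hp]
    · rw [lift_io _ (by omega), if_neg (by simp only; omega), if_pos h2]
    · rw [lift_io _ (by omega), if_neg (by simp only; omega), if_neg (by simp only; omega),
        Nat.add_sub_cancel_left]
  obtain ⟨G, G1, G2, G3⟩ : ∃ G : FN m →* FN m,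
      (∀ p, p < 3 → G (io m p) = bl m 0 n * bl m n m * (bl m 0 n)⁻¹ * io m p *
        (bl m 0 n * bl m n m * (bl m 0 n)⁻¹)⁻¹) ∧
      (∀ q, q < k → G (io m (3 + q)) = bl m 0 n * io m (n + q) * (bl m 0 n)⁻¹) ∧
      ∀ p, 3 ≤ p → p < n → G (io m (k + p)) = io m p := by
    refine ⟨lift fun j => if (j : ℕ) < 3 then bl m 0 n * bl m n m * (bl m 0 n)⁻¹ * io m j *
        (bl m 0 n * bl m n m * (bl m 0 n)⁻¹)⁻¹
      else if (j : ℕ) < 3 + k then bl m 0 n * io m (n + (j - 3)) * (bl m 0 n)⁻¹ else io m (j - k),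
      fun p hp => ?_, fun q hq => ?_, fun p h1 h2 => ?_⟩
    · rw [lift_io _ (by omega), if_pos hp]
    · rw [lift_io _ (by omega), if_neg (by simp only; omega), if_pos (by simp only; omega),
        Nat.add_sub_cancel_left]
    · rw [lift_io _ (by omega), if_neg (by simp only; omega), if_neg (by simp only; omega),
        Nat.add_sub_cancel_left]
  have FA := bl_conj F (MonoidHom.id _) _ F1
  have FB : F (bl m 3 n) = 1 * bl m (3 + k) m * 1⁻¹ :=
    del_map F 1 (n - 3) (by omega) (by omega) fun q hq => by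
      rw [F2 _ (by omega) (by omega), one_mul, inv_one, mul_one, show k + (3 + q) = 3 + k + q by omega]
  have FW := del_map F _ k hm rfl F3
  have FX : F (bl m 0 n) = (bl m 3 (3 + k))⁻¹ * bl m 0 m := by
    rw [← eX, map_mul, FA, FB, ← eD, MonoidHom.id_apply]
    group
  have FD : F (bl m 0 m) = bl m 0 m := by
    conv_lhs => rw [← eW, map_mul, FX, FW]
    group
  have GA := bl_conj G (MonoidHom.id _) _ G1
  have GY := del_map G _ k rfl hm G2
  have GZ : G (bl m (3 + k) m) = 1 * bl m 3 n * 1⁻¹ :=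
    del_map G 1 (n - 3) (by omega) (by omega) fun q hq => by
      rw [show 3 + k + q = k + (3 + q) by omega, G3 _ (by omega) (by omega), one_mul, inv_one,
        mul_one]
  have GD : G (bl m 0 m) = bl m 0 n * bl m n m := by
    rw [← eD, map_mul, map_mul, GA, GY, GZ, MonoidHom.id_apply, ← eX]
    group
  have GF : G.comp F = MonoidHom.id _ := del_ext fun p hp => by
    rw [MonoidHom.comp_apply]
    rcases lt_or_ge p 3 with h1 | h1
    · simp only [F1 p h1, map_mul, map_inv, GY, G1 p h1]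
      group
    rcases lt_or_ge p n with h2 | h2
    · rw [F2 p h1 h2, G3 p h1 h2]
    · obtain ⟨q, rfl⟩ := Nat.exists_eq_add_of_le h2
      simp only [F3 q (by omega), map_mul, map_inv, GY, GD, G2 q (by omega)]
      group
  have FG : F.comp G = MonoidHom.id _ := del_ext fun p hp => by
    rw [MonoidHom.comp_apply]
    rcases lt_or_ge p 3 with h1 | h1
    · simp only [G1 p h1, map_mul, map_inv, FX, FW, F1 p h1]
      group
    rcases lt_or_ge p (3 + k) with h2 | h2
    · obtain ⟨q, rfl⟩ := Nat.exists_eq_add_of_le h1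
      simp only [G2 q (by omega), map_mul, map_inv, FX, F3 q (by omega)]
      group
    · obtain ⟨q, rfl⟩ : ∃ q, p = k + q := ⟨p - k, by omega⟩
      rw [G3 q (by omega) (by omega), F2 q (by omega) (by omega)]
  have top : ∀ (β : MulAut (FN m)) p, m ≤ p → β (io m p) = io m p := fun β p hp => by
    rw [io, dif_neg (by omega), map_one]
  have L1 : Loc0 m 3 m (F.toMulEquiv G GF FG) _ := ⟨inv_mem mY, F1, fun p h1 h2 => by
    rcases lt_or_ge p n with h3 | h3
    · exact ⟨k + p, 1, by omega, by omega, one_mem _, (F2 p h1 h3).trans (by simp)⟩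
    · obtain ⟨q, rfl⟩ := Nat.exists_eq_add_of_le h3
      exact ⟨3 + q, _, by omega, by omega, mul_mem (inv_mem mD) mY, F3 q (by omega)⟩, top _⟩
  have L2 : Loc0 m 3 m (F.toMulEquiv G GF FG : MulAut (FN m))⁻¹ _ :=
    ⟨mul_mem (mul_mem mX mW) (inv_mem mX), G1, fun p h1 h2 => by
      rcases lt_or_ge p (3 + k) with h3 | h3
      · obtain ⟨q, rfl⟩ := Nat.exists_eq_add_of_le h1
        exact ⟨n + q, _, by omega, by omega, mX, G2 q (by omega)⟩
      · obtain ⟨q, rfl⟩ : ∃ q, p = k + q := ⟨p - k, by omega⟩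
        exact ⟨q, 1, by omega, by omega, one_mem _,
          (G3 q (by omega) (by omega)).trans (by simp)⟩, top _⟩
  refine ⟨⟨F.toMulEquiv G GF FG, FD, MK.rs_perm _ fun j => ?_⟩, ⟨⟨_, L1⟩, _, L2⟩,
    fun p hp => (F1 p hp).trans (by rw [inv_inv]), F2, fun q hq => (F3 q hq).trans (by group)⟩
  by_cases e : (j : ℕ) < 3
  · exact ⟨j, isConj_iff.2 ⟨_, by rw [lift_of, L1.2.1 j e]⟩⟩
  · obtain ⟨q, w, -, d, -, e1⟩ := L1.2.2.1 j (by omega) j.2
    exact ⟨⟨q, d⟩, isConj_iff.2 ⟨w, by rw [lift_of, lift_of, e1]⟩⟩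

theorem del_io {m p : ℕ} (h : p < m) : p0 m (io m p) = tau (if p + 1 < m then 0 else 2) :=
  lift_io _ h

theorem del_even {m i : ℕ} (t : ℕ) (h : i + 2 * t < m) : p0 m (bl m i (i + 2 * t)) = 1 := by
  induction t with
  | zero => simp [bl_self]
  | succ t ih =>
    rw [show i + 2 * (t + 1) = i + 2 * t + 1 + 1 by ring, bl_succ m (by omega),
      bl_succ m (by omega), map_mul, map_mul, ih (by omega), del_io (by omega), del_io (by omega),
      if_pos (by omega), if_pos (by omega)]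
    decide

theorem delSt : DelSt := by
  intro h a l e
  obtain ⟨δ, h0, h1, h2, h3⟩ := del_ex (2 * h + 3 + 1) (2 * a + 12) (2 * l) (3 + 2 * h + 1)
    (by omega) (by omega) (by omega)
  refine ⟨δ, h0, ⟨h1, h2, h3⟩, fun p hp => ?_⟩
  have pY := del_even (m := 2 * h + 3 + 1) (i := 3) l (by omega)
  have pD : p0 _ (bl (2 * h + 3 + 1) 0 (2 * h + 3 + 1)) = cyc := by
    have := del_even (m := 2 * h + 3 + 1) (i := 0) (h + 1) (by omega)
    rw [show 0 + 2 * (h + 1) = 2 * h + 2 by ring] at this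
    rw [bl_succ _ (Nat.zero_le _), bl_succ _ (Nat.zero_le (2 * h + 2)), map_mul, map_mul, this,
      del_io (by omega), del_io (by omega), if_pos (by omega), if_neg (by omega), one_mul, cyc]
  change p0 _ (δ.1 _) = _
  rcases lt_or_ge p 3 with a1 | a1
  · rw [h1 p a1, map_mul, map_mul, map_inv, pY, del_io hp, if_pos (by omega), cw,
      if_pos (by omega), inv_one, one_mul, mul_one]
  rcases lt_or_ge p (2 * a + 12) with a2 | a2
  · rw [h2 p a1 a2, del_io (by omega), cw]
    rcases lt_or_ge p (2 * a + 11) with a3 | a3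
    · rw [if_pos (by omega), if_pos a3]
    · rw [if_neg (by omega), if_neg (by omega), if_pos (by omega)]
  · obtain ⟨q, rfl⟩ := Nat.exists_eq_add_of_le a2
    rw [h3 q (by omega), map_mul, map_mul, map_mul, map_mul, map_inv, map_inv, pY, pD,
      del_io (by omega), if_pos (by omega), cw, if_neg (by omega), if_neg (by omega)]
    decide

end Pool.Agent.MH
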