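import Pool.Agent.Lib.MP_c86c76_al.Th.St
import Pool.Agent.Lib.MP_c86c76_al.Tk.Zed
import Pool.Agent.Lib.MP_c86c76_al.Tg.Ed
import Pool.Agent.Lib.MP_c86c76_al.Tg.Lca

/-!
The lifts of the braids of a small annulus have a common fixed point.
-/

set_option autoImplicit false

namespace Pool.Agent.MH

open Pool.Agent.MB Pool.Agent.MG Pool.Agent.MA Pool.Agent.MT
open Pool.Agent.MW hiding FH AFP
open Pool.Agent.MK (Fx Iot HL)
open Pool.Agent.ML (IsT inS)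
open FreeGroup hiding map_mul map_inv map_one

theorem el_ext {m : ℕ} {π π' : FN m →* Equiv.Perm (Fin 3)} {d : ℕ → Fin 3} (a : Tp π d)
    (b : Tp π' d) : π = π' := FreeGroup.ext_hom _ _ fun j => by
  rw [lift_of, a j j.2, b j j.2]

theorem el_low {m p : ℕ} (hp : p + 1 < m) : p0 m (io m p) = tau 0 := by
  rw [p0, lift_io _ (by omega), if_pos hp]

theorem el_bl {m : ℕ} (hm : 3 < m) : p0 m (bl m 0 3) = tau 0 := by
  rw [bl_succ m (by omega), bl_succ m (by omega), bl_succ m le_rfl, bl_self, map_mul, map_mul,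
    map_mul, map_one, el_low (by omega), el_low (by omega), el_low (by omega)]
  decide

theorem el_lift (hL : LSt) {h : ℕ} {ζ : BL (2 * h + 3 + 1)} (hζ : ζ ∈ Bh h)
    (hp : (p0 _).comp ζ.1.toMonoidHom = p0 _) :
    ∃ ζ' ∈ Bh h, ∃ η, L h ζ' η ∧ ∀ β ∈ Bh h, ζ' * β * ζ'⁻¹ = ζ * β * ζ⁻¹ := by
  obtain ⟨u, hu⟩ := hζ.1
  have e : p0 _ (ζ.1 (io _ 0)) = p0 _ (io _ 0) := DFunLike.congr_fun hp _
  rw [hu.2.1 0 (by omega), map_mul, map_mul, map_inv, el_low (by omega)] at e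
  rcases ((edSt PUnit).2.2.2.2.2 0 0).2.2 _ e with e | e
  · obtain ⟨η, hη⟩ := (hL h).2.2.1 ζ hζ u hu e hp
    exact ⟨ζ, hζ, η, hη, fun _ _ => rfl⟩
  · obtain ⟨z1, z2, z3, -⟩ := MK.zedSt (2 * h + 3 + 1)
    obtain ⟨Z, hz⟩ := z1 3 (by omega)
    obtain ⟨a1, a2⟩ := z2 3 (3 + 2 * h + 1) 3 Z le_rfl (by omega) (by omega) hz
    have a3 := a2 1
    rw [pow_one, pow_one] at a3
    have a4 : (p0 _).comp Z.1.toMonoidHom = p0 _ := FreeGroup.ext_hom _ _ fun j => by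
      rw [lift_of]
      change p0 _ (Z.1 _) = _
      by_cases c : (j : ℕ) < 3
      · rw [hz.1 j c, map_mul, map_mul, map_inv, el_bl (by omega), el_low (by omega)]
        decide
      · rw [hz.2 j (by omega)]
    have a5 : ∀ x, p0 _ (Z.1 x) = p0 _ x := DFunLike.congr_fun a4
    obtain ⟨η, hη⟩ := (hL h).2.2.1 (Z * ζ) (mul_mem a1 hζ) _ (a3.mul hu) (by
      rw [map_mul, a5, e, el_bl (by omega)]
      decide) (MonoidHom.ext fun x => (a5 _).trans (DFunLike.congr_fun hp x))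
    refine ⟨Z * ζ, mul_mem a1 hζ, η, hη, fun β hβ => ?_⟩
    have c := z3 3 (3 + 2 * h + 1) 3 Z (ζ * β * ζ⁻¹) le_rfl (by omega) (by omega) hz
      (Or.inr (Or.inl (mul_mem (mul_mem hζ hβ) (inv_mem hζ))))
    rw [show Z * ζ * β * (Z * ζ)⁻¹ = Z * (ζ * β * ζ⁻¹) * Z⁻¹ by group, c.eq,
      mul_inv_cancel_right]

theorem elSt (hE : ExSt) (hL : LSt) (hN : NfSt) (hD : DelSt) (hP : PlSt) (hT : ThSt) : ElSt := by
  intro hF h k j h4 k3 kj jk jm H _ _ _ α γ hγ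
  obtain ⟨a, l, e, γ', m', t', c'⟩ := hN h k j h4 k3 kj jk jm γ hγ
  obtain ⟨δ, mδ, dδ, tδ⟩ := hD h a l e
  obtain ⟨ζ, mζ, η, lη, cζ⟩ := el_lift hL (ζ := γ * γ' * δ⁻¹)
    (mul_mem (mul_mem hγ m') (inv_mem mδ)) (MonoidHom.ext fun x =>
      (DFunLike.congr_fun (el_ext t' tδ) (δ.1⁻¹ x)).trans
        (congrArg (p0 _) (MulAut.apply_inv_self _ δ.1 x)))
  obtain ⟨θ, hθ⟩ := hT h a l 5 (by omega) (by omega)
  obtain ⟨ε, hε, -⟩ := hE 5 (h + 1) (by omega)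
  obtain ⟨x, hx⟩ := hF H (α.comp ε)
  refine ⟨α (inS h η * θ) x, fun β hβ φ hφ => ?_⟩
  have b1 := c' β hβ
  have b2 : γ'⁻¹ * β * γ' ∈ Bh h :=
    (lcaSt _ (2 * a + 3) (2 * a + 12) (by omega) (by omega)).1 3 _ (by omega) (by omega) b1
  have b3 := cζ _ (mul_mem (mul_mem mδ b2) (inv_mem mδ))
  have b4 : δ * (γ'⁻¹ * β * γ') * δ⁻¹ = ζ⁻¹ * (γ * β * γ⁻¹) * ζ := by
    rw [show γ * β * γ⁻¹ = γ * γ' * δ⁻¹ * (δ * (γ'⁻¹ * β * γ') * δ⁻¹) * (γ * γ' * δ⁻¹)⁻¹ by group,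
      ← b3]
    group
  obtain ⟨-, -, -, -, -, l6, l7, -⟩ := hL h
  have b5 := l6 _ _ _ _ (l6 _ _ _ _ (l7 ζ mζ η lη) hφ) lη
  rw [← b4] at b5
  obtain ⟨y, hy⟩ := hε _ (hθ (inS h (η⁻¹ * φ * η)) (hP h a l e δ mδ dδ _ b1 _ b5))
  have b6 : inS h φ * (inS h η * θ) = (inS h η * θ) * ε y := by
    rw [hy, map_mul, map_mul, map_inv]
    group
  have b7 : α (ε y) x = x := hx y
  calc α (inS h φ) (α (inS h η * θ) x) = α (inS h φ * (inS h η * θ)) x := by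
        rw [map_mul α (inS h φ)]; rfl
    _ = α (inS h η * θ) (α (ε y) x) := by rw [b6, map_mul α _ (ε y)]; rfl
    _ = _ := by rw [b7]

end Pool.Agent.MH
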