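import Pool.Agent.Lib.MP_c86c76_al.Th.St
import Pool.Agent.Lib.MP_c86c76_al.Tg.Wl
import Pool.Agent.Lib.MP_c86c76_al.Tg.Ed
import Pool.Agent.Lib.MP_c86c76_al.Tg.Un

/-!
The inner part of the standard system is a block of handles.
-/

set_option autoImplicit false

namespace Pool.Agent.MH

open Pool.Agent.MB Pool.Agent.MG Pool.Agent.MA Pool.Agent.MT
open Pool.Agent.MW hiding FH AFP
open Pool.Agent.MK (Fx Iot HL)
open Pool.Agent.ML (IsT inS)
open FreeGroup hiding map_mul map_inv map_one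

section Alt

variable {G G' : Type} [Group G] [Group G']

theorem inb_app (k : ℕ) : ∀ (L L' : List G) (e : Bool), L.length = 2 * k →
    alt e (L ++ L') = alt e L * alt e L' := by
  induction k with
  | zero => intro L L' e h; rw [List.length_eq_zero_iff.1 h]; simp [alt]
  | succ k ih =>
    rintro (_ | ⟨x, _ | ⟨y, t⟩⟩) L' e h
    · simp at h
    · simp at h; omega
    · simp only [List.cons_append, alt, Bool.not_not, mul_assoc]
      rw [ih t L' e (by simp at h; omega)]

theorem inb_mul (P Q : G) (k : ℕ) : ∀ L : List G, L.length = 2 * k →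
    alt true (L.map fun x => P * x * Q) = P * alt true L * P⁻¹ ∧
      alt false (L.map fun x => P * x * Q) = Q⁻¹ * alt false L * Q := by
  induction k with
  | zero => intro L h; rw [List.length_eq_zero_iff.1 h]; simp [alt]
  | succ k ih =>
    rintro (_ | ⟨x, _ | ⟨y, t⟩⟩) h
    · simp at h
    · simp at h; omega
    · obtain ⟨h1, h2⟩ := ih t (by simp at h; omega)
      simp only [List.map_cons, alt, Bool.not_true, Bool.not_false, cond_true, cond_false, h1, h2]
      constructor <;> group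

theorem inb_inv : ∀ (L : List G) (e : Bool), alt e (L.map fun x => x⁻¹) = alt (!e) L
  | [], _ => by simp [alt]
  | x :: t, e => by
    simp only [List.map_cons, alt, inb_inv t]
    cases e <;> simp

theorem inb_hom (f : MulAut G) : ∀ (L : List G) (e : Bool), f (alt e L) = alt e (L.map f)
  | [], _ => by simp [alt]
  | x :: t, e => by
    simp only [List.map_cons, alt, map_mul, inb_hom f t]
    cases e <;> simp

theorem inb_l0 {α : Type} (v : ℕ → α) (n : ℕ) :
    ((List.range (2 * n + 1)).map fun p => v (2 * n - p)) =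
      v (2 * n) :: (List.range (2 * n)).map fun j => v (2 * n - 1 - j) := by
  rw [List.range_succ_eq_map, List.map_cons, List.map_map]
  refine congrArg₂ _ rfl (List.map_congr_left fun p _ => ?_)
  simp only [Function.comp_apply]
  congr 1
  omega

theorem inb_l1 {α : Type} (v : ℕ → α) (a n : ℕ) :
    ((List.range (2 * (a + n) + 1)).map fun p => v (2 * (a + n) - p)) =
      v (2 * (a + n)) :: (((List.range (2 * a)).map fun p => v (2 * (a + n) - 1 - p)) ++
        (List.range (2 * n)).map fun j => v (2 * n - 1 - j)) := by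
  rw [inb_l0, mul_add, List.range_add, List.map_append, List.map_map]
  refine congrArg₂ _ rfl (congrArg₂ _ rfl (List.map_congr_left fun p _ => ?_))
  simp only [Function.comp_apply]
  congr 1
  omega

theorem inb_l2 {α : Type} (v : ℕ → α) (a n : ℕ) :
    ((List.range (2 * (a + n) + 1)).map fun p => v (2 * (a + n) - p)) =
      ((List.range (2 * a)).map fun p => v (2 * (a + n) - p)) ++
        v (2 * n) :: (List.range (2 * n)).map fun j => v (2 * n - 1 - j) := by
  rw [← inb_l0, show 2 * (a + n) + 1 = 2 * a + (2 * n + 1) by ring, List.range_add,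
    List.map_append, List.map_map]
  refine congrArg₂ _ rfl (List.map_congr_left fun p _ => ?_)
  simp only [Function.comp_apply]
  congr 1
  omega

end Alt

theorem inb_be (m a n : ℕ) : ∀ d i, i + d = n → be m (a + n) i = be m n i * be m (a + n) n := by
  intro d
  induction d with
  | zero => rintro i rfl; rw [add_zero, Wl_be_self, one_mul]
  | succ d ih =>
    intro i h
    rw [Wl_be (show i < a + n by omega), Wl_be (show i < n by omega), ih (i + 1) (by omega),
      mul_assoc]

theorem inb_wl (m a n j : ℕ) (hj : j ≤ 2 * n) :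
    wl m (a + n) j = wl m n j * be m (a + n) n := by
  rcases Wl_cases j with rfl | ⟨i, rfl⟩ | ⟨i, rfl⟩
  · rw [Wl_zero, Wl_zero, inb_be m a n n 0 (by omega)]
  · rw [Wl_odd, Wl_odd, inb_be m a n (n - (i + 1)) _ (by omega), mul_assoc _ (be m n _)]
  · rw [Wl_even, Wl_even, inb_be m a n (n - (i + 1)) _ (by omega), mul_assoc]

theorem inb_bem {m n : ℕ} {K : Subgroup (FN m)} (h : ∀ i, i < n → io m (2 * i + 1) ∈ K) (i : ℕ) :
    be m n i ∈ K := by
  refine K.list_prod_mem fun x hx => ?_
  obtain ⟨j, hj, rfl⟩ := List.mem_map.1 hx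
  have := List.mem_range'_1.1 hj
  exact h j (by omega)

theorem inb_gen {m n : ℕ} {K : Subgroup (FN m)} :
    (∀ j, j ≤ 2 * n → wl m n j ∈ K) ↔ ∀ p, p < 2 * n → io m p ∈ K := by
  constructor
  · intro h
    have hb : ∀ i, i < n → io m (2 * i + 1) ∈ K := fun i hi => by
      have : io m (2 * i + 1) = wl m n (2 * i + 1) * (wl m n (2 * i + 2))⁻¹ := by
        rw [Wl_odd, Wl_even]
        group
      rw [this]
      exact K.mul_mem (h _ (by omega)) (K.inv_mem (h _ (by omega)))
    intro p hp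
    rcases Nat.mod_two_eq_zero_or_one p with h' | h'
    · have : io m (2 * (p / 2)) = be m n (p / 2 + 1) * (wl m n (2 * (p / 2) + 2))⁻¹ := by
        rw [Wl_even]
        group
      rw [show p = 2 * (p / 2) by omega, this]
      exact K.mul_mem (inb_bem hb _) (K.inv_mem (h _ (by omega)))
    · rw [show p = 2 * (p / 2) + 1 by omega]
      exact hb _ (by omega)
  · intro h j hj
    have hb := inb_bem (n := n) fun i hi => h (2 * i + 1) (by omega)
    rcases Wl_cases j with rfl | ⟨i, rfl⟩ | ⟨i, rfl⟩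
    · rw [Wl_zero]; exact hb _
    · rw [Wl_odd]
      exact K.mul_mem (K.mul_mem (h _ (by omega)) (K.inv_mem (h _ (by omega)))) (hb _)
    · rw [Wl_even]
      exact K.mul_mem (K.inv_mem (h _ (by omega))) (hb _)

theorem inbSt (hA : AutSt) : InbSt := by
  rintro _ a n rfl
  obtain ⟨W, hW⟩ : ∃ W, W = wl (2 * (a + n)) (a + n) := ⟨_, rfl⟩
  obtain ⟨gs, hg⟩ : ∃ gs, gs = (List.range (2 * a)).map fun p => W (2 * (a + n) - 1 - p) := ⟨_, rfl⟩
  obtain ⟨vs, hv⟩ : ∃ vs, vs = (List.range (2 * n)).map fun j => W (2 * n - 1 - j) := ⟨_, rfl⟩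
  have lg : gs.length = 2 * a := by simp [hg]
  have lv : vs.length = 2 * n := by simp [hv]
  obtain ⟨s1, s2⟩ := (wlSt (2 * (a + n)) (a + n) le_rfl).1
  rw [← hW, inb_l1, ← hg, ← hv] at s1 s2
  simp only [alt, Bool.not_true, Bool.not_false, cond_true, cond_false, inb_app a _ _ _ lg] at s1 s2
  obtain ⟨w, hw⟩ : ∃ w, w = W (2 * (a + n)) := ⟨_, rfl⟩
  rw [← hw] at s1 s2
  obtain ⟨m1, m2⟩ := inb_mul w⁻¹ 1 a gs lg
  obtain ⟨m3, m4⟩ := inb_mul 1 (alt false gs)⁻¹ n vs lv
  have s3 : alt false vs = (w * alt false gs)⁻¹ :=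
    eq_inv_of_mul_eq_one_right (by rw [mul_assoc, s1])
  obtain ⟨θ, hθ⟩ := (hA (a + n)).2.1 (((gs.map fun x => w⁻¹ * x * 1).map fun x => x⁻¹) ++
      w :: vs.map fun x => 1 * x * (alt false gs)⁻¹) (by simp [lg, lv]; ring)
    (by rw [inb_app a _ _ _ (by simp [lg]), inb_inv]
        simp only [alt, Bool.not_true, cond_true, m2, m4, s3]
        group)
    (by rw [inb_app a _ _ _ (by simp [lg]), inb_inv]
        simp only [alt, Bool.not_false, cond_false, m1, m3, ← s2]
        group)
  rw [← hW, inb_l2 fun j => θ.1 (W j)] at hθ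
  obtain ⟨e1, e2⟩ := List.append_inj hθ (by simp [lg])
  obtain ⟨e2, e3⟩ := List.cons_eq_cons.1 e2
  have e4 : vs.map θ.1 = vs.map fun x => 1 * x * (alt false gs)⁻¹ := by
    rw [← e3, hv, List.map_map]; rfl
  rw [hg, List.map_map, List.map_map] at e1
  obtain ⟨t1, t2⟩ := Wl_tel (2 * (a + n)) (a + n) n (by omega)
  rw [← hW, inb_l0, ← hv] at t1 t2
  replace t1 := congrArg θ.1 t1
  replace t2 := congrArg θ.1 t2
  rw [inb_hom, List.map_cons, e2, e4] at t1 t2
  simp only [alt, Bool.not_true, Bool.not_false, cond_true, cond_false, m3, m4, s3] at t1 t2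
  have t3 : θ.1 (be _ (a + n) n) = (alt false gs)⁻¹ := by rw [← t1]; group
  have t4 : ∀ j, j ≤ 2 * n → θ.1 (wl _ n j) = θ.1 (W j) * alt false gs := fun j hj => by
    rw [hW, inb_wl _ a n j hj, map_mul, t3, inv_mul_cancel_right]
  have t5 : ∀ j, j < 2 * n → θ.1 (wl _ n j) = W j := fun j hj => by
    have h := List.map_inj_left.1 e4 (W j) (hv ▸ List.mem_map.2
      ⟨2 * n - 1 - j, List.mem_range.2 (by omega), congrArg W (by omega)⟩)
    rw [t4 j hj.le, h, one_mul, inv_mul_cancel_right]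
  have t6 : θ.1 (wl _ n (2 * n)) = w * alt false gs := by rw [t4 _ le_rfl, e2]
  have t7 : θ.1 (ev _ (rW (a + n)) * (ev _ (rW n))⁻¹ * (wl _ n (2 * n))⁻¹) = w⁻¹ * alt true gs := by
    have h : θ.1 (ev _ (rW (a + n))) = ev _ (rW (a + n)) := θ.2
    rw [map_mul, map_inv, t3, inv_inv, ← inv_mul_eq_iff_eq_mul] at t2
    rw [map_mul, map_mul, map_inv, map_inv, h, t6, ← t2, ← s2]
    group
  have hb : rho0 (a + n) (bl _ 0 (2 * a + 1)) =
      ⟨tau 0, ![1, w * alt false gs, w⁻¹ * alt true gs]⟩ := by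
    have h := ed_prod (w :: gs)
    rw [if_pos (by simp [lg])] at h
    refine Eq.trans ?_ h
    rw [bl, map_list_prod, List.map_map, Nat.sub_zero, ← List.range_eq_range',
      List.range_succ_eq_map, List.map_cons, List.map_cons, List.map_map, hg, List.map_map, hw, hW]
    refine congrArg _ (congrArg₂ _ (Un_r0 (Nat.zero_le _)) (List.map_congr_left fun p hp => ?_))
    have := List.mem_range.1 hp
    refine (Un_r0 (j := p + 1) (by omega)).trans ?_
    simp only [Function.comp_apply]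
    congr 2
    omega
  have hE : ∀ j, j ≤ 2 * n → wl _ n j ∈ Ec (a + n) n :=
    inb_gen.2 fun p hp => Subgroup.subset_closure (Or.inr ⟨p, hp, rfl⟩)
  have hLE : ∀ y ∈ Lab (rho0 (a + n)) (2 * a + 1), θ.1⁻¹ y ∈ Ec (a + n) n := by
    have k1 : ∀ x y, x ∈ Ec (a + n) n → θ.1 x = y → y ∈ (Ec (a + n) n).comap θ.1⁻¹.toMonoidHom :=
      fun x y hx e => by
        show θ.1⁻¹ y ∈ Ec (a + n) n
        rwa [← e, MulAut.inv_apply_self]
    show Lab _ _ ≤ (Ec (a + n) n).comap θ.1⁻¹.toMonoidHom
    refine (Subgroup.closure_le _).2 ?_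
    rintro _ ⟨x, hx, t, rfl⟩
    induction hx using Subgroup.closure_induction generalizing t with
    | mem x hx =>
      rcases hx with rfl | ⟨p, h1, h2, rfl⟩
      · rw [hb]
        fin_cases t
        · exact one_mem _
        · exact k1 _ _ (hE _ le_rfl) t6
        · exact k1 _ _ (mul_mem (Subgroup.subset_closure (Or.inl rfl)) (inv_mem (hE _ le_rfl))) t7
      · by_cases hp : p ≤ 2 * (a + n)
        · have h3 := k1 _ _ (hE _ (by omega)) (t5 (2 * (a + n) - p) (by omega))
          rw [Un_r0 hp, ← hW]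
          simp only [Ed]
          split_ifs
          exacts [h3, inv_mem h3, one_mem _]
        · rw [show p = 2 * (a + n) + 1 by omega, Un_r1]
          simp only [Ed, inv_one, ite_self]
          exact one_mem _
    | one => rw [map_one]; exact one_mem _
    | mul x y _ _ hx hy => rw [map_mul]; exact mul_mem (hx _) (hy _)
    | inv x _ hx => rw [map_inv]; exact inv_mem (hx _)
  have hEL : ∀ p, p < 2 * n → θ.1 (io _ p) ∈ Lab (rho0 (a + n)) (2 * a + 1) := by
    refine (inb_gen (K := (Lab (rho0 (a + n)) (2 * a + 1)).comap θ.1.toMonoidHom)).1 fun j hj => ?_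
    show θ.1 (wl _ n j) ∈ Lab (rho0 (a + n)) (2 * a + 1)
    rcases hj.eq_or_lt with rfl | hj
    · rw [t6]
      exact Subgroup.subset_closure ⟨_, Subgroup.subset_closure (Or.inl rfl), 1, by rw [hb]; rfl⟩
    · rw [t5 j hj]
      refine Subgroup.subset_closure ⟨_, Subgroup.subset_closure
        (Or.inr ⟨2 * (a + n) - j, by omega, by omega, rfl⟩), 0 + 1, ?_⟩
      rw [Un_r0 (by omega), ed_l1, hW]
      congr 1
      omega
  refine ⟨θ, fun φ ⟨V, v1, v2, v3, v4⟩ => ⟨θ.1⁻¹ (V.l 1), hLE _ (v2 1),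
    fun p hp => hLE _ (v4 _ (hEL p hp)), ?_⟩⟩
  have v5 : ∀ p, p < 2 * a + 1 →
      φ.1 (W (2 * (a + n) - p)) = V.l 2 * W (2 * (a + n) - p) * (V.l 1)⁻¹ := fun p hp => by
    have h := congrArg (fun x => x.l 1) (v3 p hp)
    rw [Un_r0 (by omega), ← hW] at h
    simpa [v1, Ed, tau] using h
  refine (hA (a + n)).2.2 _ (θ⁻¹ * φ * θ).1.toMonoidHom
    (MulAut.conj (θ.1⁻¹ (V.l 1))).toMonoidHom n fun j h1 h2 => ?_
  have h3 := List.map_inj_left.1 e1 (2 * (a + n) - j) (List.mem_range.2 (by omega))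
  have h4 := v5 (2 * (a + n) - j + 1) (by omega)
  have h5 := v5 0 (by omega)
  simp only [Function.comp_apply] at h3
  rw [show 2 * (a + n) - (2 * (a + n) - j) = j by omega] at h3
  rw [show 2 * (a + n) - (2 * (a + n) - j + 1) = 2 * (a + n) - 1 - (2 * (a + n) - j) by omega] at h4
  rw [Nat.sub_zero, ← hw] at h5
  show θ.1⁻¹ (φ.1 (θ.1 (wl _ _ j))) = θ.1⁻¹ (V.l 1) * wl _ _ j * (θ.1⁻¹ (V.l 1))⁻¹
  rw [← hW, ← MulAut.inv_apply_self _ θ.1 (W j), ← map_mul, ← map_inv, ← map_mul,
    MulAut.inv_apply_self, h3]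
  simp only [map_inv, map_mul, map_one, h4, h5]
  congr 1
  group

end Pool.Agent.MH
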