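import Pool.Agent.Lib.MP_c86c76_al.Th.St
import Pool.Agent.Lib.MP_c86c76_al.Tg.All
import Pool.Agent.Lib.MP_c86c76_al.Tk.Wi

/-!
Lifts of the braids of the annulus.
-/

set_option autoImplicit false

namespace Pool.Agent.MH

open Pool.Agent.MB Pool.Agent.MG Pool.Agent.MA Pool.Agent.MT
open Pool.Agent.MW hiding FH AFP
open Pool.Agent.MK (Fx Iot HL)
open Pool.Agent.ML (IsT inS)
open FreeGroup hiding map_mul map_inv map_one

theorem l_wit {m i j : ℕ} {β : MulAut (FN m)} {u u' : FN m} (hi : 2 ≤ i) (hm : i ≤ m)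
    (h : Loc0 m i j β u) (h' : Loc0 m i j β u') : u = u' := by
  have key : ∀ p (hp : p < i), u⁻¹ * u' ∈ Subgroup.zpowers (io m p) := fun p hp => by
    have e := (h.2.1 p hp).symm.trans (h'.2.1 p hp)
    have e0 : io m p = of ⟨p, by omega⟩ := (lift_of (⟨p, by omega⟩ : Fin m)).symm
    rw [e0] at e ⊢
    refine MT.cen_of _ _ ?_
    change _ * _ = _ * _
    rw [mul_assoc, mul_inv_eq_iff_eq_mul.1 e.symm]
    group
  obtain ⟨a, ha⟩ := key 0 (by omega)
  obtain ⟨b, hb⟩ := key 1 (by omega)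
  let f : FN m →* FN m := lift fun q => if (q : ℕ) = 0 then 1 else io m q
  have f0 : f (io m 0) = 1 := by rw [lift_io _ (by omega), if_pos rfl]
  have f1 : f (io m 1) = io m 1 := by rw [lift_io _ (by omega), if_neg (by simp)]
  have e1 : f (u⁻¹ * u') = 1 := by rw [← ha]; simp only [map_zpow, f0, one_zpow]
  have e2 : f (u⁻¹ * u') = u⁻¹ * u' := by rw [← hb]; simp only [map_zpow, f1]
  exact inv_mul_eq_one.1 (e2.symm.trans e1)

theorem l_in (h : ℕ) (y : FN (2 * h + 1 + 1)) : rB h (inB h _ 3 y) = rhoW h y := by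
  rw [rB, MonoidHom.comp_apply, lift_rt_in (by omega) (by omega)]

theorem l_p0 {m p : ℕ} (hp : p < m) : p0 m (io m p) = tau (if p + 1 < m then 0 else 2) := by
  rw [p0, lift_io _ hp]

theorem l_p (h : ℕ) {x : FN (2 * h + 3 + 1)} (hx : x ∈ EA _ 3 (3 + 2 * h + 1)) :
    (rB h x).p = p0 _ x := by
  induction hx using Subgroup.closure_induction with
  | mem x hx =>
    rcases hx with rfl | ⟨p, h1, h2, rfl⟩
    · rw [rB, MonoidHom.comp_apply, lift_rt_bl' (by omega) (by omega), lift_rho0,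
        bl_succ _ (Nat.zero_le 2), bl_succ _ (Nat.zero_le 1), bl_succ _ (Nat.zero_le 0), bl_self,
        one_mul, map_mul, map_mul, l_p0 (by omega), l_p0 (by omega), l_p0 (by omega),
        if_pos (by omega), if_pos (by omega), if_pos (by omega)]
      change tau 0 = _
      decide
    · obtain ⟨g, hg⟩ := lift_rho (h := h) (j := p - 3 + 1) (by omega) (by omega)
      rw [rB, MonoidHom.comp_apply, lift_rt_io (by omega) h1 (by omega), hg, l_p0 (by omega)]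
      change tau _ = _
      congr 1
      split_ifs <;> first | rfl | omega
  | one => simp
  | mul x y _ _ a b => rw [map_mul, map_mul, Wr.mul_p, a, b]
  | inv x _ a => rw [map_inv, map_inv, Wr.inv_p, a]

theorem l_ex (h : ℕ) (β : BL (2 * h + 3 + 1)) (hβ : β ∈ Bh h) (u : FN (2 * h + 3 + 1))
    (hu : Loc0 _ 3 (3 + 2 * h + 1) β.1 u) (h1 : p0 _ u = 1)
    (h2 : (p0 _).comp β.1.toMonoidHom = p0 _) : ∃ ψ, L h β ψ := by
  obtain ⟨ψ, b, v, a1, a2, a3, a4, a5, -⟩ := liftAll h _ 3 (p0 _) β u (by omega) (by omega)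
    (MonoidHom.ext fun y => by
      rw [MonoidHom.comp_apply, ← l_p h (lift_in_mem y), l_in]; rfl) hβ hu h1 h2
  refine ⟨ψ, u, hu, fun x hx => ?_, ?_, ?_⟩
  · rw [← lift_in_rt (h := h) (by omega) (by omega) hx, a1, l_in, l_in, a3]
  · rw [a2, l_in, a4]
  · rw [a2, l_in, a5]; rfl

theorem l_map {G : Type} [Group G] (f f' : G →* G) (x : Wr G) :
    Wr.map (f.comp f') x = Wr.map f (Wr.map f' x) := rfl

theorem lSt : LSt := by
  intro h
  obtain ⟨⟨g1, g2⟩, g3, -⟩ := gamSt h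
  refine ⟨fun m i j β u u' a b c d => l_wit a b c d, fun x hx => l_p h hx, l_ex h, ?_, ?_, ?_, ?_, ?_⟩
  · rintro β ψ ψ' ⟨u, a1, a2, -, a4⟩ ⟨u', b1, b2, -, b4⟩
    refine MK.ker_ext _ _ (((modAll h).2.2 _).2 _ _ fun y => ?_) ?_
    · rw [← l_in, ← a2 _ (lift_in_mem y), ← b2 _ (lift_in_mem y)]
    · rw [← a4, ← b4, l_wit (by omega) (by omega) a1 b1]
  · refine ⟨1, Loc0.one _ _ _, fun x _ => ?_, by simp, by simp [g2]⟩
    rw [g1]; rfl
  · rintro β γ ψ ψ' ⟨u, a1, a2, a3, a4⟩ ⟨v, b1, b2, b3, b4⟩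
    refine ⟨β.1 v * u, a1.mul b1, fun x hx => ?_, ?_, ?_⟩
    · change rB h (β.1 (γ.1 x)) = _
      rw [a2 _ (b1.ea hx), b2 _ hx, (g3 _ _).1, l_map]
    · rw [map_mul, Wr.mul_p, a2 _ b1.1, Wr.map_p, a3, b3, one_mul]
    · rw [map_mul, Wr.mul_l, a2 _ b1.1, a3, Wr.map_l, (g3 _ _).2, a4, ← b4]; rfl
  · rintro β ⟨-, v, b1⟩ ψ ⟨u, a1, a2, a3, a4⟩
    have e0 : (fb ψ⁻¹).comp (fb ψ) = MonoidHom.id _ := by rw [← (g3 _ _).1, inv_mul_cancel, g1]
    have e1 : β.1 v * u = 1 := l_wit (by omega) (by omega) (a1.mul b1) (by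
      rw [mul_inv_cancel]; exact Loc0.one _ _ _)
    have e2 : Wr.map (fb ψ) (rB h v) * rB h u = 1 := by rw [← a2 _ b1.1, ← map_mul, e1, map_one]
    refine ⟨v, b1, fun x hx => ?_, ?_, ?_⟩
    · have := a2 _ (b1.ea hx)
      rw [MulAut.apply_inv_self] at this
      rw [this, ← l_map, e0]; rfl
    · have := congrArg (·.p) e2
      simpa [a3] using this
    · have e3 := congrArg (·.l 1) e2
      have e4 := (g3 ψ ψ⁻¹).2
      rw [mul_inv_cancel, g2] at e4
      simp only [Wr.mul_l, Wr.map_l, a3, a4, Wr.one_l, Equiv.Perm.one_apply] at e3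
      have e5 := congrArg (fb ψ⁻¹) (mul_right_cancel (e3.trans e4))
      rwa [← MonoidHom.comp_apply, ← MonoidHom.comp_apply, e0] at e5
  · refine ⟨(Fin (2 * h + 3 + 1) → Equiv.Perm (Fin 3)) × Equiv.Perm (Fin 3), inferInstance,
      fun β => (fun j => p0 _ (β.1.1 (of j)), p0 _ β.2.1.choose), fun β γ e => ?_⟩
    have e1 : (p0 _).comp β.1.1.toMonoidHom = (p0 _).comp γ.1.1.toMonoidHom :=
      FreeGroup.ext_hom _ _ fun j => congrFun (congrArg Prod.fst e) j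
    have e2 : p0 _ β.2.1.choose = p0 _ γ.2.1.choose := congrArg Prod.snd e
    have e3 : ∀ x, p0 _ ((β * γ⁻¹).1.1 x) = p0 _ x := fun x => by
      have := DFunLike.congr_fun e1 (γ.1.1⁻¹ x)
      change p0 _ (β.1.1 (γ.1.1⁻¹ x)) = p0 _ (γ.1.1 (γ.1.1⁻¹ x)) at this
      rwa [MulAut.apply_inv_self] at this
    obtain ⟨w, hw⟩ := (β * γ⁻¹).2.1
    have e4 := l_wit (by omega) (by omega) (hw.mul γ.2.1.choose_spec) (by
      have : (β * γ⁻¹).1.1 * γ.1.1 = β.1.1 := by simp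
      rw [this]; exact β.2.1.choose_spec)
    refine l_ex h _ (β * γ⁻¹).2 w hw ?_ (MonoidHom.ext e3)
    rw [← e4, map_mul, e3] at e2
    exact mul_eq_left.1 e2

end Pool.Agent.MH
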