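import Pool.Agent.Lib.MP_c86c76_al.Th.St
import Pool.Agent.Lib.MP_c86c76_al.Tg.All
import Pool.Agent.Lib.MP_c86c76_al.Tk.Out

/-!
The group of a window moves the inner part rigidly; reduction to the standard system.
-/

set_option autoImplicit false

namespace Pool.Agent.MH

open Pool.Agent.MB Pool.Agent.MG Pool.Agent.MA Pool.Agent.MT
open Pool.Agent.MW hiding FH AFP
open Pool.Agent.MK (Fx Iot HL)
open Pool.Agent.ML (IsT inS)
open FreeGroup hiding map_mul map_inv map_one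

section

variable {G : Type} [Group G] {m i : ℕ} {ρ : FN m →* Wr G}

theorem lab_mem {x : FN m} (hx : x ∈ EA m i m) (t : Fin 3) : (ρ x).l t ∈ Lab ρ i :=
  Subgroup.subset_closure ⟨x, hx, t, rfl⟩

theorem lab_le {Q : Subgroup G} (h0 : ∀ t, (ρ (bl m 0 i)).l t ∈ Q)
    (h1 : ∀ p, i ≤ p → p < m → ∀ t, (ρ (io m p)).l t ∈ Q) : Lab ρ i ≤ Q := by
  refine (Subgroup.closure_le _).2 ?_
  rintro _ ⟨x, hx, t, rfl⟩
  induction hx using Subgroup.closure_induction generalizing t with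
  | mem x hx =>
    rcases hx with rfl | ⟨p, a, b, rfl⟩
    exacts [h0 t, h1 p a b t]
  | one => exact map_one ρ ▸ Q.one_mem
  | mul x y _ _ a b => exact map_mul ρ x y ▸ Q.mul_mem (a _) (b _)
  | inv x _ a => exact map_inv ρ x ▸ Q.inv_mem (a _)

theorem lab_top {h : ℕ} {P : Subgroup (FN (2 * h + 1))} (hP : ∀ x t, (rhoW h x).l t ∈ P)
    (y : FN (2 * h + 1)) : y ∈ P := by
  have a0 : wl _ h (2 * h) ∈ P := by simpa [Un_w0] using hP (io _ 0) 1
  have a1 : ∀ j, j ≤ 2 * h → wl _ h j ∈ P := fun j hj => by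
    rcases hj.eq_or_lt with rfl | e
    · exact a0
    · have := hP (io _ (2 * h - j)) 1
      rwa [Un_w1 (by omega) (by omega), show 2 * h - (2 * h - j) = j by omega] at this
  have a2 : io _ (2 * h) ∈ P := by
    have := mul_mem (hP (io _ 0) 2) a0
    simpa [Un_w0] using this
  have a3 : ∀ q, q < h → io _ (2 * q + 1) ∈ P := fun q hq => by
    have := mul_mem (a1 (2 * q + 1) (by omega)) (inv_mem (a1 (2 * q + 2) (by omega)))
    rwa [Wl_odd, Wl_even, mul_assoc (io _ (2 * q + 1)), mul_inv_cancel_right] at this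
  have a4 : ∀ q, be _ h q ∈ P := fun q => Subgroup.list_prod_mem _ fun x hx => by
    obtain ⟨j, hj, rfl⟩ := List.mem_map.1 hx
    have := List.mem_range'_1.1 hj
    exact a3 j (by omega)
  have a5 : ∀ q, q < h → io _ (2 * q) ∈ P := fun q hq => by
    have := mul_mem (a4 (q + 1)) (inv_mem (a1 (2 * q + 2) (by omega)))
    rwa [Wl_even, mul_inv_rev, inv_inv, mul_inv_cancel_left] at this
  induction y using FreeGroup.induction_on with
  | C1 => exact one_mem _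
  | of j =>
    have := j.2
    rw [lift_of]
    rcases Nat.even_or_odd' j with ⟨q, e | e⟩ <;> rw [e]
    · rcases (show q ≤ h by omega).eq_or_lt with rfl | e'
      exacts [a2, a5 q e']
    · exact a3 q (by omega)
  | inv_of j a => exact inv_mem a
  | mul x y a b => exact mul_mem a b

end

theorem labSt : LabSt := by
  rintro G _ h m i r ρ k s ι hm ⟨hk, hs, hι⟩ ψ
  obtain ⟨b1, b2, b3, b4⟩ := hι ψ
  have a0 : ∀ (A : Wr (FN (2 * h + 1))) t, (k⁻¹ * Wr.map s A * k).l t =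
      (k.l (A.p t))⁻¹ * s (A.l t) * k.l t := fun A t => by simp [hk]
  have a1 : ∀ x t, (k.l ((rhoW h x).p t))⁻¹ * s ((rhoW h x).l t) * k.l t ∈ Lab ρ i :=
    fun x t => by
      rw [← a0, ← hs]
      refine lab_mem (Subgroup.closure_mono ?_ (lift_in_mem x)) t
      rintro _ (rfl | ⟨p, a, b, rfl⟩)
      exacts [Or.inl rfl, Or.inr ⟨p, a, by omega, rfl⟩]
  obtain ⟨⟨w1, w2, w3⟩, -⟩ := modAll h
  have a2 : (k.l 2)⁻¹ * k.l 0 ∈ Lab ρ i := by
    have := a1 (bl _ 0 (2 * h + 1 + 1)) 0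
    rwa [w1, w2, map_one s, mul_one] at this
  have a3 : (k.l 0)⁻¹ * k.l 1 ∈ Lab ρ i := by
    have := a1 (bl _ 0 (2 * h + 1 + 1)) 1
    rwa [w1, w3, map_one s, mul_one] at this
  have a4 : ∀ t, (k.l 2)⁻¹ * k.l t ∈ Lab ρ i := fun t => by
    fin_cases t
    · exact a2
    · simpa [mul_assoc] using mul_mem a2 a3
    · simp
  have a5 : ∀ y, (k.l 2)⁻¹ * s y * k.l 2 ∈ Lab ρ i := fun y => by
    have := lab_top (P := (Lab ρ i).comap ((MulAut.conj (k.l 2)⁻¹).toMonoidHom.comp s))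
      (fun x t => by
        simpa [mul_assoc] using mul_mem (mul_mem (a4 ((rhoW h x).p t)) (a1 x t)) (inv_mem (a4 t))) y
    simpa using this
  have a6 : ∀ y t t', (k.l t')⁻¹ * s y * k.l t ∈ Lab ρ i := fun y t t' => by
    simpa [mul_assoc] using mul_mem (mul_mem (inv_mem (a4 t')) (a5 y)) (a4 t)
  have a7 : ∀ x t, (ι ψ).1 ((ρ (inB h m i x)).l t) ∈ Lab ρ i := fun x t => by
    have e : ∀ t, (ι ψ).1 (k.l t) = k.l t := fun t => congrArg (·.l t) b2
    rw [hs, a0, map_mul, map_mul, map_inv, e, e, b1]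
    exact a6 _ _ _
  refine ⟨_, by simp [hk, Ub], fun t => a0 _ t ▸ a6 _ _ _, b3,
    lab_le (Q := (Lab ρ i).comap (ι ψ).1.toMonoidHom) (fun t => ?_) fun p h1 h2 t => ?_⟩
  · rw [← lift_in_zero (h := h)]
    exact a7 _ t
  · rcases lt_or_ge p (i + 2 * h + 1) with h3 | h3
    · have := a7 (io _ (p - i + 1)) t
      rwa [Iot_in h m i (by omega), Nat.add_sub_cancel' h1] at this
    · have e : (ι ψ).1 ((ρ (io m p)).l t) = (ρ (io m p)).l t := congrArg (·.l t) (b4 p h3)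
      change (ι ψ).1 ((ρ (io m p)).l t) ∈ Lab ρ i
      rw [e]
      exact lab_mem (Subgroup.subset_closure (Or.inr ⟨p, h1, h2, rfl⟩)) t

theorem inaSt : InaSt := by
  intro g i ρ hX hi hm h0
  obtain ⟨c, hc⟩ := MK.out_type hX.1
  have c0 : ∀ x, x < i → c x = 0 := fun x hx =>
    ((edSt PUnit).2.2.2.2.2 _ _).1 ((hc x (by omega)).symm.trans (h0 x hx))
  obtain ⟨q, hq⟩ : ∃ q, i + q = 2 * g + 1 + 1 := ⟨_, Nat.add_sub_cancel' (by omega)⟩
  have k2 : tp (fun x => c (i - 1 + x)) (q + 1) = cyc := by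
    have a1 : cyc = tp c (i + q) := by
      rw [hq, ← nf_bl hc le_rfl]
      exact hX.2.1.1.symm
    have a5 : tp (fun x => c (i - 1 + x)) 1 = tau 0 :=
      (nf_const fun x hx => c0 _ (by omega)).trans (if_pos rfl)
    rw [a1, nf_add c i, nf_const c0, if_pos hi, add_comm q 1, nf_add _ 1, a5]
    exact congrArg (fun f => tau 0 * tp f q) (funext fun x => congrArg c (by omega))
  obtain ⟨d, r₃, e₃, e₄⟩ := clSt.2.2.2 _ _ (by omega) (by omega) k2
  obtain ⟨β, hβ, t₃⟩ := (reAll _ _ c hc).2 i q d hi hq.le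
    (fun x hx => (c0 x hx).trans (c0 0 (by omega)).symm) r₃
  rw [hq] at hβ
  obtain ⟨⟨u, hu⟩, u', hu'⟩ := hβ
  obtain ⟨θ, θ1, θ2⟩ := (xAll _ _ _ _ (unAll g)).2.1 _ ((xAll _ _ _ _ hX).1 β)
    (Iot_ext fun j hj => (t₃ j hj).trans (by
      by_cases e : j ≤ 2 * g
      · exact (congrArg tau (e₃ _ (by omega))).trans (congrArg Wr.p (Un_r0 e)).symm
      · rw [show j = 2 * g + 1 by omega]
        exact (congrArg tau ((congrArg d (by omega)).trans e₄)).trans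
          (congrArg Wr.p (Un_r1 g)).symm))
  replace θ2 : ∀ x, ρ (β.1 x) = Wr.map θ.toMonoidHom (rho0 g x) := θ2
  have a1 : ∀ y ∈ Lab (rho0 g) i, θ y ∈ Lab ρ i :=
    (Subgroup.closure_le ((Lab ρ i).comap θ.toMonoidHom)).2 (by
      rintro _ ⟨x, hx, t, rfl⟩
      have := lab_mem (ρ := ρ) (hu.ea hx) t
      rwa [θ2] at this)
  have a2 : ∀ y ∈ Lab ρ i, θ⁻¹ y ∈ Lab (rho0 g) i :=
    (Subgroup.closure_le ((Lab (rho0 g) i).comap θ⁻¹.toMonoidHom)).2 (by
      rintro _ ⟨x, hx, t, rfl⟩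
      have e := θ2 (β.1⁻¹ x)
      rw [MulAut.apply_inv_self] at e
      change θ⁻¹ ((ρ x).l t) ∈ Lab (rho0 g) i
      rw [e]
      simpa using lab_mem (ρ := rho0 g) (hu'.ea hx) t)
  refine ⟨⟨θ, θ1⟩, ?_⟩
  rintro φ ⟨V, v1, v2, v3, v4⟩
  refine ⟨Wr.map θ⁻¹.toMonoidHom (Wr.map φ.1.toMonoidHom (ρ u) * V * (ρ u)⁻¹), by simp [v1],
    fun t => a2 _ (mul_mem (mul_mem (v4 _ (lab_mem hu.1 _)) (v2 _)) (inv_mem (lab_mem hu.1 _))),
    fun p hp => ?_, fun y hy => a2 _ (v4 _ (a1 y hy))⟩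
  have e1 : rho0 g (io _ p) = Wr.map θ⁻¹.toMonoidHom (ρ (β.1 (io _ p))) := by
    rw [θ2]
    exact Wr.ext rfl (funext fun t => by simp)
  have e2 : Wr.map ((⟨θ, θ1⟩ : St g)⁻¹ * φ * ⟨θ, θ1⟩).1.toMonoidHom (rho0 g (io _ p)) =
      Wr.map θ⁻¹.toMonoidHom (Wr.map φ.1.toMonoidHom (ρ (β.1 (io _ p)))) := by
    rw [θ2]
    rfl
  rw [e2, e1, hu.2.1 p hp]
  simp only [map_mul, map_inv, v3 p hp]
  group

end Pool.Agent.MH
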