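import Pool.Agent.Lib.MP_c86c76_al.Th.St
import Pool.Agent.Lib.MP_c86c76_al.Tg.Sg
import Pool.Agent.Lib.MP_c86c76_al.Tg.Lca
import Pool.Agent.Lib.MP_c86c76_al.Tg.TwB
import Pool.Agent.Lib.MP_c86c76_al.G.All

/-!
The elements that fix two handles are lifts of loops of the last point.
-/

set_option autoImplicit false

namespace Pool.Agent.MH

open Pool.Agent.MB Pool.Agent.MG Pool.Agent.MA Pool.Agent.MT
open Pool.Agent.MW hiding FH AFP NbSt
open Pool.Agent.MK (Fx Iot HL)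
open Pool.Agent.ML (IsT inS)
open FreeGroup hiding map_mul map_inv map_one

theorem nb_norm {N j : ℕ} {β : BL (N + 1)} (h3 : 3 ≤ j) (hj : j + 1 < N)
    (hs : IsS (N + 1) j β.1) : ∀ γ ∈ FT N, β⁻¹ * γ * β ∈ FT N := by
  intro γ hγ
  have mem : ∀ k, (k = 0 ∨ 3 ≤ k) → k ≤ N → MM N k ∈ FT N := fun k a hk =>
    Subgroup.subset_closure ⟨k, a, hk, rfl⟩
  have cm : ∀ k, k ≤ N → k ≠ j + 1 → β * MM N k = MM N k * β := fun k hk hne =>
    Subtype.ext (sg_comm hj hk hs (MM_isM hk) hne)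
  have rel : β * MM N (j + 1) = MM N j * (MM N (j + 1))⁻¹ * MM N (j + 2) * β :=
    Subtype.ext (sg_rel hj hs (MM_isM (by omega)) (MM_isM (by omega)) (MM_isM (by omega)))
  induction hγ using Subgroup.closure_induction with
  | mem x hx =>
    obtain ⟨k, hk0, hk, rfl⟩ := hx
    by_cases a : k = j + 1
    · subst a
      have m0 := mem j (by omega) (by omega)
      have m1 := mem (j + 1) (by omega) (by omega)
      have m2 := mem (j + 2) (by omega) (by omega)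
      have c0 := cm j (by omega) (by omega)
      have c2 := cm (j + 2) (by omega) (by omega)
      have e : β⁻¹ * MM N (j + 1) * β = MM N (j + 2) * (MM N (j + 1))⁻¹ * MM N j := by
        have e1 : MM N (j + 1) =
            MM N (j + 2) * β * (β * MM N (j + 1))⁻¹ * MM N j := by
          rw [rel]
          group
        calc _ = β⁻¹ * (MM N (j + 2) * β * (β * MM N (j + 1))⁻¹ * MM N j) * β := by rw [← e1]
          _ = β⁻¹ * (MM N (j + 2) * β) * (MM N (j + 1))⁻¹ * β⁻¹ * (MM N j * β) := by group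
          _ = _ := by
            rw [← c0, ← c2]
            group
      rw [e]
      exact mul_mem (mul_mem m2 (inv_mem m1)) m0
    · rw [mul_assoc, ← cm k hk a, inv_mul_cancel_left]
      exact mem k hk0 hk
  | one => simp
  | mul x y _ _ a b =>
    rw [show β⁻¹ * (x * y) * β = (β⁻¹ * x * β) * (β⁻¹ * y * β) by group]
    exact mul_mem a b
  | inv x _ a =>
    rw [show β⁻¹ * x⁻¹ * β = (β⁻¹ * x * β)⁻¹ by group]
    exact inv_mem a

theorem nb_le (hB : BrSt) (h : ℕ) (h1 : 1 ≤ h) : FT (2 * h + 3) ≤ Bh h :=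
  (Subgroup.closure_le _).2 fun _ ⟨k, a, b, e⟩ =>
    e ▸ (hB (2 * h + 3) (3 + 2 * h + 1) (by omega) (by omega)).1 k a b

/-- The lifts of the loops of the last point. -/
def nb_grp (hL : LSt) (hB : BrSt) (h : ℕ) (h1 : 1 ≤ h) : Subgroup (Gam h) where
  carrier := {ψ | ∃ β ∈ FT (2 * h + 3), L h β ψ}
  one_mem' := ⟨1, one_mem _, (hL h).2.2.2.2.1⟩
  mul_mem' := fun ⟨β, a, e⟩ ⟨β', a', e'⟩ =>
    ⟨β * β', mul_mem a a', (hL h).2.2.2.2.2.1 _ _ _ _ e e'⟩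
  inv_mem' := fun ⟨β, a, e⟩ =>
    ⟨β⁻¹, inv_mem a, (hL h).2.2.2.2.2.2.1 β (nb_le hB h h1 a) _ e⟩

theorem nb_braid (hL : LSt) (hB : BrSt) {h j : ℕ} (h1 : 1 ≤ h) {A B : Gam h}
    (hA : A ∈ nb_grp hL hB h h1) {β : BL (2 * h + 3 + 1)} (h3 : 3 ≤ j) (hj : j + 1 < 2 * h + 3)
    (hs : IsS _ j β.1) (l : L h β B⁻¹) (e : A * B * A = B * A * B) : B ∈ nb_grp hL hB h h1 := by
  have hβ : β ∈ Bh h := (lcaSt _ 3 (3 + 2 * h + 1) (by omega) (by omega)).2.1
    (Subgroup.subset_closure ⟨j, h3, by omega, by omega, hs⟩)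
  have mul := (hL h).2.2.2.2.2.1
  have h2 := hA
  obtain ⟨γ, hγ, r⟩ := hA
  have l' := (hL h).2.2.2.2.2.2.1 β hβ _ l
  rw [inv_inv] at l'
  have h4 : B * A * B⁻¹ ∈ nb_grp hL hB h h1 :=
    ⟨_, nb_norm h3 hj hs γ hγ, mul _ _ _ _ (mul _ _ _ _ l' r) l⟩
  have h5 : B = A * (B * A * B⁻¹) * A⁻¹ := by
    rw [show A * (B * A * B⁻¹) * A⁻¹ = A * B * A * B⁻¹ * A⁻¹ by group, e]
    group
  rw [h5]
  exact mul_mem (mul_mem h2 h4) (inv_mem h2)

theorem nbSt (hE : ExSt) (hL : LSt) (hB : BrSt) (hT : TwSt) : NbSt := by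
  intro h h1 φ hφ
  have kA : ∀ i (A : Gam h), i < h → IsA _ i A.1 → A ∈ nb_grp hL hB h h1 := fun i A hi a => by
    have m : MM (2 * h + 3) (2 * h + 1 - 2 * i) ∈ FT (2 * h + 3) :=
      Subgroup.subset_closure ⟨_, by omega, by omega, rfl⟩
    exact inv_mem_iff.1 (show A⁻¹ ∈ nb_grp hL hB h h1 from ⟨_, pow_mem m 2, (hT h i A).1 hi a⟩)
  have kB : ∀ i (B : Gam h), i + 1 < h → IsB _ i B.1 → B ∈ nb_grp hL hB h h1 := fun i B hi b => by
    obtain ⟨A, a⟩ := (((lickSt (2 * (h + 1))).2.1 i).1 (by omega)).1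
    have t : IsT (2 * (h + 1)) (3 * i) A :=
      Or.inl ⟨by omega, by omega, by rwa [show 3 * i / 3 = i by omega]⟩
    obtain ⟨β, s⟩ := sgSt.1 (2 * h + 3 + 1) (2 * h - 2 * i) (by omega)
    exact nb_braid hL hB h1 (kA i ⟨A, t.gam (by omega)⟩ (by omega) a) (by omega) (by omega) s
      (((hT h i B).2 β hi).1 b s) (Subtype.ext ((brdSt _ i A B.1 1).1 (by omega) a b))
  have kC : ∀ i (C : Gam h), i + 1 < h → IsC _ i C.1 → C ∈ nb_grp hL hB h h1 := fun i C hi c => by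
    obtain ⟨B, b⟩ := (((lickSt (2 * (h + 1))).2.1 i).1 (by omega)).2
    have t : IsT (2 * (h + 1)) (3 * i + 1) B :=
      Or.inr (Or.inl ⟨by omega, by omega, by rwa [show (3 * i + 1) / 3 = i by omega]⟩)
    obtain ⟨β, s⟩ := sgSt.1 (2 * h + 3 + 1) (2 * h - 1 - 2 * i) (by omega)
    exact nb_braid hL hB h1 (kB i ⟨B, t.gam (by omega)⟩ hi b) (by omega) (by omega) s
      (((hT h i C).2 β hi).2 c s) (Subtype.ext ((brdSt _ i 1 B C.1).2 (by omega) c b).symm)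
  obtain ⟨e, e1, e2⟩ := hE (h - 1) (h + 1) (by omega)
  obtain ⟨φ', rfl⟩ := e1 φ hφ
  have key : ((nb_grp hL hB h h1).map (inS h)).comap e = ⊤ := by
    refine ML.st_ind _ fun k hk ψ t => ?_
    have t' := e2 k ψ t
    refine ⟨⟨(e ψ).1, t'.gam (by omega)⟩, ?_, rfl⟩
    rcases t' with ⟨a, -, c⟩ | ⟨a, -, c⟩ | ⟨a, -, c⟩
    · exact kA _ _ (by omega) c
    · exact kB _ _ (by omega) c
    · exact kC _ _ (by omega) c
  obtain ⟨ψ, ⟨β, a, b⟩, c⟩ : φ' ∈ ((nb_grp hL hB h h1).map (inS h)).comap e :=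
    key ▸ Subgroup.mem_top _
  exact ⟨ψ, c, β, a, b⟩

end Pool.Agent.MH
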