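import Pool.Agent.Lib.MP_c86c76_al.Th.St
import Pool.Agent.Lib.MP_c86c76_al.Tg.All
import Pool.Agent.Lib.MP_c86c76_al.Tk.Hur
import Pool.Agent.Lib.MP_c86c76_al.Tk.Zed

/-!
Every small annulus lies in a window with nine points.
-/

set_option autoImplicit false

namespace Pool.Agent.MH

open Pool.Agent.MB Pool.Agent.MG Pool.Agent.MA Pool.Agent.MT
open Pool.Agent.MW hiding FH AFP NfSt nfSt
open Pool.Agent.MK (IsZ hurSt zedSt zed_inn zed_top)
open FreeGroup hiding map_mul map_inv map_one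

theorem nf_fix {m i k j : ℕ} (hk : k ≤ m) {γ : BL m} {u : FN m} (h : Loc0 m i k γ.1 u) {x : FN m}
    (hx : x ∈ EA m k j) : γ.1 x = x := by
  induction hx using Subgroup.closure_induction with
  | mem x hx =>
    rcases hx with rfl | ⟨p, h1, -, rfl⟩
    · have e := γ.2.1
      rw [sg_split m (Nat.zero_le k) hk, map_mul, sg_fix _ hk fun p a _ => h.2.2.2 p a] at e
      exact mul_right_cancel e
    · exact h.2.2.2 p h1
  | one => simp
  | mul x y _ _ a b => rw [map_mul, a, b]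
  | inv x _ a => rw [map_inv, a]

theorem nf_inn {m k j : ℕ} {β : MulAut (FN m)} {u : FN m} (h : Loc0 m k j β u) {x : FN m}
    (hx : x ∈ EA m 0 k) : β x = u * x * u⁻¹ := by
  induction hx using Subgroup.closure_induction with
  | mem x hx =>
    rcases hx with rfl | ⟨p, -, h2, rfl⟩
    · simp [bl_self]
    · exact h.2.1 p h2
  | one => simp
  | mul x y _ _ a b =>
    rw [map_mul, a, b]
    group
  | inv x _ a =>
    rw [map_inv, a]
    group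

/-- Braids of adjacent annuli commute. -/
theorem nf_comm {m i k j : ℕ} (h1 : i ≤ k) (h2 : k ≤ m) {γ β : BL m} (hg : γ ∈ Loc m i k)
    (hb : β ∈ Loc m k j) : γ * β = β * γ := by
  obtain ⟨⟨v, hv⟩, -⟩ := hg
  obtain ⟨⟨u, hu⟩, -⟩ := hb
  refine Subtype.ext (lca_ext fun p => ?_)
  show γ.1 (β.1 _) = β.1 (γ.1 _)
  by_cases c : p < k
  · rw [hu.2.1 p c, map_mul, map_mul, map_inv, nf_fix h2 hv hu.1,
      nf_inn hu ((lca_mono h1 (Nat.zero_le i) le_rfl hv).ea (lca_io (Nat.zero_le p) c))]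
  rw [hv.2.2.2 p (by omega)]
  by_cases d : p < j
  · exact nf_fix h2 hv (hu.ea (lca_io (by omega) d))
  · rw [hu.2.2.2 p (by omega), hv.2.2.2 p (by omega)]

theorem nf_tau (σ : Equiv.Perm (Fin 3)) (c : Fin 3) : σ * tau c * σ⁻¹ = tau (σ c) := by
  rw [ed_conjp, mul_inv_cancel_right]

theorem nf_p0 {m p : ℕ} (h : p < m) : p0 m (io m p) = tau (if p + 1 < m then 0 else 2) := by
  rw [io, dif_pos h, p0, lift_apply_of]

theorem nf_cyc (h : ℕ) : p0 (2 * h + 3 + 1) (bl _ 0 (2 * h + 3 + 1)) = cyc := by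
  rw [nf_bl (c := fun p => if p + 1 < 2 * h + 3 + 1 then 0 else 2) (fun p hp => nf_p0 hp) le_rfl,
    nf_succ, nf_const (t := 0) fun x hx => if_pos (by omega), if_pos (by omega), if_neg (by omega)]
  rfl

theorem nf_type (h : ℕ) {γ : BL (2 * h + 3 + 1)} (hg : γ ∈ Bh h) :
    ∃ c, Tp ((p0 _).comp γ.1.toMonoidHom) c ∧ ∀ x, x < 3 → c x = c 0 := by
  obtain ⟨⟨u, hu⟩, -⟩ := hg
  have a : ∀ p, ∃ t, 3 ≤ p → p < 2 * h + 3 + 1 → p0 _ (γ.1 (io _ p)) = tau t := fun p => by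
    by_cases e : 3 ≤ p ∧ p < 2 * h + 3 + 1
    · obtain ⟨q, w, -, b, -, d⟩ := hu.2.2.1 p e.1 (by omega)
      refine ⟨p0 _ w (if q + 1 < 2 * h + 3 + 1 then 0 else 2), fun _ _ => ?_⟩
      rw [d, map_mul, map_mul, map_inv, nf_p0 (by omega), nf_tau]
    · exact ⟨0, fun a b => absurd ⟨a, b⟩ e⟩
  choose t ht using a
  refine ⟨fun p => if p < 3 then p0 _ u 0 else t p, fun p hp => ?_, fun x hx => ?_⟩
  · show p0 _ (γ.1 (io _ p)) = tau (if p < 3 then _ else _)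
    split_ifs with e
    · rw [hu.2.1 p e, map_mul, map_mul, map_inv, nf_p0 hp, if_pos (by omega), nf_tau]
    · exact ht p (by omega) hp
  · show (if x < 3 then _ else _) = if 0 < 3 then _ else _
    rw [if_pos hx, if_pos (by omega)]

/-- Rotation of the outer colours. -/
theorem nf_rot {m i n : ℕ} (h0 : 3 ≤ n) (h1 : i ≤ n) (h2 : n ≤ m)
    {π : FN m →* Equiv.Perm (Fin 3)} {c : ℕ → Fin 3} (hc : Tp π c) (a1 : π (bl m 0 m) = cyc)
    (a2 : π (bl m 0 n) = cyc) (r : ℕ) :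
    ∃ W ∈ Loc m 3 m, (∀ β ∈ Loc m i n, Commute W β) ∧ π (W.1 (bl m 0 n)) = cyc ∧
      Tp (π.comp W.1.toMonoidHom) fun x => if x < n then c x else (cyc ^ r) (c x) := by
  obtain ⟨z1, z2, z3, z4, -⟩ := zedSt m
  obtain ⟨Y, hY⟩ := z1 m le_rfl
  obtain ⟨Z, hZ⟩ := z1 n h2
  induction r with
  | zero =>
    refine ⟨1, one_mem _, fun β _ => Commute.one_left β, a2, fun p hp => (hc p hp).trans ?_⟩
    simp
  | succ r ih =>
    obtain ⟨W, w1, w2, w3, w4⟩ := ih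
    have b1 : (π.comp W.1.toMonoidHom) (bl m 0 m) = cyc := (congrArg π W.2.1).trans a1
    have b2 : ((π.comp W.1.toMonoidHom).comp Y.1.toMonoidHom) (bl m 0 n) = cyc := by
      show (π.comp W.1.toMonoidHom) (Y.1 (bl m 0 n)) = cyc
      rw [zed_inn h2 hY (lca_bl n le_rfl h2), map_mul, map_mul, map_inv, b1,
        show (π.comp W.1.toMonoidHom) (bl m 0 n) = cyc from w3, mul_inv_cancel_right]
    have b3 : (((π.comp W.1.toMonoidHom).comp Y.1.toMonoidHom).comp Z.1.toMonoidHom) (bl m 0 n) =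
        cyc := (congrArg _ (zed_top hZ)).trans b2
    have t1 := z4 m Y _ _ le_rfl hY w4
    have t2 := z4 n Z _ _ h2 hZ t1
    have t3 := z4 n Z _ _ h2 hZ t2
    rw [b3, b2, b1] at t3
    have y1 := (z2 3 m m Y (h0.trans h2) le_rfl le_rfl hY).1
    have y2 := (z2 3 m n Z h0 h2 le_rfl hZ).1
    refine ⟨W * Y * Z * Z, mul_mem (mul_mem (mul_mem w1 y1) y2) y2, fun β hβ => ?_,
      (congrArg _ (zed_top hZ)).trans b3, fun p hp => (t3 p hp).trans (congrArg tau ?_)⟩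
    · have c1 := z3 i m m Y β (h1.trans h2) le_rfl le_rfl hY
        (Or.inl ((lcaSt m i n h1 h2).1 i m le_rfl h2 hβ))
      have c2 := z3 i m n Z β h1 h2 le_rfl hZ (Or.inl hβ)
      exact (((w2 β hβ).mul_left c1).mul_left c2).mul_left c2
    · by_cases e : p < n
      · simp only [if_pos e, if_pos hp]
        generalize c p = t
        revert t
        decide
      · simp only [if_neg e, if_pos hp, pow_succ', Equiv.Perm.mul_apply]

theorem nf_ind {h k j : ℕ} (h1 : 4 ≤ h) (h2 : 3 ≤ k) (h4 : j ≤ k + 3) (h5 : j ≤ 2 * h + 3 + 1) :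
    ∃ a l, h = a + l + 4 ∧ 2 * a + 3 ≤ k ∧ j ≤ 2 * a + 12 ∧ (a = 0 ∨ 2 * a + 5 ≤ k) ∧
      (l = 0 ∨ j + 2 ≤ 2 * a + 12) := by
  by_cases e : h - 4 ≤ (k - 5) / 2
  · exact ⟨h - 4, 0, by omega⟩
  · exact ⟨(k - 5) / 2, h - 4 - (k - 5) / 2, by omega⟩

theorem nfSt : NfSt := by
  intro h k j h1 h2 h3 h4 h5 γ hγ
  obtain ⟨c, hc, c0⟩ := nf_type h hγ
  obtain ⟨q, rfl⟩ : ∃ q, k = 3 + q := ⟨k - 3, by omega⟩
  obtain ⟨d₁, r₁, e₁⟩ := hurSt.2.1 0 (q + 1) fun x => c (3 - 1 + x)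
  obtain ⟨γ₁, m₁, t₁⟩ := (reAll _ _ c hc).2 3 q d₁ rfl (by omega) c0 r₁
  obtain ⟨c₂, r₂, e₂⟩ := hurSt.2.2.1 j (2 * h + 3 + 1) fun x => d₁ (x + 1 - 3)
  obtain ⟨γ₂, m₂, t₂⟩ := (reAll _ _ _ t₁).1 j _ c₂ le_rfl r₂
  obtain ⟨a, l, i1, i2, i3, i4, i5⟩ := nf_ind h1 h2 h4 h5
  have k1 : ∀ x, x < 2 * a + 3 → c₂ x = c₂ 0 := fun x hx => by
    rw [clSt.1 _ _ _ _ r₂ x (by omega), clSt.1 _ _ _ _ r₂ 0 (by omega)]
    by_cases e : x < 3
    · exact congrArg d₁ (by omega)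
    · exact e₁ _ _ (by omega) (by omega) (by omega) (by omega)
  have b0 : ∀ δ : BL (2 * h + 3 + 1), p0 _ (δ.1 (bl _ 0 (2 * h + 3 + 1))) = cyc := fun δ =>
    (congrArg _ δ.2.1).trans (nf_cyc h)
  have k2 : tp (fun x => c₂ (2 * a + 3 - 1 + x)) (9 + 1) = cyc := by
    have a1 : cyc = tp c₂ (2 * h + 3 + 1) := (b0 (γ * γ₁ * γ₂)).symm.trans (nf_bl t₂ le_rfl)
    have a3 := nf_add c₂ (2 * a + 3 + 9) (2 * l)
    have a4 : tp (fun x => c₂ (2 * a + 3 + 9 + x)) (2 * l) = 1 :=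
      (nf_const (t := c₂ (2 * a + 3 + 9)) fun x hx =>
        e₂ _ _ (by omega) (by omega) (by omega) (by omega)).trans (if_neg (by omega))
    have a5 : tp (fun x => c₂ (2 * a + 3 - 1 + x)) 1 = tau (c₂ 0) :=
      (nf_const fun x hx => k1 _ (by omega)).trans (if_pos rfl)
    rw [show 2 * a + 3 + 9 + 2 * l = 2 * h + 3 + 1 by omega, ← a1, nf_add c₂ (2 * a + 3),
      nf_const k1, if_pos (by omega), a4, mul_one] at a3
    rw [a3, add_comm _ 1, nf_add _ 1, a5]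
    exact congrArg (fun f => tau (c₂ 0) * tp f 9) (funext fun x => congrArg c₂ (by omega))
  obtain ⟨d, r₃, e₃, e₄⟩ := clSt.2.2.2 _ _ (by omega) (by omega) k2
  obtain ⟨γ₃, m₃, t₃⟩ := (reAll _ _ c₂ t₂).2 (2 * a + 3) 9 d (by omega) (by omega) k1 r₃
  have k3 : (((((p0 _).comp γ.1.toMonoidHom).comp γ₁.1.toMonoidHom).comp γ₂.1.toMonoidHom).comp
      γ₃.1.toMonoidHom) (bl _ 0 (2 * a + 12)) = cyc := by
    rw [nf_bl t₃ (by omega), nf_succ _ (2 * a + 11),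
      nf_const (t := 0) fun x hx => e₃ _ (by omega), if_pos (by omega),
      show 2 * a + 11 + 1 - (2 * a + 3) = 9 + 1 - 1 by omega, e₄]
    rfl
  obtain ⟨r, hr⟩ : ∃ r : ℕ, (cyc ^ r) (c₂ (2 * a + 12)) = 1 := by
    generalize c₂ (2 * a + 12) = t
    have : ∀ t : Fin 3, ∃ r : Fin 3, (cyc ^ (r : ℕ)) t = 1 := by decide
    obtain ⟨r, hr⟩ := this t
    exact ⟨r, hr⟩
  obtain ⟨W, w1, w2, -, w4⟩ := nf_rot (i := 2 * a + 3) (by omega) (by omega) (by omega) t₃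
    (b0 (γ * γ₁ * γ₂ * γ₃)) k3 r
  have l1 : γ₁ ∈ Bh h := (lcaSt _ 3 (3 + q) (by omega) (by omega)).1 3 _ le_rfl (by omega) m₁
  have l2 : γ₂ ∈ Bh h := (lcaSt _ j _ h5 le_rfl).1 3 _ (by omega) (by omega)
    ((lcaSt _ j _ h5 le_rfl).2.1 m₂)
  have l3 : γ₃ ∈ Bh h := (lcaSt _ _ _ (by omega) (by omega)).1 3 _ (by omega) (by omega) m₃
  have l4 : W ∈ Bh h := (lcaSt _ _ _ (by omega) le_rfl).1 3 _ le_rfl (by omega) w1
  refine ⟨a, l, i1, γ₁ * γ₂ * γ₃ * W, mul_mem (mul_mem (mul_mem l1 l2) l3) l4,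
    fun p hp => (w4 p hp).trans (congrArg tau ?_), fun β hβ => ?_⟩
  · show (if p < 2 * a + 12 then _ else _) = if p < 2 * a + 11 then _ else if _ then _ else _
    by_cases e : p < 2 * a + 11
    · rw [if_pos (by omega), if_pos e]
      exact e₃ _ (by omega)
    by_cases f : p = 2 * a + 11
    · rw [if_pos (by omega), if_neg e, if_pos f]
      exact (congrArg d (by omega)).trans e₄
    · rw [if_neg (by omega), if_neg e, if_neg f, ← hr]
      refine congrArg _ ((clSt.1 _ _ _ _ r₃ _ (Or.inr (by omega))).trans ?_)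
      exact e₂ _ _ (by omega) (by omega) (by omega) (by omega)
  · obtain ⟨a1, -, a2⟩ := lcaSt _ (3 + q) j h3 h5
    have a3 : γ₃⁻¹ * β * γ₃ ∈ Loc _ (2 * a + 3) (2 * a + 12) :=
      mul_mem (mul_mem (inv_mem m₃) (a1 _ _ i2 i3 hβ)) m₃
    have a4 : (γ₁ * γ₂ * γ₃ * W)⁻¹ * β * (γ₁ * γ₂ * γ₃ * W) = γ₃⁻¹ * β * γ₃ := by
      calc _ = W⁻¹ * (γ₃⁻¹ * (γ₂⁻¹ * (γ₁⁻¹ * (β * γ₁)) * γ₂) * γ₃ * W) := by group
        _ = _ := by
          rw [← nf_comm (by omega) (by omega) m₁ hβ, inv_mul_cancel_left, mul_assoc γ₂⁻¹,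
            ← a2 β hβ γ₂ (Or.inr m₂), inv_mul_cancel_left, ← (w2 _ a3).eq, inv_mul_cancel_left]
    rw [a4]
    exact a3

end Pool.Agent.MH
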