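import Pool.Agent.Lib.MP_c86c76_al.Th.St
import Pool.Agent.Lib.MP_c86c76_al.Tg.Wl

/-!
The words outside of a window are handles.
-/

set_option autoImplicit false

namespace Pool.Agent.MH

open Pool.Agent.MB Pool.Agent.MG Pool.Agent.MA Pool.Agent.MT
open Pool.Agent.MW hiding FH AFP
open Pool.Agent.MK (Fx Iot HL)
open Pool.Agent.ML (IsT inS)
open FreeGroup hiding map_mul map_inv map_one

section Alt

variable {G : Type} [Group G]

theorem th_two (P : List G → Prop) (h0 : P []) (h2 : ∀ x y t, P t → P (x :: y :: t)) :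
    ∀ (k : ℕ) (L : List G), L.length = 2 * k → P L := by
  intro k
  induction k with
  | zero =>
    intro L hL
    rw [List.length_eq_zero_iff.1 hL]
    exact h0
  | succ k ih =>
    intro L hL
    match L, hL with
    | [], hL => simp at hL
    | [_], hL => simp at hL; omega
    | x :: y :: t, hL => exact h2 x y t (ih t (by simp at hL; omega))

theorem th_app (k : ℕ) (L L' : List G) (hL : L.length = 2 * k) (e : Bool) :
    alt e (L ++ L') = alt e L * alt e L' := by
  refine th_two (fun L => alt e (L ++ L') = alt e L * alt e L') ?_ ?_ k L hL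
  · simp [alt]
  · intro x y t ht
    simp only [List.cons_append, alt, Bool.not_not, ht, mul_assoc]

theorem th_inv (L : List G) (e : Bool) : alt e (L.map fun x => x⁻¹) = alt (!e) L := by
  induction L generalizing e with
  | nil => simp [alt]
  | cons x t ih => cases e <;> simp [alt, ih]

theorem th_conj (k : ℕ) (L : List G) (hL : L.length = 2 * k) (P Q : G) :
    alt true (L.map fun x => P * x * Q) = P * alt true L * P⁻¹ ∧
    alt false (L.map fun x => P * x * Q) = Q⁻¹ * alt false L * Q := by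
  refine th_two (fun L => alt true (L.map fun x => P * x * Q) = P * alt true L * P⁻¹ ∧
    alt false (L.map fun x => P * x * Q) = Q⁻¹ * alt false L * Q) ?_ ?_ k L hL
  · simp [alt]
  · intro x y t ht
    simp only [List.map_cons, alt, Bool.not_true, Bool.not_false, cond_true, cond_false, ht.1, ht.2]
    constructor <;> group

theorem th_mem (K : Subgroup G) (L : List G) (hL : ∀ x ∈ L, x ∈ K) (e : Bool) : alt e L ∈ K := by
  induction L generalizing e with
  | nil => exact K.one_mem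
  | cons x t ih =>
    have hx := hL x (by simp)
    have ht := ih (fun y hy => hL y (by simp [hy])) (!e)
    cases e
    · exact K.mul_mem (K.inv_mem hx) ht
    · exact K.mul_mem hx ht

theorem th_key (l a c : ℕ) (O Gs Vs N : List G) (w x b r : G) (hO : O.length = 2 * l)
    (hG : Gs.length = 2 * a) (hV : Vs.length = 2 * c)
    (h1 : alt true (w :: (O ++ (Gs ++ Vs))) = 1) (h2 : alt false (w :: (O ++ (Gs ++ Vs))) = r)
    (hN : N = Gs.map fun y => ((alt false O)⁻¹ * b)⁻¹ * ((alt true O)⁻¹ * w * alt false O)⁻¹ * y *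
      ((alt false O)⁻¹ * b)) :
    ∃ R : List G, R.length = 2 * c + 3 ∧
      alt true ((N.map fun y => y⁻¹) ++ ((O.map fun y => (alt false N)⁻¹ * (alt true N)⁻¹ * x * y *
        (((alt false N)⁻¹ * (alt true N)⁻¹ * x)⁻¹ * (alt false N)⁻¹)) ++ R)) = 1 ∧
      alt false ((N.map fun y => y⁻¹) ++ ((O.map fun y => (alt false N)⁻¹ * (alt true N)⁻¹ * x * y *
        (((alt false N)⁻¹ * (alt true N)⁻¹ * x)⁻¹ * (alt false N)⁻¹)) ++ R)) =
        x * b * x⁻¹ * b⁻¹ * r := by
  obtain ⟨hT, hF⟩ := th_conj a Gs hG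
    (((alt false O)⁻¹ * b)⁻¹ * ((alt true O)⁻¹ * w * alt false O)⁻¹) ((alt false O)⁻¹ * b)
  rw [← hN] at hT hF
  have hNl : (N.map fun y => y⁻¹).length = 2 * a := by rw [hN]; simpa using hG
  simp only [alt, Bool.not_true, Bool.not_false, cond_true, cond_false, th_app l O _ hO,
    th_app a Gs _ hG] at h1 h2
  have e1 : alt false Vs = (w * alt false O * alt false Gs)⁻¹ := by
    rw [eq_inv_iff_mul_eq_one, ← mul_eq_one_comm, ← h1]; group
  have e2 : alt true Vs = (w⁻¹ * alt true O * alt true Gs)⁻¹ * r := by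
    rw [← h2]; group
  generalize hA : (alt false N)⁻¹ * (alt true N)⁻¹ * x = A1
  obtain ⟨Bk, hB⟩ : ∃ Bk, Bk = A1 * (alt true O)⁻¹ * A1⁻¹ * (alt false N)⁻¹ := ⟨_, rfl⟩
  obtain ⟨b1, hb⟩ : ∃ b1, b1 = (alt false O)⁻¹ * b := ⟨_, rfl⟩
  obtain ⟨c1, c2⟩ := th_conj l O hO A1 (A1⁻¹ * (alt false N)⁻¹)
  obtain ⟨d1, d2⟩ := th_conj c Vs hV 1 (b1 * Bk)
  refine ⟨(A1⁻¹ * Bk) :: ((alt true O)⁻¹ * b1 * A1⁻¹ * Bk) ::
    ((alt true O)⁻¹ * w * alt false O * alt false Gs * b1 * Bk) ::
    Vs.map fun y => 1 * y * (b1 * Bk), by simp [hV], ?_, ?_⟩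
  · rw [th_app a _ _ hNl, th_app l _ _ (by simpa using hO), th_inv, c1]
    simp only [alt, Bool.not_true, Bool.not_false, cond_true, cond_false, d2, e1]
    rw [hB, hb]
    group
  · rw [th_app a _ _ hNl, th_app l _ _ (by simpa using hO), th_inv, c2]
    simp only [alt, Bool.not_true, Bool.not_false, cond_true, cond_false, d1, e2]
    rw [hB, hb, ← hA, hT, hF]
    group

end Alt

theorem th_split {G : Type} (v : ℕ → G) (h a l c : ℕ) (hh : h = a + l + c) :
    ((List.range (2 * h + 1)).map fun p => v (2 * h - p)) =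
      v (2 * h) :: (((List.range (2 * l)).map fun q => v (2 * h - 1 - q)) ++
        (((List.range (2 * a)).map fun p => v (2 * h - 2 * l - 1 - p)) ++
          (List.range (2 * c)).map fun j => v (2 * h - 2 * l - 2 * a - 1 - j))) := by
  have e : List.range (2 * h) = List.range (2 * l + (2 * a + 2 * c)) := by
    congr 1; omega
  rw [List.range_succ_eq_map, List.map_cons, List.map_map, e, List.range_add, List.range_add,
    List.map_append, List.map_append, List.map_append, List.map_map, List.map_map, List.map_map]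
  refine congrArg₂ _ rfl (congrArg₂ _ ?_ (congrArg₂ _ ?_ ?_)) <;>
    refine List.map_congr_left fun p _ => ?_ <;>
    simp only [Function.comp_apply] <;> congr 1 <;> omega

theorem thSt (hA : AutSt) : ThSt := by
  intro h a l f hh hf
  obtain ⟨c, rfl⟩ : ∃ c, f = c + 1 := ⟨f - 1, by omega⟩
  obtain ⟨h1, h2⟩ := (wlSt (2 * (h + 1)) h (by omega)).1
  rw [th_split (wl (2 * (h + 1)) h) h a l c (by omega)] at h1 h2
  obtain ⟨N, hN⟩ : ∃ N, N = (List.range (2 * a)).map fun p => nn h l p := ⟨_, rfl⟩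
  obtain ⟨R, hR, k1, k2⟩ := th_key l a c _ _ _ N _ (io _ (2 * h)) (io _ (2 * h + 1)) _
    (by simp) (by simp) (by simp) h1 h2 (by
      rw [hN, List.map_map]
      refine List.map_congr_left fun p _ => ?_
      simp only [Function.comp_apply, nn, yy, ww, mul_assoc])
  rw [← Wl_rW, ← List.append_assoc] at k2
  rw [← List.append_assoc] at k1
  obtain ⟨L1, hL1⟩ : ∃ L1, L1 = (N.map fun y => y⁻¹) ++
    (((List.range (2 * l)).map fun q => wl (2 * (h + 1)) h (2 * h - 1 - q)).map fun y =>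
      (alt false N)⁻¹ * (alt true N)⁻¹ * io _ (2 * h) * y *
        (((alt false N)⁻¹ * (alt true N)⁻¹ * io _ (2 * h))⁻¹ * (alt false N)⁻¹)) := ⟨_, rfl⟩
  rw [← hL1] at k1 k2
  have hl : L1.length = 2 * a + 2 * l := by rw [hL1, hN]; simp
  obtain ⟨θ, hθ⟩ := (hA (h + 1)).2.1 (L1 ++ R) (by rw [List.length_append, hl, hR]; omega) k1 k2
  have ht : ((List.range (2 * a + 2 * l)).map fun t =>
      θ.1 (wl _ (h + 1) (2 * (h + 1) - t))) = L1 := by
    have := congrArg (List.take (2 * a + 2 * l)) hθ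
    rwa [← List.map_take, List.take_range, min_eq_left (by omega), List.take_left' hl] at this
  refine ⟨θ, fun φ hφ => ?_⟩
  obtain ⟨K, hK⟩ : ∃ K : Subgroup (FN (2 * (h + 1))), ∀ y, y ∈ K ↔ φ.1 y = y :=
    ⟨φ.1.toMonoidHom.eqLocus (MonoidHom.id _), fun _ => Iff.rfl⟩
  have hNK : ∀ y ∈ N, y ∈ K := by
    intro y hy
    rw [hN] at hy
    obtain ⟨p, hp, rfl⟩ := List.mem_map.1 hy
    exact (hK _).2 (hφ _ (Or.inr (Or.inr ⟨p, List.mem_range.1 hp, rfl⟩)))
  have hx : io _ (2 * h) ∈ K := (hK _).2 (hφ _ (Or.inl rfl))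
  have hF := K.inv_mem (th_mem K N hNK false)
  have hT := K.inv_mem (th_mem K N hNK true)
  have hA1 := K.mul_mem (K.mul_mem hF hT) hx
  have hLK : ∀ y ∈ L1, y ∈ K := by
    intro y hy
    rw [hL1] at hy
    rcases List.mem_append.1 hy with hy | hy
    · obtain ⟨z, hz, rfl⟩ := List.mem_map.1 hy
      exact K.inv_mem (hNK z hz)
    · obtain ⟨z, hz, rfl⟩ := List.mem_map.1 hy
      obtain ⟨q, hq, rfl⟩ := List.mem_map.1 hz
      exact K.mul_mem (K.mul_mem hA1 ((hK _).2 (hφ _ (Or.inr (Or.inl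
        ⟨q, List.mem_range.1 hq, rfl⟩))))) (K.mul_mem (K.inv_mem hA1) hF)
  have key := (hA (h + 1)).2.2 _ (θ⁻¹ * φ * θ).1.toMonoidHom (MonoidHom.id _) (c + 1) (by
    intro j hj hj'
    have hm : θ.1 (wl _ (h + 1) j) ∈ L1 := by
      rw [← ht]
      refine List.mem_map.2 ⟨2 * (h + 1) - j, List.mem_range.2 (by omega), ?_⟩
      rw [show 2 * (h + 1) - (2 * (h + 1) - j) = j by omega]
    have := (hK _).1 (hLK _ hm)
    change θ.1.symm (φ.1 (θ.1 _)) = _
    rw [this, MulEquiv.symm_apply_apply]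
    rfl)
  rintro w ⟨p, hp, rfl⟩
  exact key p hp

end Pool.Agent.MH
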