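import Pool.Agent.Lib.MP_c86c76_al.Th.St
import Pool.Agent.Lib.MP_c86c76_al.Tk.All
import Pool.Agent.Lib.MP_c86c76_al.Tg.All
import Pool.Agent.Lib.MP_c86c76_al.Lo.Res

/-!
The assembly of step three and the conclusion.
-/

set_option autoImplicit false

namespace Pool.Agent.MH

open Pool.Agent.MB Pool.Agent.MG Pool.Agent.MA Pool.Agent.MT
open Pool.Agent.MW hiding FH AFP
open FreeGroup hiding map_mul map_inv map_one

theorem three_af {G K' H : Type} [Group G] [Group K'] [NormedAddCommGroup H]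
    [InnerProductSpace ℂ H] {α : G →* (H ≃ᵃⁱ[ℂ] H)} {K : Subgroup G} (h : AF (α.comp K.subtype))
    (ι : K' →* G) (θ : G) (e : ∀ ψ, ∃ φ ∈ K, α φ = α (θ⁻¹ * ι ψ * θ)) : AF (α.comp ι) := by
  classical
  intro S ε hε
  choose φ m hφ using e
  obtain ⟨x, hx⟩ := h (S.image fun ψ => ⟨φ ψ, m ψ⟩) ε hε
  refine ⟨α θ x, fun s hs => ?_⟩
  have := hx _ (Finset.mem_image_of_mem _ hs)
  have e : α (ι s) (α θ x) = α θ (α (φ s) x) := by
    rw [hφ, ← Function.comp_apply (f := α θ), ← AffineIsometryEquiv.coe_mul, ← map_mul,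
      ← Function.comp_apply (f := α (ι s)), ← AffineIsometryEquiv.coe_mul, ← map_mul]
    congr 2
    group
  change ‖α (ι s) (α θ x) - α θ x‖ < ε
  rwa [e, ← dist_eq_norm, AffineIsometryEquiv.dist_map, dist_eq_norm]

theorem three_mono {g f f' : ℕ} (h : f ≤ f') : Fg g f ≤ Fg g f' := by
  rintro φ m _ ⟨p, a, rfl⟩
  exact m _ ⟨p, by omega, rfl⟩

theorem threeSt (hL : LabSt) (hA : InaSt) (hB : InbSt) (hC : CapSt) : ThreeSt := by
  intro g hg H _ _ _ α hα h2 ρ i c hX i1 i2 hS hc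
  obtain ⟨k, s, ι, hι⟩ := iotAll _ 3 _ i _ ρ hX i1 i2 hS
  refine ⟨k, s, ι, hι, ML.resLoc _ ?_⟩
  by_cases e : i ≤ 3
  · obtain ⟨θ, hθ⟩ := MK.outSt MK.hurSt MK.zedSt MK.blkSt g ρ c (by omega) hX
      fun p h1 h2 => hc p (by omega) h2
    refine three_af h2 ι θ fun ψ => ⟨_, ?_, rfl⟩
    rintro _ ⟨p, a, rfl⟩
    exact hθ (ι ψ) (fun p hp => (hι.2.2 ψ).2.2.2 p (by omega)) _ ⟨p, by omega, rfl⟩
  · obtain ⟨a, rfl⟩ : ∃ a, i = 2 * a + 1 := ⟨i / 2, by omega⟩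
    obtain ⟨θ, hθ⟩ := hA g _ ρ hX i1 (by omega) fun p hp => hS.1 p (by omega)
    obtain ⟨θ', hθ'⟩ := hB g a (g - a) (by omega)
    refine three_af h2 ι (θ * θ') fun ψ => ?_
    obtain ⟨φ, m, e⟩ := hC g (g - a) (by omega) _
      (hθ' _ (hθ _ (hL _ 3 _ _ _ ρ k s ι i2 hι ψ)))
    refine ⟨φ, three_mono (by omega) m, ?_⟩
    rw [← mul_inv_eq_one, ← map_inv, ← map_mul]
    refine hα _ ?_
    rw [map_mul, map_inv, mul_inv_eq_one, e, mul_inv_rev]
    simp only [mul_assoc]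

theorem finSt (h2 : TwoSt) (h3 : ThreeSt) : FinSt := by
  intro hF g hg H _ _ _ α
  refine AF.of_comp (toMod g).rangeRestrict (toMod g).rangeRestrict_surjective ?_
  rcases hg.eq_or_lt with rfl | h6
  · intro S ε hε
    obtain ⟨x, hx⟩ := hF H (α.comp (toMod 5).rangeRestrict)
    exact ⟨x, fun s _ => by rw [hx, sub_self, norm_zero]; exact hε⟩
  · refine MK.stepAll g (by omega) H _ (h3 g h6 H _ (fun φ e => ?_) (h2 hF g hg H _))
    rw [MonoidHom.comp_apply, show (toMod g).rangeRestrict φ = 1 from Subtype.ext e, map_one]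

end Pool.Agent.MH
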