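import Pool.Agent.Lib.MP_c86c76_al.Th.St
import Pool.Agent.Lib.MP_c86c76_al.Tg.TwA
import Pool.Agent.Lib.MP_c86c76_al.Tg.TwB
import Pool.Agent.Lib.MP_c86c76_al.Tg.Gam

/-!
Twists are lifts of braids of the annulus.
-/

set_option autoImplicit false

namespace Pool.Agent.MH

open Pool.Agent.MB Pool.Agent.MG Pool.Agent.MA Pool.Agent.MT
open Pool.Agent.MW hiding FH AFP
open Pool.Agent.MK (Fx Iot HL)
open Pool.Agent.ML (IsT inS)
open FreeGroup hiding map_mul map_inv map_one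

variable {h : ℕ}

theorem tw_in_be (l : ℕ) : inG h (be (2 * h + 1) h l) = be (2 * (h + 1)) h l := by
  rw [be, be, map_list_prod, List.map_map]
  refine congrArg _ (List.map_congr_left fun j hj => ?_)
  have := List.mem_range'_1.1 hj
  exact Gam_in_low (by omega)

theorem tw_in_wl {j : ℕ} (hj : j ≤ 2 * h) : inG h (wl (2 * h + 1) h j) = ww h j := by
  rcases twB_cases j with rfl | ⟨k, rfl⟩ | ⟨k, rfl⟩
  · exact tw_in_be 0
  · rw [ww, twB_odd, twB_odd, map_mul, map_mul, map_inv, tw_in_be, Gam_in_low (by omega),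
      Gam_in_low (by omega)]
  · rw [ww, twB_even, twB_even, map_mul, map_inv, tw_in_be, Gam_in_low (by omega)]

theorem tw_re_be (l : ℕ) : reG h (be (2 * (h + 1)) h l) = be (2 * h + 1) h l := by
  rw [← tw_in_be, Gam_re_in]

theorem tw_re_wl {j : ℕ} (hj : j ≤ 2 * h) : reG h (ww h j) = wl (2 * h + 1) h j := by
  rw [← tw_in_wl hj, Gam_re_in]

theorem tw_fb (ψ : Gam h) {j : ℕ} (hj : j ≤ 2 * h) :
    fb ψ⁻¹ (wl (2 * h + 1) h j) = reG h (ψ.1⁻¹ (ww h j)) := by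
  rw [← tw_in_wl hj]
  rfl

theorem tw_rB_io {p : ℕ} (h1 : 3 ≤ p) (h2 : p ≤ 2 * h + 2) :
    rB h (io _ p) = Ed 0 (wl (2 * h + 1) h (2 * h + 2 - p)) := by
  rw [rB, MonoidHom.comp_apply, lift_rt_io (by omega) h1 (by omega), rhoW, lift_io _ (by omega),
    if_neg (by simp only; omega), if_pos (by simp only; omega)]
  exact congrArg (fun j => Ed 0 (wl (2 * h + 1) h j)) (by simp only; omega)

theorem tw_rB_top : rB h (io _ (2 * h + 3)) = Ed 2 1 := by
  rw [rB, MonoidHom.comp_apply, lift_rt_io (by omega) (by omega) (by omega), rhoW,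
    lift_io _ (by omega), if_neg (by simp only; omega), if_neg (by simp only; omega)]

theorem tw_rB_bl : rB h (bl _ 0 3) = ⟨tau 0,
    ![1, wl (2 * h + 1) h (2 * h), io (2 * h + 1) (2 * h) * (wl (2 * h + 1) h (2 * h))⁻¹]⟩ := by
  rw [rB, MonoidHom.comp_apply, lift_rt_bl' (by omega) (by omega), lift_rho0]

theorem tw_inv {n : ℕ} {φ : MulAut (FN n)} {x y : FN n} (e : φ x = y) : φ⁻¹ y = x := by
  rw [← e]
  exact φ.symm_apply_apply x

theorem tw_core (β : BL (2 * h + 3 + 1)) (ψ : Gam h) (hL : Loc0 _ 3 (3 + 2 * h + 1) β.1 1)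
    (ha : ψ.1 (io _ (2 * h)) = io _ (2 * h)) (hb : ψ.1 (io _ (2 * h + 1)) = io _ (2 * h + 1))
    (hw : ψ.1 (ww h (2 * h)) = ww h (2 * h))
    (hx : ∀ p, 3 ≤ p → p ≤ 2 * h + 3 → rB h (β.1 (io _ p)) = Wr.map (fb ψ⁻¹) (rB h (io _ p))) :
    L h β ψ⁻¹ := by
  have e1 : fb ψ⁻¹ (wl (2 * h + 1) h (2 * h)) = wl (2 * h + 1) h (2 * h) := by
    rw [tw_fb ψ le_rfl, tw_inv hw, tw_re_wl le_rfl]
  have e2 : fb ψ⁻¹ (io (2 * h + 1) (2 * h)) = io (2 * h + 1) (2 * h) := by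
    change reG h (ψ.1⁻¹ (inG h _)) = _
    rw [tw_inv (x := inG h (io _ (2 * h))) (by
      rw [Gam_in_top, map_mul, map_mul, map_inv, map_inv, ha, hb]), Gam_re_in]
  have e3 : uu ψ⁻¹ = 1 := by
    change reG h (ψ.1⁻¹ _) = _
    rw [tw_inv hb, Gam_re_b]
  refine ⟨1, hL, fun x hx' => ?_, by rw [map_one]; rfl, by rw [map_one, e3]; rfl⟩
  induction hx' using Subgroup.closure_induction with
  | mem x k =>
    rcases k with rfl | ⟨p, h1, h2, rfl⟩
    · rw [show β.1 (bl _ 0 3) = 1 * bl _ 0 3 * 1⁻¹ from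
        bl_conj β.1.toMonoidHom (MonoidHom.id _) 1 hL.2.1, one_mul, inv_one, mul_one, tw_rB_bl]
      refine twA_wr_ext rfl (map_one _).symm e1.symm ?_
      change _ * _ = fb ψ⁻¹ (_ * _)
      rw [map_mul, map_inv, e1, e2]
    · exact hx p h1 (by omega)
  | one => simp
  | mul x y _ _ a b => rw [map_mul, map_mul, map_mul, map_mul, a, b]
  | inv x _ a => rw [map_inv, map_inv, map_inv, map_inv, a]

theorem tw_io_mem {m i j p : ℕ} (h1 : i ≤ p) (h2 : p < j) : io m p ∈ EA m i j :=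
  Subgroup.subset_closure (Or.inr ⟨p, h1, h2, rfl⟩)

theorem tw_bl_mem {m i j k : ℕ} (hk : i ≤ k) : ∀ l, k ≤ l → l ≤ j → bl m k l ∈ EA m i j := by
  intro l hl
  induction l, hl using Nat.le_induction with
  | base => intro _; rw [bl_self]; exact one_mem _
  | succ l hl ih =>
    intro hj
    rw [bl_succ _ hl]
    exact mul_mem (ih (by omega)) (tw_io_mem (by omega) (by omega))

theorem tw_io_big {m p : ℕ} (hp : m ≤ p) : io m p = 1 := dif_neg (by omega)

theorem tw_block : ∀ l, l < h →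
    (rB h (bl _ (2 * h + 2 - 2 * l) (2 * h + 3))).p = tau 0 ∧
    (rB h (bl _ (2 * h + 2 - 2 * l) (2 * h + 3))).l 0 = 1 ∧
    (rB h (bl _ (2 * h + 2 - 2 * l) (2 * h + 3))).l 1 = be (2 * h + 1) h l := by
  intro l
  induction l with
  | zero =>
    intro _
    rw [twA_bl_cons _ (by omega), show 2 * h + 2 - 2 * 0 + 1 = 2 * h + 3 by omega, bl_self, mul_one,
      tw_rB_io (by omega) (by omega), show 2 * h + 2 - (2 * h + 2 - 2 * 0) = 0 by omega,
      twA_wl_zero]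
    exact ⟨rfl, rfl, rfl⟩
  | succ l ih =>
    intro hl
    obtain ⟨a, b, c⟩ := ih (by omega)
    rw [twA_bl_cons _ (by omega),
      twA_bl_cons _ (by omega : 2 * h + 2 - 2 * (l + 1) + 1 < 2 * h + 3),
      show 2 * h + 2 - 2 * (l + 1) + 1 + 1 = 2 * h + 2 - 2 * l by omega, map_mul, map_mul,
      tw_rB_io (by omega) (by omega), tw_rB_io (by omega) (by omega),
      show 2 * h + 2 - (2 * h + 2 - 2 * (l + 1)) = 2 * l + 2 by omega,
      show 2 * h + 2 - (2 * h + 2 - 2 * (l + 1) + 1) = 2 * l + 1 by omega, twA_wl_even, twA_wl_odd]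
    refine ⟨?_, ?_, ?_⟩
    · simp only [Wr.mul_p, twA_Ed_p, a, twA_tau0_sq, mul_one]
    · simp only [Wr.mul_p, Wr.mul_l, twA_Ed_p, a, b, twA_tau0_sq, twA_tau00, twA_Ed00, mul_one,
        Equiv.Perm.coe_one, id]
    · simp only [Wr.mul_p, Wr.mul_l, twA_Ed_p, a, c, twA_tau0_sq, twA_tau01, twA_Ed01, twA_Ed02,
        Equiv.Perm.coe_one, id]
      rw [twA_be_cons _ (by omega : l < h)]
      group

theorem tw_even (i : ℕ) (hi : i < h) :
    (rB h (bl _ (2 * h + 1 - 2 * i) (2 * h + 3))).p = 1 ∧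
    (rB h (bl _ (2 * h + 1 - 2 * i) (2 * h + 3))).l 0 = 1 ∧
    (rB h (bl _ (2 * h + 1 - 2 * i) (2 * h + 3))).l 1 =
      (be (2 * h + 1) h (i + 1))⁻¹ * io (2 * h + 1) (2 * i) * be (2 * h + 1) h (i + 1) := by
  obtain ⟨a, b, c⟩ := tw_block i hi
  rw [twA_bl_cons _ (by omega), show 2 * h + 1 - 2 * i + 1 = 2 * h + 2 - 2 * i by omega, map_mul,
    tw_rB_io (by omega) (by omega), show 2 * h + 2 - (2 * h + 1 - 2 * i) = 2 * i + 1 by omega,
    twA_wl_odd]
  refine ⟨?_, ?_, ?_⟩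
  · simp only [Wr.mul_p, twA_Ed_p, a, twA_tau0_sq]
  · simp only [Wr.mul_l, a, b, twA_tau00, twA_Ed00, mul_one]
  · simp only [Wr.mul_l, a, c, twA_tau01, twA_Ed02]
    rw [twA_be_cons _ hi]
    group

theorem tw_A (i : ℕ) (ψ : Gam h) (hi : i < h) (k : IsA _ i ψ.1) :
    L h (MM (2 * h + 3) (2 * h + 1 - 2 * i) ^ 2) ψ⁻¹ := by
  obtain ⟨m1, m2, m3⟩ := twA_M_sq (MM_isM (N := 2 * h + 3) (k := 2 * h + 1 - 2 * i) (by omega))
    (by omega)
  obtain ⟨a, b, c⟩ := tw_even i hi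
  have y1 : bl (2 * h + 3 + 1) (2 * h + 1 - 2 * i) (2 * h + 3) ∈ EA _ 3 (3 + 2 * h + 1) :=
    tw_bl_mem (by omega) _ (by omega) (by omega)
  have y2 : io (2 * h + 3 + 1) (2 * h + 3) ∈ EA _ 3 (3 + 2 * h + 1) :=
    tw_io_mem (by omega) (by omega)
  refine tw_core _ ψ ⟨one_mem _, fun p hp => ?_, fun p h1 h2 => ?_, fun p hp => ?_⟩
    (k.2 _ (by omega)) (k.2 _ (by omega)) (twA_wl_hi k (by omega)) fun p h1 h2 => ?_
  · rw [one_mul, inv_one, mul_one]
    exact m1 p (by omega)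
  · by_cases e1 : p < 2 * h + 1 - 2 * i
    · exact ⟨p, 1, h1, h2, one_mem _, by rw [one_mul, inv_one, mul_one]; exact m1 p e1⟩
    by_cases e2 : p < 2 * h + 3
    · exact ⟨p, _, h1, h2, inv_mem (mul_mem (mul_mem (mul_mem (inv_mem y1) y2) y1) y2),
        by rw [inv_inv]; exact m2 p (by omega) e2⟩
    · obtain rfl : p = 2 * h + 3 := by omega
      exact ⟨_, _, h1, h2, inv_mem (mul_mem (mul_mem y1 y2) (mul_mem y1 y2)),
        by rw [inv_inv]; exact m3⟩
  · rw [tw_io_big (by omega), map_one]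
  · change rB h (((MM (2 * h + 3) (2 * h + 1 - 2 * i)).1 ^ 2) _) = _
    by_cases e1 : p < 2 * h + 1 - 2 * i
    · rw [m1 p e1, tw_rB_io h1 (by omega), twA_map_Ed, tw_fb ψ (by omega),
        twA_inv_hi k (by omega), tw_re_wl (by omega)]
    by_cases e2 : p < 2 * h + 3
    · rw [m2 p (by omega) e2]
      simp only [map_mul, map_inv]
      rw [tw_rB_top, tw_rB_io h1 (by omega), twA_map_Ed, twA_conj_lo _ a b, c, tw_fb ψ (by omega),
        twA_inv_lo k hi (by omega)]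
      simp only [map_mul, map_inv]
      rw [tw_re_wl (by omega), tw_re_be, Gam_re_low (by omega)]
    · obtain rfl : p = 2 * h + 3 := by omega
      rw [m3]
      simp only [map_mul, map_inv]
      rw [tw_rB_top, twA_map_Ed, map_one, twA_conj_top _ a b]

theorem tw_S (j p : ℕ) (ψ : Gam h) (β : BL (2 * h + 3 + 1)) (hp : p + j + 1 = 2 * h + 2)
    (hp3 : 3 ≤ p) (ha : ψ.1 (io _ (2 * h)) = io _ (2 * h))
    (hb : ψ.1 (io _ (2 * h + 1)) = io _ (2 * h + 1)) (h1 : ψ.1 (ww h (j + 1)) = ww h j)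
    (h2 : ψ.1 (ww h j) = ww h j * (ww h (j + 1))⁻¹ * ww h j)
    (h3 : ∀ l, l ≠ j → l ≠ j + 1 → ψ.1 (ww h l) = ww h l) (hβ : IsS _ p β.1) : L h β ψ⁻¹ := by
  have e1 : rB h (io _ p) = Ed 0 (wl _ h (j + 1)) := by
    rw [tw_rB_io hp3 (by omega), show 2 * h + 2 - p = j + 1 by omega]
  have e2 : rB h (io _ (p + 1)) = Ed 0 (wl _ h j) := by
    rw [tw_rB_io (by omega) (by omega), show 2 * h + 2 - (p + 1) = j by omega]
  have h4 : ψ.1 (ww h (j + 1) * (ww h j)⁻¹ * ww h (j + 1)) = ww h (j + 1) := by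
    rw [map_mul, map_mul, map_inv, h1, h2]
    group
  refine tw_core _ ψ ⟨one_mem _, fun q hq => ?_, fun q k1 k2 => ?_, fun q hq => ?_⟩ ha hb
    (h3 _ (by omega) (by omega)) fun q k1 k2 => ?_
  · rw [one_mul, inv_one, mul_one]
    exact hβ.2.2 q (by omega) (by omega)
  · by_cases a : q = p
    · exact ⟨p + 1, io _ p, by omega, by omega, tw_io_mem hp3 (by omega), by rw [a, hβ.1]⟩
    by_cases b : q = p + 1
    · exact ⟨p, 1, hp3, by omega, one_mem _, by rw [b, hβ.2.1, one_mul, inv_one, mul_one]⟩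
    · exact ⟨q, 1, k1, k2, one_mem _, by rw [hβ.2.2 q a b, one_mul, inv_one, mul_one]⟩
  · exact hβ.2.2 q (by omega) (by omega)
  · by_cases a : q = p
    · rw [a, hβ.1, map_mul, map_mul, map_inv, e1, e2, twB_conj, twB_map, tw_fb ψ (by omega),
        tw_inv h4, map_mul, map_mul, map_inv, tw_re_wl (by omega), tw_re_wl (by omega)]
    by_cases b : q = p + 1
    · rw [b, hβ.2.1, e1, e2, twB_map, tw_fb ψ (by omega), tw_inv h1, tw_re_wl (by omega)]
    rw [hβ.2.2 q a b]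
    by_cases c : q ≤ 2 * h + 2
    · rw [tw_rB_io k1 c, twB_map, tw_fb ψ (by omega), tw_inv (h3 _ (by omega) (by omega)),
        tw_re_wl (by omega)]
    · rw [show q = 2 * h + 3 by omega, tw_rB_top, twB_map, map_one]

theorem tw_Bw {n g i : ℕ} {φ : MulAut (FN n)} (k : IsB n i φ) :
    φ (wl n g (2 * i + 1 + 1)) = wl n g (2 * i + 1) ∧
    φ (wl n g (2 * i + 1)) = wl n g (2 * i + 1) * (wl n g (2 * i + 1 + 1))⁻¹ * wl n g (2 * i + 1) ∧
    ∀ l, l ≠ 2 * i + 1 → l ≠ 2 * i + 1 + 1 → φ (wl n g l) = wl n g l := by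
  have hb : ∀ k', φ (io _ (2 * k' + 1)) = io _ (2 * k' + 1) := fun k' => k.2 _ (by omega)
  have he : ∀ l, φ (be _ g l) = be _ g l := fun l => twB_fix φ fun k' _ => hb k'
  refine ⟨?_, ?_, fun l a b => ?_⟩
  · rw [twB_even, twB_odd, map_mul, map_inv, k.1, he]
    group
  · rw [twB_even, twB_odd, map_mul, map_mul, map_inv, k.1, he, hb]
    group
  · rcases twB_cases l with rfl | ⟨q, rfl⟩ | ⟨q, rfl⟩
    · exact he 0
    · rw [twB_odd, map_mul, map_mul, map_inv, he, hb, k.2 (2 * q) (by omega)]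
    · rw [twB_even, map_mul, map_inv, he, k.2 (2 * q) (by omega)]

theorem tw_Cw {n g i : ℕ} {φ : MulAut (FN n)} (hi : i + 1 < g) (k : IsC n i φ) :
    φ (wl n g (2 * i + 1 + 1 + 1)) = wl n g (2 * i + 1 + 1) ∧
    φ (wl n g (2 * i + 1 + 1)) =
      wl n g (2 * i + 1 + 1) * (wl n g (2 * i + 1 + 1 + 1))⁻¹ * wl n g (2 * i + 1 + 1) ∧
    ∀ l, l ≠ 2 * i + 1 + 1 → l ≠ 2 * i + 1 + 1 + 1 → φ (wl n g l) = wl n g l := by
  obtain ⟨c3, c0, c1, cr⟩ := k
  have hi2 : ∀ l, i + 2 ≤ l → φ (be _ g l) = be _ g l := fun l hl =>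
    twB_fix φ fun k hk => cr _ (by omega) (by omega) (by omega)
  have s1 : be n g (i + 1) = io _ (2 * i + 3) * be _ g (i + 2) := twB_be _ hi
  have h1 : φ (be _ g (i + 1)) = (cc _ i)⁻¹ * be _ g (i + 1) := by
    rw [s1, map_mul, c3, hi2 _ le_rfl, mul_assoc]
  have h0 : ∀ d l, l + d = i → φ (be _ g l) = be _ g l := by
    intro d
    induction d with
    | zero =>
      rintro l rfl
      rw [twB_be _ (by omega), map_mul]
      simp only [Nat.add_zero] at h1 c1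
      rw [h1, c1]
      group
    | succ d ih =>
      intro l hl
      rw [twB_be _ (by omega), map_mul, ih (l + 1) (by omega),
        cr _ (by omega) (by omega) (by omega)]
  have he : ∀ l, l ≠ i + 1 → φ (be _ g l) = be _ g l := fun l hl => by
    by_cases q : l ≤ i
    · exact h0 (i - l) l (by omega)
    · exact hi2 l (by omega)
  have o3 : wl n g (2 * i + 1 + 1 + 1) =
      io _ (2 * i + 3) * (io _ (2 * i + 2))⁻¹ * be _ g (i + 2) := twB_odd _ g (i + 1)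
  refine ⟨?_, ?_, fun l a b => ?_⟩
  · rw [o3, twB_even, map_mul, map_mul, map_inv, c3, hi2 _ le_rfl,
      cr (2 * i + 2) (by omega) (by omega) (by omega), s1, cc]
    group
  · rw [o3, twB_even, map_mul, map_inv, c0, h1, s1, cc]
    group
  · rcases twB_cases l with rfl | ⟨k, rfl⟩ | ⟨k, rfl⟩
    · exact he 0 (by omega)
    · by_cases q : k = i
      · rw [q, twB_odd, map_mul, map_mul, map_inv, c0, c1, h1]
        group
      · rw [twB_odd, map_mul, map_mul, map_inv, he _ (by omega),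
          cr (2 * k) (by omega) (by omega) (by omega),
          cr (2 * k + 1) (by omega) (by omega) (by omega)]
    · rw [twB_even, map_mul, map_inv, he _ (by omega),
        cr (2 * k) (by omega) (by omega) (by omega)]

theorem twSt : TwSt := by
  intro h i ψ
  refine ⟨tw_A i ψ, fun β hi => ⟨fun k hβ => ?_, fun k hβ => ?_⟩⟩
  · obtain ⟨a, b, c⟩ := tw_Bw (g := h) k
    exact tw_S (2 * i + 1) _ ψ β (by omega) (by omega) (k.2 _ (by omega)) (k.2 _ (by omega))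
      a b c hβ
  · obtain ⟨a, b, c⟩ := tw_Cw hi k
    exact tw_S (2 * i + 1 + 1) _ ψ β (by omega) (by omega)
      (k.2.2.2 _ (by omega) (by omega) (by omega)) (k.2.2.2 _ (by omega) (by omega) (by omega))
      a b c hβ

end Pool.Agent.MH
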