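import Pool.Agent.Lib.MP_c86c76_al.Th.St
import Pool.Agent.Lib.MP_c86c76_al.Tg.All

/-!
The assembly of step two.
-/

set_option autoImplicit false

namespace Pool.Agent.MH

open Pool.Agent.MB Pool.Agent.MG Pool.Agent.MA Pool.Agent.MT
open Pool.Agent.MW hiding FH AFP
open Pool.Agent.ML (inS)
open FreeGroup hiding map_mul map_inv map_one

theorem two_cos {B G T : Type} [Group B] [Group G] [Finite T] (R : B → G → Prop) (c : B → T)
    (h1 : R 1 1) (hm : ∀ β γ ψ ψ', R β ψ → R γ ψ' → R (β * γ) (ψ * ψ'))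
    (hi : ∀ β ψ, R β ψ → R β⁻¹ ψ⁻¹) (hu : ∀ β ψ ψ', R β ψ → R β ψ' → ψ = ψ')
    (hc : ∀ β γ, c β = c γ → ∃ ψ, R (β * γ⁻¹) ψ) :
    ∃ (T : Type) (_ : Finite T) (act : T → B → T) (Φ : T → B → G) (δ : T → B) (t0 : T),
      (∀ t, act t 1 = t) ∧ (∀ t β γ, act t (β * γ) = act (act t β) γ) ∧
      (∀ t β γ, Φ t (β * γ) = Φ t β * Φ (act t β) γ) ∧
      (∀ t β, act t β = t → R ((δ t)⁻¹ * β * δ t) (Φ t β)) ∧
      ∀ β ψ, R β ψ → act t0 β = t0 ∧ Φ t0 β = ψ := by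
  classical
  let K : Subgroup B :=
    { carrier := {β | ∃ ψ, R β ψ}
      one_mem' := ⟨1, h1⟩
      mul_mem' := fun ⟨_, a⟩ ⟨_, b⟩ => ⟨_, hm _ _ _ _ a b⟩
      inv_mem' := fun ⟨_, a⟩ => ⟨_, hi _ _ a⟩ }
  have fin : Finite (B ⧸ K) := Finite.of_injective (fun q => c q.out⁻¹) fun p q e => by
    rw [← QuotientGroup.out_eq' p, ← QuotientGroup.out_eq' q]
    have := hc _ _ e
    rw [inv_inv] at this
    exact QuotientGroup.eq.2 this
  obtain ⟨δ, hδ, d0⟩ : ∃ δ : B ⧸ K → B, (∀ t, (δ t : B ⧸ K) = t) ∧ δ (1 : B) = 1 := by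
    refine ⟨fun t => if t = (1 : B) then 1 else t.out, fun t => ?_, if_pos rfl⟩
    by_cases e : t = (1 : B)
    · simp only [if_pos e]
      exact e.symm
    · simp only [if_neg e]
      exact QuotientGroup.out_eq' t
  have ex : ∀ t β, ∃ ψ, R ((δ t)⁻¹ * β * δ (β⁻¹ • t)) ψ := fun t β => by
    have : (δ t)⁻¹ * (β * δ (β⁻¹ • t)) ∈ K := QuotientGroup.eq.1 (by
      rw [hδ]
      change t = β • (δ _ : B ⧸ K)
      rw [hδ, smul_inv_smul])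
    rwa [← mul_assoc] at this
  choose Φ hΦ using ex
  refine ⟨_, fin, fun t β => β⁻¹ • t, Φ, δ, (1 : B), fun t => by simp, fun t β γ => by
    simp [mul_smul], fun t β γ => hu _ _ _ (hΦ t (β * γ)) ?_, fun t β e => ?_, fun β ψ h => ?_⟩
  · have := hm _ _ _ _ (hΦ t β) (hΦ (β⁻¹ • t) γ)
    rw [mul_inv_rev, mul_smul]
    convert this using 1
    group
  · have := hΦ t β
    rwa [show β⁻¹ • t = t from e] at this
  · have e : β⁻¹ • ((1 : B) : B ⧸ K) = (1 : B) := by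
      change ((β⁻¹ * 1 : B) : B ⧸ K) = _
      exact QuotientGroup.eq.2 (by simpa using ⟨ψ, h⟩)
    refine ⟨e, hu β _ _ ?_ h⟩
    have := hΦ (1 : B) β
    rwa [e, d0, inv_one, one_mul, mul_one] at this

theorem twoSt (hL : LSt) (hB : BrSt) (hE : ElSt) (hN : NbSt) : TwoSt := by
  intro hF g hg H _ _ _ α S ε hε
  classical
  obtain ⟨h, rfl⟩ : ∃ h, g = h + 1 := ⟨g - 1, by omega⟩
  obtain ⟨-, -, -, lu, l1, lm, li, T', _, c, hc⟩ := hL h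
  obtain ⟨T, _, act, Φ, δ, t0, a1, am, pm, hd, h0⟩ := two_cos (fun β : Bh h => L h β.1) c l1
    (fun β γ => lm β.1 γ.1) (fun β => li β.1 β.2) (fun β => lu β.1) hc
  obtain ⟨H', _, _, _, a, e, hfix, hle⟩ := indSt _ _ T act Φ a1 am pm H (α.comp (inS h))
  obtain ⟨b1, b2, b3⟩ := hB (2 * h + 3) (3 + 2 * h + 1) (by omega) (by omega)
  obtain ⟨M, hM⟩ : ∃ M : ℕ → Bh h, ∀ k, (k = 0 ∨ 3 ≤ k) → k ≤ 2 * h + 3 → (M k).1 = MM _ k :=
    ⟨fun k => if q : (k = 0 ∨ 3 ≤ k) ∧ k ≤ 2 * h + 3 then ⟨_, b1 k q.1 q.2⟩ else 1,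
      fun k p q => by simp only [dif_pos (And.intro p q)]⟩
  have main := b3 H' a M hM fun k k1 k2 => by
    obtain ⟨v, hv⟩ := hfix ((Loc _ k (min (k + 3) (2 * h + 3 + 1))).subgroupOf (Bh h)) fun t => by
      obtain ⟨x, hx⟩ := hE hF h k (min (k + 3) (2 * h + 3 + 1)) (by omega) k1 (by omega) (by omega)
        (by omega) H α (δ t)⁻¹.1 (δ t)⁻¹.2
      refine ⟨x, fun β hβ e => hx β.1 hβ _ ?_⟩
      have := hd t β e
      rwa [Subgroup.coe_inv, inv_inv]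
    obtain ⟨η, m, hη⟩ := b2 k k1 k2
    refine ⟨a ⟨η, m⟩ v, fun l l1 l2 l3 => ?_⟩
    have := hv ((⟨η, m⟩ : Bh h)⁻¹ * ((M 0)⁻¹ * M l) * ⟨η, m⟩) (by
      rw [Subgroup.mem_subgroupOf]
      simp only [Subgroup.coe_mul, Subgroup.coe_inv, hM 0 (Or.inl rfl) (by omega),
        hM l (Or.inr (by omega)) l2]
      exact (lcaSt _ k (l + 1) (by omega) (by omega)).1 k _ le_rfl (by omega) (hη l l1 l2))
    generalize (⟨η, m⟩ : Bh h) = η at this ⊢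
    have e2 : M 0 * η * (η⁻¹ * ((M 0)⁻¹ * M l) * η) = M l * η := by group
    calc a (M 0) (a η v) = a (M 0 * η) (a (η⁻¹ * ((M 0)⁻¹ * M l) * η) v) := by
          rw [this, map_mul]; rfl
      _ = a (M 0 * η * (η⁻¹ * ((M 0)⁻¹ * M l) * η)) v := by rw [map_mul a (_ * η)]; rfl
      _ = _ := by rw [e2, map_mul]; rfl
  have wd : ∀ s : Fg (h + 1) (h + 1 - 2), ∃ C : ℝ, 0 ≤ C ∧ ∀ v (d : ℝ),
      (∀ k, (k = 0 ∨ 3 ≤ k) → k ≤ 2 * h + 3 → ‖a (M k) v - v‖ ≤ d) → 0 ≤ d →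
      ‖α s.1 (e t0 v) - e t0 v‖ ≤ C * d := by
    intro s
    obtain ⟨ψ, e0, β, hβ, hl⟩ := hN h (by omega) s.1 s.2
    have : FT (2 * h + 3) ≤ (Subgroup.closure
        {β | ∃ k, (k = 0 ∨ 3 ≤ k) ∧ k ≤ 2 * h + 3 ∧ β = M k}).map (Bh h).subtype :=
      (Subgroup.closure_le _).2 (by
        rintro _ ⟨k, p, q, rfl⟩
        exact ⟨M k, Subgroup.subset_closure ⟨k, p, q, rfl⟩, hM k p q⟩)
    obtain ⟨β, m, rfl⟩ := this hβ
    obtain ⟨C, c0, hC⟩ := step_word a _ m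
    obtain ⟨e1, e2⟩ := h0 β ψ hl
    refine ⟨C, c0, fun v d hv h0 => ?_⟩
    rw [← e0, ← e2]
    exact (hle t0 β v e1).trans (hC v d (by rintro _ ⟨k, p, q, rfl⟩; exact hv k p q) h0)
  choose C c0 hC using wd
  have s0 : 0 ≤ ∑ s ∈ S, C s := Finset.sum_nonneg fun s _ => c0 s
  obtain ⟨v, hv⟩ := main (ε / (∑ s ∈ S, C s + 1)) (by positivity)
  refine ⟨e t0 v, fun s hs =>
    (hC s v _ (fun k p q => (hv k p q).le) (by positivity)).trans_lt ?_⟩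
  have := Finset.single_le_sum (fun s _ => c0 s) hs
  rw [mul_div_assoc', div_lt_iff₀ (by positivity)]
  nlinarith

end Pool.Agent.MH
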