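import Pool.Agent.Lib.MP_c86c76_al.Th.Aut
import Pool.Agent.Lib.MP_c86c76_al.Th.Br
import Pool.Agent.Lib.MP_c86c76_al.Th.Cab
import Pool.Agent.Lib.MP_c86c76_al.Th.Cap
import Pool.Agent.Lib.MP_c86c76_al.Th.Del
import Pool.Agent.Lib.MP_c86c76_al.Th.El
import Pool.Agent.Lib.MP_c86c76_al.Th.Inb
import Pool.Agent.Lib.MP_c86c76_al.Th.L
import Pool.Agent.Lib.MP_c86c76_al.Th.Lab
import Pool.Agent.Lib.MP_c86c76_al.Th.Nb
import Pool.Agent.Lib.MP_c86c76_al.Th.Nf
import Pool.Agent.Lib.MP_c86c76_al.Th.Pl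
import Pool.Agent.Lib.MP_c86c76_al.Th.Th
import Pool.Agent.Lib.MP_c86c76_al.Th.Three
import Pool.Agent.Lib.MP_c86c76_al.Th.Tw
import Pool.Agent.Lib.MP_c86c76_al.Th.Two

/-!
From genus five with one boundary circle to all closed surfaces of genus at least five.
-/

set_option autoImplicit false

namespace Pool.Agent.MH

theorem brAll : BrSt := brSt cabSt

theorem elAll : ElSt := elSt exSt lSt nfSt delSt (plSt lSt) (thSt autSt)

theorem twoAll : TwoSt := twoSt lSt brAll elAll (nbSt exSt lSt brAll twSt)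

theorem threeAll : ThreeSt := threeSt labSt inaSt (inbSt autSt) (capSt autSt)

/-- Fixed points in genus five give almost fixed points in all larger genera. -/
theorem fin : FinSt := finSt twoAll threeAll

end Pool.Agent.MH
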