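import Pool.Agent.Lib.MP_c86c76_al.Th.St
import Pool.Agent.Lib.MP_c86c76_al.N.Surj
import Pool.Agent.Lib.MP_c86c76_al.Lo.All
import Pool.Agent.Lib.MP_c86c76_al.Tg.Wl
import Pool.Agent.Lib.MP_c86c76_al.Tg.Iot

/-!
Automorphisms that fix the boundary word, and new handles.
-/

set_option autoImplicit false

namespace Pool.Agent.MH

open Pool.Agent.MB Pool.Agent.MG Pool.Agent.MA Pool.Agent.MT
open Pool.Agent.MW hiding FH AFP
open Pool.Agent.MK (Fx Iot HL)
open Pool.Agent.ML (IsT inS exS)
open FreeGroup hiding map_mul map_inv map_one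

theorem aut_null (n g : ℕ) : MN.Null (ev n (rW g)) := fun a => by
  induction g with
  | zero => exact MN.ch_one a
  | succ g ih =>
    rw [Wl_rW]
    simp only [MN.ch_mul, MN.ch_inv, ih]
    ring

theorem aut_one (g : ℕ) (f : FN (2 * g) →* FN (2 * g)) (h : f (ev _ (rW g)) = ev _ (rW g)) :
    ∃ θ : St g, ∀ x, θ.1 x = f x := by
  obtain ⟨-, -, c, hc⟩ := rwASt (2 * g) g rfl
  have hr : c.r = ev (2 * g) (rW g) := by rw [Ctx.r, hc, Raw_ev]
  have s := MN.surjSt _ c f _ (aut_null _ g) (h.trans hr.symm)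
  exact ⟨⟨MulEquiv.ofBijective f ⟨MN.hopfSt _ f s, s⟩, h⟩, fun _ => rfl⟩

theorem aut_alt {G G' : Type} [Group G] [Group G'] (f : G →* G') (e : Bool) (v : List G) :
    f (alt e v) = alt e (v.map f) := by
  induction v generalizing e with
  | nil => exact map_one f
  | cons x t ih => cases e <;> simp [alt, ih]

theorem aut_list {G : Type} [Group G] (n : ℕ) (v : List G) (hv : v.length = n + 1) :
    ((List.range (n + 1)).map fun p => v.getD (n - (n - p)) 1) = v := by
  refine List.ext_getElem (by simp [hv]) fun i h1 h2 => ?_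
  rw [List.getElem_map, List.getElem_range, show n - (n - i) = i by omega,
    List.getD_eq_getElem _ _ h2]

theorem aut_two (g : ℕ) (v : List (FN (2 * g))) (hv : v.length = 2 * g + 1) (h1 : alt true v = 1)
    (h2 : alt false v = ev _ (rW g)) :
    ∃ θ : St g, ((List.range (2 * g + 1)).map fun t => θ.1 (wl _ g (2 * g - t))) = v := by
  obtain ⟨⟨-, w2⟩, w3⟩ := wlSt (2 * g) g le_rfl
  obtain ⟨f, f1, -⟩ := (w3 (FN (2 * g))).1 (fun j => v.getD (2 * g - j) 1) (fun _ => 1)
    (by rw [aut_list _ v hv, h1])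
  have e : ((List.range (2 * g + 1)).map fun t => f (wl _ g (2 * g - t))) = v :=
    (List.map_congr_left fun t _ => f1 _ (Nat.sub_le _ _)).trans (aut_list _ v hv)
  obtain ⟨θ, hθ⟩ := aut_one g f (by
    rw [← w2, aut_alt, List.map_map, w2, ← h2]
    exact congrArg _ e)
  exact ⟨θ, by simpa only [hθ] using e⟩

theorem aut_three (g : ℕ) (G : Type) [Group G] (f f' : FN (2 * g) →* G) (n : ℕ)
    (h : ∀ j, 2 * n < j → j ≤ 2 * g → f (wl _ g j) = f' (wl _ g j)) (j : ℕ) (hj : 2 * n ≤ j) :
    f (io _ j) = f' (io _ j) := by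
  have hb : ∀ i, n ≤ i → i < g → f (io _ (2 * i + 1)) = f' (io _ (2 * i + 1)) := fun i h1 h2 => by
    have : io (2 * g) (2 * i + 1) = wl _ g (2 * i + 1) * (wl _ g (2 * i + 2))⁻¹ := by
      rw [Wl_odd, Wl_even]
      group
    rw [this, map_mul, map_inv, map_mul, map_inv, h _ (by omega) (by omega),
      h _ (by omega) (by omega)]
  have he : ∀ i, n ≤ i → f (be _ g i) = f' (be _ g i) := fun i h1 => by
    rw [be, map_list_prod, map_list_prod, List.map_map, List.map_map]
    refine congrArg _ (List.map_congr_left fun k hk => hb k ?_ ?_) <;>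
      have := List.mem_range'_1.1 hk <;> omega
  have ha : ∀ i, n ≤ i → i < g → f (io _ (2 * i)) = f' (io _ (2 * i)) := fun i h1 h2 => by
    have : io (2 * g) (2 * i) = be _ g (i + 1) * (wl _ g (2 * i + 2))⁻¹ := by
      rw [Wl_even]
      group
    rw [this, map_mul, map_inv, map_mul, map_inv, h _ (by omega) (by omega), he _ (by omega)]
  by_cases e : j < 2 * g
  · rcases Nat.mod_two_eq_zero_or_one j with h' | h'
    · rw [show j = 2 * (j / 2) by omega]
      exact ha _ (by omega) (by omega)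
    · rw [show j = 2 * (j / 2) + 1 by omega]
      exact hb _ (by omega) (by omega)
  · rw [Iot_big (by omega), map_one, map_one]

theorem autSt : AutSt := fun g => ⟨aut_one g, aut_two g, aut_three g⟩

theorem aut_inc (n : ℕ) : Function.Injective (inc n) := by
  have e : (lift fun i : Fin (n + 2) => io n i).comp (inc n) = MonoidHom.id _ :=
    Iot_ext fun p hp => by
      rw [MonoidHom.comp_apply, inc_io hp, MonoidHom.id_apply,
        show io (n + 2) p = of ⟨p, by omega⟩ from dif_pos _, lift_apply_of]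
  exact Function.LeftInverse.injective (g := lift fun i : Fin (n + 2) => io n i)
    fun y => DFunLike.congr_fun e y

theorem exSt : ExSt := by
  intro f g hfg
  induction g, hfg using Nat.le_induction with
  | base => exact ⟨MonoidHom.id _, fun φ _ => ⟨φ, rfl⟩, fun _ _ h => h⟩
  | succ g hfg ih =>
    obtain ⟨e, h1, h2⟩ := ih
    refine ⟨(exS g).comp e, fun φ hφ => ?_, fun k φ h => (h2 k φ h).ex⟩
    obtain ⟨ψ, rfl⟩ := ML.ex_fix φ (hφ _ ⟨_, by omega, rfl⟩) (hφ _ ⟨_, by omega, rfl⟩)
    obtain ⟨χ, rfl⟩ := h1 ψ (by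
      rintro _ ⟨p, hp, rfl⟩
      by_cases a : p < 2 * g
      · have b : exA (2 * g) ψ.1 (io (2 * g + 2) p) = io (2 * g + 2) p := hφ _ ⟨p, hp, rfl⟩
        rw [← inc_io a, exA_inc] at b
        exact aut_inc _ b
      · rw [Iot_big (by omega), map_one])
    exact ⟨χ, rfl⟩

end Pool.Agent.MH
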