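import Pool.Agent.Lib.MP_c86c76_al.Th.All
import Pool.Agent.Lib.MP_c86c76_al.GL.FiveB

/-!
The base statement gives property (T) for all closed surfaces of genus at least five.
-/

set_option autoImplicit false

namespace Pool.Agent.MH

open Pool.Agent.MT

theorem allOf (hb : BaseB) {g : ℕ} (hg : 5 ≤ g) : HasT (toMod g).range := by
  have : Group.FG (St g) := MG.stab_fg g
  have : Group.FG (toMod g).range := Group.fg_range _
  exact AFP.hasT (fin (fhB hb) g hg)

end Pool.Agent.MH
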