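import Pool.Agent.Lib.MP_c86c76_al.Th.St
import Pool.Agent.Lib.MP_c86c76_al.Tg.Gam
import Pool.Agent.Lib.MP_c86c76_al.Tg.Ed
import Pool.Agent.Lib.MP_c86c76_al.Tg.Lca

/-!
The lifts of the braids of a window fix the words outside.
-/

set_option autoImplicit false

namespace Pool.Agent.MH

open Pool.Agent.MB Pool.Agent.MG Pool.Agent.MA Pool.Agent.MT
open Pool.Agent.MW hiding FH AFP
open Pool.Agent.MK (Fx Iot HL)
open Pool.Agent.ML (IsT inS)
open FreeGroup hiding map_mul map_inv map_one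

theorem pl_alt {G G' : Type} [Group G] [Group G'] (f : G →* G') (L : List G) :
    ∀ e, f (alt e L) = alt e (L.map f) := by
  induction L with
  | nil => intro e; simp [alt]
  | cons x t ih => intro e; cases e <;> simp [alt, ih]

theorem pl_be (h i : ℕ) : inG h (be _ h i) = be _ h i := by
  rw [be, be, map_list_prod, List.map_map]
  congr 1
  refine List.map_congr_left fun j hj => ?_
  have := List.mem_range'_1.1 hj
  exact Gam_in_low (by omega)

theorem pl_wl {h j : ℕ} (hj : j ≤ 2 * h) : inG h (wl _ h j) = ww h j := by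
  unfold ww wl
  split_ifs with h1 h2
  · exact pl_be h 0
  · rw [map_mul, map_mul, map_inv, pl_be, Gam_in_low (by omega), Gam_in_low (by omega)]
  · rw [map_mul, map_inv, pl_be, Gam_in_low (by omega)]

theorem pl_io {h p : ℕ} (h1 : 3 ≤ p) (h2 : p ≤ 2 * h + 2) :
    rB h (io _ p) = Ed 0 (wl _ h (2 * h + 2 - p)) := by
  rw [rB, MonoidHom.comp_apply, lift_rt_io (by omega) h1 (by omega), rhoW, lift_io _ (by omega),
    if_neg (by simp only; omega), if_pos (by simp only; omega)]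
  congr 2
  simp only
  omega

theorem pl_bl0 (h : ℕ) : rB h (bl _ 0 3) = ⟨tau 0,
    ![1, wl (2 * h + 1) h (2 * h), io (2 * h + 1) (2 * h) * (wl (2 * h + 1) h (2 * h))⁻¹]⟩ := by
  rw [rB, MonoidHom.comp_apply, lift_rt_bl' (by omega) (by omega), lift_rho0]

/-- The outer labels. -/
def plO (h l : ℕ) : List (FN (2 * h + 1)) :=
  (List.range (2 * l)).map fun q => wl (2 * h + 1) h (2 * h - 1 - q)

theorem pl_Y {h l : ℕ} (hl : l ≤ h) : rB h (bl _ 3 (3 + 2 * l)) =
    ⟨1, ![1, alt false (plO h l), alt true (plO h l)]⟩ := by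
  have e := (edSt (FN (2 * h + 1))).2.2.2.2.1 (plO h l)
  rw [if_neg (by simp [plO])] at e
  rw [← e, bl, map_list_prod, Nat.add_sub_cancel_left, List.range'_eq_map_range, plO,
    List.map_map, List.map_map, List.map_map]
  congr 1
  refine List.map_congr_left fun q hq => ?_
  have := List.mem_range.1 hq
  simp only [Function.comp_apply]
  rw [pl_io (by omega) (by omega)]
  congr 2
  omega

theorem pl_yy {h l : ℕ} (e : Bool) : inG h (alt e (plO h l)) = yy h l e := by
  rw [pl_alt, plO, List.map_map, yy]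
  congr 1
  exact List.map_congr_left fun q _ => pl_wl (by omega)

theorem pl_blk {m k : ℕ} {G : Type} [Group G] (f f' : FN m →* G) (j : ℕ)
    (h : ∀ q, q < j → f (io m (k + q)) = f' (io m (k + q))) :
    f (bl m k (k + j)) = f' (bl m k (k + j)) := by
  induction j with
  | zero => simp [bl_self]
  | succ j ih =>
    rw [← add_assoc, bl_succ m (Nat.le_add_right _ _), map_mul, map_mul,
      ih fun q hq => h q (by omega), h j (by omega)]

theorem pl_mem {m i j k : ℕ} (t : ℕ) (h1 : i ≤ k) (h2 : k + t ≤ j) :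
    bl m k (k + t) ∈ EA m i j := by
  induction t with
  | zero => simp [bl_self]
  | succ t ih =>
    rw [← add_assoc, bl_succ m (Nat.le_add_right _ _)]
    exact mul_mem (ih (by omega)) (Subgroup.subset_closure (Or.inr ⟨_, by omega, by omega, rfl⟩))

theorem pl_ea {m i j i' j' : ℕ} (h1 : i' ≤ i) (h0 : i ≤ j') (h2 : j ≤ j') :
    EA m i j ≤ EA m i' j' := by
  refine (Subgroup.closure_le _).2 ?_
  rintro x (rfl | ⟨p, a, b, rfl⟩)
  · exact lca_bl i h1 h0
  · exact Subgroup.subset_closure (Or.inr ⟨p, by omega, by omega, rfl⟩)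

theorem pl_conj {G : Type} [Group G] (U E : Wr G) (hU : U.p = 1) (hE : E.p = tau 0) :
    (U * E * U⁻¹).l 1 = U.l 2 * E.l 1 * (U.l 1)⁻¹ := by
  have : tau 0 1 = 2 := by decide
  simp [hU, hE, this]

theorem plSt (hL : LSt) : PlSt := by
  rintro h a l hh δ ⟨⟨d, hd⟩, -⟩ ⟨d1, d2, d3⟩ β ⟨⟨v, hv⟩, -⟩ φ ⟨u, hu, hf, u1, u2⟩
  have xD := (δ * β * δ⁻¹).2.1
  set ξ := (δ * β * δ⁻¹).1 with hξ
  have key : ∀ x, ξ (δ.1 x) = δ.1 (β.1 x) := fun x => by simp [hξ]
  have ym : bl (2 * h + 3 + 1) 3 (3 + 2 * l) ∈ EA _ 3 (3 + 2 * h + 1) :=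
    pl_mem _ le_rfl (by omega)
  have rY := pl_Y (h := h) (l := l) (by omega)
  have c1 : ∀ q, q < 2 * l → ξ (bl _ 3 (3 + 2 * l) * io _ (3 + q) * (bl _ 3 (3 + 2 * l))⁻¹) =
      bl _ 3 (3 + 2 * l) * io _ (3 + q) * (bl _ 3 (3 + 2 * l))⁻¹ := fun q hq => by
    have e := key (io _ (2 * a + 12 + q))
    rw [hv.2.2.2 _ (by omega), d3 q hq] at e
    simp only [map_mul, map_inv, xD] at e ⊢
    simpa [mul_assoc] using mul_right_cancel e
  have xY : ξ (bl _ 3 (3 + 2 * l)) = bl _ 3 (3 + 2 * l) := by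
    have := pl_blk (k := 3) (ξ.toMonoidHom.comp (MulAut.conj (bl _ 3 (3 + 2 * l))).toMonoidHom)
      (MulAut.conj (bl _ 3 (3 + 2 * l))).toMonoidHom (2 * l) c1
    simpa using this
  set Y := bl (2 * h + 3 + 1) 3 (3 + 2 * l) with hY
  have c2 : ∀ q, q < 2 * l → ξ (io _ (3 + q)) = io _ (3 + q) := fun q hq => by
    have e := c1 q hq
    rw [map_mul, map_mul, map_inv, xY] at e
    simpa using e
  have eu : u = Y * δ.1 v * Y⁻¹ := by
    refine (hL h).1 _ 3 _ ξ _ _ (by omega) (by omega) hu ⟨?_, fun p hp => ?_, hu.2.2⟩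
    · exact mul_mem (mul_mem ym (hd.ea (pl_ea (by omega) (by omega) (by omega) hv.1))) (inv_mem ym)
    · have e := key (io _ p)
      rw [hv.2.1 p (by omega), d1 p hp] at e
      simp only [map_mul, map_inv, xY, d1 p hp] at e
      rw [show ξ (io _ p) = Y * (Y⁻¹ * ξ (io _ p) * Y) * Y⁻¹ by group, e]
      group
  set V := rB h (δ.1 v) with hV
  set Y1 := alt false (plO h l) with hY1
  set Y2 := alt true (plO h l) with hY2
  have rU : rB h u = rB h Y * V * (rB h Y)⁻¹ := by rw [eu, map_mul, map_mul, map_inv]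
  have vp : V.p = 1 := by simpa [rU, rY] using u1
  have U1 : (rB h u).l 1 = Y1 * V.l 1 * Y1⁻¹ := by simp [rU, rY, vp]
  have U2 : (rB h u).l 2 = Y2 * V.l 2 * Y2⁻¹ := by simp [rU, rY, vp]
  have fY := hf Y ym
  rw [xY, rY] at fY
  have f1 : fb φ Y1 = Y1 := (congrArg (fun x => x.l 1) fY).symm
  have f2 : fb φ Y2 = Y2 := (congrArg (fun x => x.l 2) fY).symm
  have fw : fb φ (wl _ h (2 * h)) = (rB h u).l 2 * wl _ h (2 * h) * ((rB h u).l 1)⁻¹ := by
    have e := hf _ (Subgroup.subset_closure (Or.inl rfl))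
    rw [show ξ (bl _ 0 3) = u * bl _ 0 3 * u⁻¹ from
      bl_conj ξ.toMonoidHom (MonoidHom.id _) u hu.2.1, map_mul, map_mul, map_inv] at e
    have e1 := congrArg (fun x => x.l 1) e
    rw [pl_conj _ _ u1 (by rw [pl_bl0]), pl_bl0] at e1
    exact e1.symm
  rintro w (rfl | ⟨q, hq, rfl⟩ | ⟨p, hp, rfl⟩)
  · exact Gam_a φ
  · have e := hf (io _ (3 + q))
      (Subgroup.subset_closure (Or.inr ⟨_, by omega, by omega, rfl⟩))
    rw [c2 q hq, pl_io (by omega) (by omega), show 2 * h + 2 - (3 + q) = 2 * h - 1 - q by omega] at e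
    have e1 : wl _ h (2 * h - 1 - q) = fb φ (wl _ h (2 * h - 1 - q)) := congrArg (fun x => x.l 1) e
    rw [← pl_wl (by omega), Gam_fb, ← e1]
  · have e0 := key (io _ (3 + p))
    rw [hv.2.1 _ (by omega), map_mul, map_mul, map_inv, d2 _ (by omega) (by omega)] at e0
    have e := hf (io _ (2 * l + (3 + p)))
      (Subgroup.subset_closure (Or.inr ⟨_, by omega, by omega, rfl⟩))
    rw [e0, map_mul, map_mul, map_inv, pl_io (by omega) (by omega),
      show 2 * h + 2 - (2 * l + (3 + p)) = 2 * h - 2 * l - 1 - p by omega] at e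
    have e1 := congrArg (fun x => x.l 1) e
    rw [pl_conj _ _ vp rfl] at e1
    have e2 : fb φ (wl _ h (2 * h - 2 * l - 1 - p)) =
        V.l 2 * wl _ h (2 * h - 2 * l - 1 - p) * (V.l 1)⁻¹ := e1.symm
    rw [nn, ← pl_yy, ← pl_yy, ← pl_wl le_rfl, ← pl_wl (j := 2 * h - 2 * l - 1 - p) (by omega),
      ← hY1, ← hY2]
    simp only [map_mul, map_inv, Gam_fb, Gam_uu, f1, f2, fw, e2, ← u2, U1, U2]
    group

end Pool.Agent.MH
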