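import Pool.Agent.Lib.MP_c86c76_al.Tk.St
import Pool.Agent.Lib.MP_c86c76_al.Tg.Lift
import Pool.Agent.Lib.MP_c86c76_al.Lo.Tab
import Pool.Agent.Lib.MP_c86c76_al.S.Rel

/-!
From genus five to all genera: triple covers of an annulus and capping.
Definitions and statements.
-/

set_option autoImplicit false

namespace Pool.Agent.MH

open Pool.Agent.MB Pool.Agent.MG Pool.Agent.MA Pool.Agent.MT
open Pool.Agent.MW hiding FH AFP
open Pool.Agent.MK (Fx Iot HL)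
open Pool.Agent.ML (IsT inS)
open FreeGroup hiding map_mul map_inv map_one

/-- The action factors through the closed surface. -/
def Cl (g : ℕ) {H : Type} [NormedAddCommGroup H] [InnerProductSpace ℂ H]
    (α : St g →* (H ≃ᵃⁱ[ℂ] H)) : Prop := ∀ φ, toMod g φ = 1 → α φ = 1

/-- The elements that fix all handles but the first `f`. -/
def Fg (g f : ℕ) : Subgroup (St g) := Fx (St g) {w | ∃ p, 2 * f ≤ p ∧ w = io (2 * g) p}

/-- The braids of the annulus around the first three points. -/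
abbrev Bh (h : ℕ) : Subgroup (BL (2 * h + 3 + 1)) := Loc (2 * h + 3 + 1) 3 (3 + 2 * h + 1)

/-- The standard type. -/
def p0 (m : ℕ) : FN m →* Equiv.Perm (Fin 3) :=
  lift fun j => tau (if (j : ℕ) + 1 < m then 0 else 2)

/-- The standard system of the annulus. -/
def rB (h : ℕ) : FN (2 * h + 3 + 1) →* Wr (FN (2 * h + 1)) :=
  (rhoW h).comp (liftRt h (2 * h + 3 + 1) 3)

/-- `ψ` is the lift of `β`. -/
def L (h : ℕ) (β : BL (2 * h + 3 + 1)) (ψ : Gam h) : Prop :=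
  ∃ u, Loc0 _ 3 (3 + 2 * h + 1) β.1 u ∧
    (∀ x ∈ EA _ 3 (3 + 2 * h + 1), rB h (β.1 x) = Wr.map (fb ψ) (rB h x)) ∧
    (rB h u).p = 1 ∧ (rB h u).l 1 = uu ψ

/-- The loops of the last point that keep the first three points together. -/
def FT (N : ℕ) : Subgroup (BL (N + 1)) :=
  Subgroup.closure {β | ∃ k, (k = 0 ∨ 3 ≤ k) ∧ k ≤ N ∧ β = MM N k}

/-- The type of a window with `a` inner handles. -/
def cw (a p : ℕ) : Fin 3 := if p < 2 * a + 11 then 0 else if p = 2 * a + 11 then 2 else 1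

/-- The points `3, …, 2 l + 2` move to the outside. -/
def IsD (m n l : ℕ) (δ : MulAut (FN m)) : Prop :=
  (∀ p, p < 3 → δ (io m p) = (bl m 3 (3 + 2 * l))⁻¹ * io m p * bl m 3 (3 + 2 * l)) ∧
  (∀ p, 3 ≤ p → p < n → δ (io m p) = io m (2 * l + p)) ∧
  ∀ q, q < 2 * l → δ (io m (n + q)) = (bl m 0 m)⁻¹ * bl m 3 (3 + 2 * l) * io m (3 + q) *
    (bl m 3 (3 + 2 * l))⁻¹ * bl m 0 m

/-- The labels of the annulus. -/
abbrev ww (h j : ℕ) : FN (2 * (h + 1)) := wl (2 * (h + 1)) h j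

/-- The alternating products of the outer labels. -/
def yy (h l : ℕ) (e : Bool) : FN (2 * (h + 1)) :=
  alt e ((List.range (2 * l)).map fun q => ww h (2 * h - 1 - q))

/-- The inner labels seen through the band. -/
def nn (h l p : ℕ) : FN (2 * (h + 1)) :=
  ((yy h l false)⁻¹ * io _ (2 * h + 1))⁻¹ *
    (((yy h l true)⁻¹ * ww h (2 * h) * yy h l false)⁻¹ * ww h (2 * h - 2 * l - 1 - p)) *
    ((yy h l false)⁻¹ * io _ (2 * h + 1))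

/-- The words outside of a window. -/
def Fw (h a l : ℕ) : Set (FN (2 * (h + 1))) :=
  {w | w = io _ (2 * h) ∨ (∃ q, q < 2 * l ∧ w = ww h (2 * h - 1 - q)) ∨
    ∃ p, p < 2 * a ∧ w = nn h l p}

/-- The labels outside of the disc with the first `i` points. -/
def Lab {G : Type} [Group G] {m : ℕ} (ρ : FN m →* Wr G) (i : ℕ) : Subgroup G :=
  Subgroup.closure {y | ∃ x ∈ EA m i m, ∃ t, y = (ρ x).l t}

/-- `φ` moves the cover of the disc with the first `i` points rigidly. -/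
def Rig {G : Type} [Group G] {m : ℕ} (ρ : FN m →* Wr G) (i : ℕ) (φ : MulAut G) : Prop :=
  ∃ V : Wr G, V.p = 1 ∧ (∀ t, V.l t ∈ Lab ρ i) ∧
    (∀ p, p < i → Wr.map φ.toMonoidHom (ρ (io m p)) = V * ρ (io m p) * V⁻¹) ∧
    ∀ y ∈ Lab ρ i, φ y ∈ Lab ρ i

/-- The group of the complement of the handles `n, …, g - 1`. -/
def Ec (g n : ℕ) : Subgroup (FN (2 * g)) := Subgroup.closure
  {y | y = ev _ (rW g) * (ev _ (rW n))⁻¹ ∨ ∃ p, p < 2 * n ∧ y = io (2 * g) p}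

/-- `φ` moves the handles `n, …, g - 1` rigidly. -/
def Cp (g n : ℕ) (φ : MulAut (FN (2 * g))) : Prop :=
  ∃ U ∈ Ec g n, (∀ p, p < 2 * n → φ (io _ p) ∈ Ec g n) ∧
    ∀ p, 2 * n ≤ p → φ (io _ p) = U * io _ p * U⁻¹

/-- Automorphisms from labels. -/
def AutSt : Prop := ∀ g : ℕ,
  (∀ f : FN (2 * g) →* FN (2 * g), f (ev _ (rW g)) = ev _ (rW g) → ∃ θ : St g, ∀ x, θ.1 x = f x) ∧
  (∀ v : List (FN (2 * g)), v.length = 2 * g + 1 → alt true v = 1 → alt false v = ev _ (rW g) →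
    ∃ θ : St g, ((List.range (2 * g + 1)).map fun t => θ.1 (wl _ g (2 * g - t))) = v) ∧
  ∀ (G : Type) [Group G] (f f' : FN (2 * g) →* G) (n : ℕ),
    (∀ j, 2 * n < j → j ≤ 2 * g → f (wl _ g j) = f' (wl _ g j)) →
    ∀ j, 2 * n ≤ j → f (io _ j) = f' (io _ j)

/-- New handles. -/
def ExSt : Prop := ∀ f g, f ≤ g → ∃ e : St f →* St g, (∀ φ ∈ Fg g f, φ ∈ e.range) ∧
  ∀ k φ, IsT (2 * f) k φ.1 → IsT (2 * g) k (e φ).1

/-- Lifts. -/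
def LSt : Prop := ∀ h : ℕ,
  (∀ (m i j : ℕ) β u u', 2 ≤ i → i ≤ m → Loc0 m i j β u → Loc0 m i j β u' → u = u') ∧
  (∀ x ∈ EA _ 3 (3 + 2 * h + 1), (rB h x).p = p0 _ x) ∧
  (∀ β ∈ Bh h, ∀ u, Loc0 _ 3 (3 + 2 * h + 1) β.1 u → p0 _ u = 1 →
    (p0 _).comp β.1.toMonoidHom = p0 _ → ∃ ψ, L h β ψ) ∧
  (∀ β ψ ψ', L h β ψ → L h β ψ' → ψ = ψ') ∧ L h 1 1 ∧
  (∀ β γ ψ ψ', L h β ψ → L h γ ψ' → L h (β * γ) (ψ * ψ')) ∧
  (∀ β ∈ Bh h, ∀ ψ, L h β ψ → L h β⁻¹ ψ⁻¹) ∧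
  ∃ (T : Type) (_ : Finite T) (c : Bh h → T), ∀ β γ, c β = c γ → ∃ ψ, L h (β * γ⁻¹).1 ψ

/-- The first point is replaced by three points. -/
def CabSt : Prop := ∀ N, 1 ≤ N → ∃ c : Loc (N + 1) 1 (N + 1) →* Loc (N + 2 + 1) 3 (N + 2 + 1),
  ∀ β k, k ≤ N → β.1 = MM N k → (c β).1 = MM (N + 2) (if k = 0 then 0 else k + 2)

/-- The energy theorem for the annulus. -/
def BrSt : Prop := ∀ N j, 4 ≤ N → j = N + 1 →
  (∀ k, (k = 0 ∨ 3 ≤ k) → k ≤ N → MM N k ∈ Loc (N + 1) 3 j) ∧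
  (∀ k, 3 ≤ k → k ≤ N → ∃ η ∈ Loc (N + 1) 3 j, ∀ l, k ≤ l → l ≤ N →
    η⁻¹ * ((MM N 0)⁻¹ * MM N l) * η ∈ Loc (N + 1) k (l + 1)) ∧
  ∀ (H : Type) [NormedAddCommGroup H] [InnerProductSpace ℂ H] [CompleteSpace H]
    (a : Loc (N + 1) 3 j →* (H ≃ᵃⁱ[ℂ] H)) (M : ℕ → Loc (N + 1) 3 j),
    (∀ k, (k = 0 ∨ 3 ≤ k) → k ≤ N → (M k).1 = MM N k) →
    (∀ k, 3 ≤ k → k ≤ N → ∃ x, ∀ l, k ≤ l → l ≤ N → l ≤ k + 2 → a (M 0) x = a (M l) x) →
    ∀ ε : ℝ, 0 < ε → ∃ x, ∀ k, (k = 0 ∨ 3 ≤ k) → k ≤ N → ‖a (M k) x - x‖ < ε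

/-- Every small annulus lies in a window with nine points. -/
def NfSt : Prop := ∀ h k j, 4 ≤ h → 3 ≤ k → k ≤ j → j ≤ k + 3 → j ≤ 2 * h + 3 + 1 →
  ∀ γ ∈ Bh h, ∃ a l, h = a + l + 4 ∧ ∃ γ' ∈ Bh h,
    Tp ((p0 _).comp (γ * γ').1.toMonoidHom) (cw a) ∧
    ∀ β ∈ Loc _ k j, γ'⁻¹ * β * γ' ∈ Loc _ (2 * a + 3) (2 * a + 12)

/-- The braid that puts the window in its place. -/
def DelSt : Prop := ∀ h a l, h = a + l + 4 → ∃ δ ∈ Bh h, IsD _ (2 * a + 12) l δ.1 ∧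
  Tp ((p0 _).comp δ.1.toMonoidHom) (cw a)

/-- The lifts of the braids of a window fix the words outside. -/
def PlSt : Prop := ∀ h a l, h = a + l + 4 → ∀ δ ∈ Bh h, IsD _ (2 * a + 12) l δ.1 →
  ∀ β ∈ Loc _ (2 * a + 3) (2 * a + 12), ∀ φ, L h (δ * β * δ⁻¹) φ → ∀ w ∈ Fw h a l, φ.1 w = w

/-- The words outside of a window are handles. -/
def ThSt : Prop := ∀ h a l f, h + 1 = a + l + f → 1 ≤ f → ∃ θ : St (h + 1), ∀ φ : St (h + 1),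
  (∀ w ∈ Fw h a l, φ.1 w = w) → θ⁻¹ * φ * θ ∈ Fg (h + 1) f

/-- The lifts of the braids of a small annulus have a common fixed point. -/
def ElSt : Prop := FH (St 5) → ∀ h k j, 4 ≤ h → 3 ≤ k → k ≤ j → j ≤ k + 3 → j ≤ 2 * h + 3 + 1 →
  ∀ (H : Type) [NormedAddCommGroup H] [InnerProductSpace ℂ H] [CompleteSpace H]
    (α : St (h + 1) →* (H ≃ᵃⁱ[ℂ] H)), ∀ γ ∈ Bh h,
    ∃ x, ∀ β ∈ Loc _ k j, ∀ φ, L h (γ * β * γ⁻¹) φ → α (inS h φ) x = x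

/-- Twists are lifts. -/
def TwSt : Prop := ∀ (h i : ℕ) (ψ : Gam h),
  (i < h → IsA _ i ψ.1 → L h (MM (2 * h + 3) (2 * h + 1 - 2 * i) ^ 2) ψ⁻¹) ∧
  ∀ β : BL (2 * h + 3 + 1), i + 1 < h →
    (IsB _ i ψ.1 → IsS _ (2 * h - 2 * i) β.1 → L h β ψ⁻¹) ∧
    (IsC _ i ψ.1 → IsS _ (2 * h - 1 - 2 * i) β.1 → L h β ψ⁻¹)

/-- The elements that fix two handles are lifts of loops of the last point. -/
def NbSt : Prop := ∀ h, 1 ≤ h → ∀ φ ∈ Fg (h + 1) (h - 1),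
  ∃ ψ : Gam h, inS h ψ = φ ∧ ∃ β ∈ FT (2 * h + 3), L h β ψ

/-- Step two. -/
def TwoSt : Prop := FH (St 5) → ∀ g, 5 ≤ g →
  ∀ (H : Type) [NormedAddCommGroup H] [InnerProductSpace ℂ H] [CompleteSpace H]
    (α : St g →* (H ≃ᵃⁱ[ℂ] H)), AF (α.comp (Fg g (g - 2)).subtype)

/-- The group of a window moves the inner part rigidly. -/
def LabSt : Prop := ∀ (G : Type) [Group G] (h m i : ℕ) (r : G) (ρ : FN m →* Wr G) k s
  (ι : Gam h →* MulAction.stabilizer (MulAut G) r), i + 2 * h + 1 ≤ m → Iot ρ h i k s ι →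
  ∀ ψ, Rig ρ i (ι ψ).1

/-- Reduction to the standard system. -/
def InaSt : Prop := ∀ (g i : ℕ) (ρ : FN (2 * g + 1 + 1) →* Wr (FN (2 * g))),
  XX (ev (2 * g) (rW g)) ρ → i % 2 = 1 → i + 3 ≤ 2 * g + 1 + 1 →
  (∀ p, p < i → pp ρ (io _ p) = tau 0) →
  ∃ θ : St g, ∀ φ : St g, Rig ρ i φ.1 → Rig (rho0 g) i (θ⁻¹ * φ * θ).1

/-- The inner part is a block of handles. -/
def InbSt : Prop := ∀ g a n, g = a + n →
  ∃ θ : St g, ∀ φ : St g, Rig (rho0 g) (2 * a + 1) φ.1 → Cp g n (θ⁻¹ * φ * θ).1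

/-- Capping. -/
def CapSt : Prop := ∀ g n, n < g → ∀ φ : St g, Cp g n φ.1 → ∃ φ0 ∈ Fg g n, toMod g φ0 = toMod g φ

/-- Step three. -/
def ThreeSt : Prop := ∀ g, 6 ≤ g →
  ∀ (H : Type) [NormedAddCommGroup H] [InnerProductSpace ℂ H] [CompleteSpace H]
    (α : St g →* (H ≃ᵃⁱ[ℂ] H)), Cl g α → AF (α.comp (Fg g (g - 2)).subtype) → HL g α

/-- The conclusion. -/
def FinSt : Prop := FH (St 5) → ∀ g, 5 ≤ g → AFP (toMod g).range

end Pool.Agent.MH
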