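import Pool.Agent.Lib.MP_c86c76_al.Th.All
import Pool.Agent.Lib.MP_c86c76_al.Ba.Cl
import Pool.Agent.Lib.MP_c86c76_al.Bi.All

/-!
From genus five with one boundary circle to the mapping class groups of closed surfaces.
-/

set_option autoImplicit false

namespace Pool.Agent.MCG

open Pool.Agent.MB Pool.Agent.MG Pool.Agent.MT Pool.Agent.MI Pool.Agent.Lib.MP_c86c76_al

variable {g : ℕ}

theorem top_fg (hg : 0 < g) (Γ : Subgroup (ModPM (Surf g)))
    (hΓ : Γ.relIndex (ModP (Surf g)) ≠ 0) : Group.FG Γ := by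
  obtain ⟨Θ, h1, h2, h3, -⟩ := theta hg
  have := MG.stab_fg g
  have := Subgroup.finiteIndex_of_le h2
  have : Γ.FiniteIndex := ⟨fun h => by
    have i := Subgroup.relIndex_mul_index (inf_le_right : Γ ⊓ ModP (Surf g) ≤ _)
    rw [Subgroup.inf_relIndex_right] at i
    have j := Subgroup.index_dvd_of_le (inf_le_left : Γ ⊓ ModP (Surf g) ≤ _)
    rw [h, zero_dvd_iff, ← i] at j
    exact mul_ne_zero hΓ Subgroup.FiniteIndex.index_ne_zero j⟩
  have := fg_of_sub Θ.range (Group.fg_of_surjective (stA_surj h3))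
  infer_instance

theorem top_T (h5 : FH (St 5)) (hg : 5 ≤ g) (Γ : Subgroup (ModPM (Surf g)))
    (hΓ : Γ.relIndex (ModP (Surf g)) ≠ 0) (S : Finset Γ)
    (hS : Subgroup.closure (S : Set Γ) = ⊤) : ∃ ε > 0, Kaz S ε := by
  have := MG.stab_fg g
  have := Group.fg_of_surjective (toMod g).rangeRestrict_surjective
  exact (surf_hasT' (by omega) (fun φ e => birman1 (by omega) φ.2 e)
    (MH.fin h5 g hg).hasT Γ hΓ).2 S hS

end Pool.Agent.MCG
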